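import Pool.Agent.BWM.C23
import Pool.Agent.CRM.Defs
import Pool.Agent.NFP.Defs

/-!
Theorem N: the four-jet statistics of all eigenfunctions on closed surfaces. Definitions for the
transfer from the covariant jets to the local waves.
-/

open MeasureTheory Filter Topology Set
open UpperHalfPlane hiding I
open scoped ContDiff

namespace CRN

open QE QE.NC QJ U3 CRM NFP

noncomputable section

/-- the covariance of two derivatives at the origin of the plane wave `√2 cos (⟨x, e^{iθ}⟩ + s)` with a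
uniform random phase `s` -/
def pcov (θ : ℝ) {k l : ℕ} (v : Fin k → ℂ) (w : Fin l → ℂ) : ℝ :=
  ∫ s, iteratedFDeriv ℝ k (planeWave θ s) 0 v * iteratedFDeriv ℝ l (planeWave θ s) 0 w ∂angle

/-- the sum over the three pairings of four derivatives of the product of the covariances of the two
pairs, for the plane waves in the directions `θ` (first pair) and `θ'` (second pair) -/
def pwick (θ θ' : ℝ) (k : Fin 4 → ℕ) (v : ∀ i, Fin (k i) → ℂ) : ℝ :=
  pcov θ (v 0) (v 1) * pcov θ' (v 2) (v 3) + pcov θ (v 0) (v 2) * pcov θ' (v 1) (v 3)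
    + pcov θ (v 0) (v 3) * pcov θ' (v 1) (v 2)

/-- the mean of these sums over all pairs of directions which make the angle `α` -/
def crossJ (k : Fin 4 → ℕ) (v : ∀ i, Fin (k i) → ℂ) (α : ℝ) : ℝ :=
  ∫ θ, (pwick θ (θ + α) k v + pwick θ (θ - α) k v) / 2 ∂angle

/-- the covariance `cos ⟨x, e^{iθ}⟩` of the values of a plane wave at two points with difference `x` -/
def pcos (θ : ℝ) (x : ℂ) : ℝ := Real.cos (x * Complex.exp (-(θ * Complex.I))).re

/-- the sum over the three pairings for the values at four points -/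
def pwickP (θ θ' : ℝ) (x : Fin 4 → ℂ) : ℝ :=
  pcos θ (x 0 - x 1) * pcos θ' (x 2 - x 3) + pcos θ (x 0 - x 2) * pcos θ' (x 1 - x 3)
    + pcos θ (x 0 - x 3) * pcos θ' (x 1 - x 2)

/-- the mean of these sums over all pairs of directions which make the angle `α` -/
def crossP (x : Fin 4 → ℂ) (α : ℝ) : ℝ :=
  ∫ θ, (pwickP θ (θ + α) x + pwickP θ (θ - α) x) / 2 ∂angle

/-- the spin of the mixed derivative with `a` derivatives `∂` and `k - a` derivatives `∂bar` -/
def sp (k a : Fin 4 → ℕ) (i : Fin 4) : ℤ := (a i : ℤ) - (k i - a i : ℕ)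

/-- the sum over the mixed derivatives of total spin zero, with the coefficients of the product of the
four iterated derivatives, of a function `L` of the four spins -/
def sumJ (k : Fin 4 → ℕ) (v : ∀ i, Fin (k i) → ℂ) (L : ℤ → ℤ → ℤ → ℤ → ℂ) : ℂ :=
  ∑ a ∈ Fintype.piFinset fun i => Finset.range (k i + 1),
    if ∑ i, sp k a i = 0 then (∏ i, QJ.sc (v i) (a i) * cW (a i) (k i - a i))
      * L (sp k a 0) (sp k a 1) (sp k a 2) (sp k a 3)
    else 0

/-- the Wick sum of four jets for two directions with quotient `t` -/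
def wt (t : ℂ) (a b c d : ℤ) : ℂ :=
  (if (a + b) % 2 = 0 then (-1) ^ (b + d) * (ck (a + b) t : ℂ) else 0)
    + (if (a + c) % 2 = 0 then (-1) ^ (c + d) * (ck (a + c) t : ℂ) else 0)
    + (if (a + d) % 2 = 0 then (-1) ^ (c + d) * (ck (a + d) t : ℂ) else 0)

/-- the continuous extension of `(crossJ α - crossJ 0) / sin² α`, as a function of `t = e^{iα}` -/
def quoJ (k : Fin 4 → ℕ) (v : ∀ i, Fin (k i) → ℂ) (t : ℂ) : ℂ :=
  sumJ k v (lk fun j => (gk j t : ℂ))

/-- `ϖ` (a measure on `ℍ × S¹`, finite over compact sets) describes the four-jet integrals of total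
spin zero in all local charts, up to the class function -/
structure LinkG (ρ : ℍ → ℝ) (h : ℕ → ℝ) (φ : ℕ → ℂ → ℂ) (ϖ : Measure (ℍ × S1)) : Prop where
  fin : ∀ K : Set ℍ, IsCompact K → ϖ (K ×ˢ Set.univ) < ⊤
  lim : ∀ (V : Set ℂ) (σ : ℂ → ℝ) (φ' : ℕ → ℂ → ℂ), Agree V UH (gr ρ) h φ σ φ' →
    ∀ ζ : ℂ → ℂ, Test V ζ → ∀ a b c d : ℤ, a + b + c + d = 0 →
    Tendsto (fun n => E4 σ h φ' ζ a b c d n - cl4 a b c d * E4 σ h φ' ζ 0 0 0 0 n) atTop
      (𝓝 (∫ p : ℍ × S1, ζ p.1 * (((gr ρ p.1)⁻¹ : ℝ) : ℂ)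
        * lk (fun j => (gk j p.2 : ℂ)) a b c d ∂ϖ))

end

end CRN
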