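import Pool.Agent.NFP.StI

/-!
CRP: the pairing sums of four points for two directions which make a given angle.
-/

open MeasureTheory Filter Topology Set
open UpperHalfPlane hiding I
open scoped ContDiff

namespace CRN

open QE QE.NC QJ U3 CRM NFP

noncomputable section

namespace CRP

/-- the point of the unit circle -/
def cis (θ : ℝ) : ℂ := Complex.exp (θ * Complex.I)

lemma norm_cis (θ : ℝ) : ‖cis θ‖ = 1 := Complex.norm_exp_ofReal_mul_I θ

lemma continuous_cis : Continuous cis := by
  unfold cis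
  fun_prop

/-- the covariance in terms of the direction -/
def pc (u y : ℂ) : ℝ := Real.cos (y * (starRingEnd ℂ) u).re

lemma cont_pc {X : Type*} [TopologicalSpace X] {f g : X → ℂ} (hf : Continuous f)
    (hg : Continuous g) : Continuous fun a => pc (f a) (g a) := by
  unfold pc
  fun_prop

lemma pc_neg_left (u y : ℂ) : pc (-u) y = pc u y := by
  unfold pc
  rw [map_neg, mul_neg, Complex.neg_re, Real.cos_neg]

lemma pc_neg (u y : ℂ) : pc u (-y) = pc u y := by
  unfold pc
  rw [neg_mul, Complex.neg_re, Real.cos_neg]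

lemma abs_pc (u y : ℂ) : |pc u y| ≤ 1 := Real.abs_cos_le_one _

lemma pcos_eq (θ : ℝ) (y : ℂ) : pcos θ y = pc (cis θ) y := by
  unfold pcos pc cis
  rw [← Complex.exp_conj]
  simp

lemma pc_mul (u y y' : ℂ) : pc u y * pc u y' = (pc u (y + y') + pc u (y - y')) / 2 := by
  unfold pc
  rw [add_mul, sub_mul, Complex.add_re, Complex.sub_re, Real.cos_add, Real.cos_sub]
  ring

/-- the sum over the pairings -/
def PW (u u' : ℂ) (x : Fin 4 → ℂ) : ℝ :=
  pc u (x 0 - x 1) * pc u' (x 2 - x 3) + pc u (x 0 - x 2) * pc u' (x 1 - x 3)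
    + pc u (x 0 - x 3) * pc u' (x 1 - x 2)

lemma pwickP_eq (θ θ' : ℝ) (x : Fin 4 → ℂ) : pwickP θ θ' x = PW (cis θ) (cis θ') x := by
  unfold pwickP PW
  simp only [pcos_eq]

lemma cont_PW (x : Fin 4 → ℂ) {X : Type*} [TopologicalSpace X] {f g : X → ℂ} (hf : Continuous f)
    (hg : Continuous g) : Continuous fun a => PW (f a) (g a) x := by
  unfold PW pc
  fun_prop

lemma abs_PW (u u' : ℂ) (x : Fin 4 → ℂ) : |PW u u' x| ≤ 3 := by
  unfold PW
  have h : ∀ a b : ℝ, |a| ≤ 1 → |b| ≤ 1 → |a * b| ≤ 1 := by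
    intro a b ha hb
    rw [abs_mul]
    exact mul_le_one₀ ha (abs_nonneg _) hb
  have h1 := h _ _ (abs_pc u (x 0 - x 1)) (abs_pc u' (x 2 - x 3))
  have h2 := h _ _ (abs_pc u (x 0 - x 2)) (abs_pc u' (x 1 - x 3))
  have h3 := h _ _ (abs_pc u (x 0 - x 3)) (abs_pc u' (x 1 - x 2))
  rw [abs_le] at *
  constructor <;> linarith [h1.1, h1.2, h2.1, h2.2, h3.1, h3.2]

/-- the mean over the rotations -/
def cP (x : Fin 4 → ℂ) (t : ℂ) : ℝ :=
  ∫ θ, (PW (cis θ) (cis θ * t) x + PW (cis θ) (cis θ * (starRingEnd ℂ) t) x) / 2 ∂angle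

lemma cis_add (θ α : ℝ) : cis (θ + α) = cis θ * cis α := by
  unfold cis
  rw [← Complex.exp_add]
  congr 1
  push_cast
  ring

lemma cis_neg (α : ℝ) : cis (-α) = (starRingEnd ℂ) (cis α) := by
  unfold cis
  rw [← Complex.exp_conj]
  simp

lemma crossP_eq (x : Fin 4 → ℂ) (α : ℝ) : crossP x α = cP x (cis α) := by
  unfold crossP cP
  refine integral_congr_ae (Eventually.of_forall fun θ => ?_)
  beta_reduce
  rw [pwickP_eq, pwickP_eq, cis_add, sub_eq_add_neg θ α, cis_add, cis_neg]

lemma crossP_arg (x : Fin 4 → ℂ) (t : S1) : crossP x (Complex.arg (t : ℂ)) = cP x t := by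
  rw [crossP_eq]
  congr 1
  have h : ‖(t : ℂ)‖ = 1 := by
    have := t.2
    rwa [mem_sphere_zero_iff_norm] at this
  unfold cis
  have := Complex.norm_mul_exp_arg_mul_I (t : ℂ)
  rw [h, Complex.ofReal_one, one_mul] at this
  exact this

lemma angle_prob : IsProbabilityMeasure angle := Berry.angle_prob

lemma continuous_cP (x : Fin 4 → ℂ) : Continuous (cP x) := by
  have := angle_prob
  unfold cP
  refine continuous_of_dominated (bound := fun _ => 3) ?_ ?_ (integrable_const _) ?_
  · intro t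
    refine Continuous.aestronglyMeasurable ?_
    have h1 : Continuous fun θ : ℝ => PW (cis θ) (cis θ * t) x :=
      cont_PW x continuous_cis (continuous_cis.mul continuous_const)
    have h2 : Continuous fun θ : ℝ => PW (cis θ) (cis θ * (starRingEnd ℂ) t) x :=
      cont_PW x continuous_cis (continuous_cis.mul continuous_const)
    exact (h1.add h2).div_const 2
  · intro t
    refine Eventually.of_forall fun θ => ?_
    rw [Real.norm_eq_abs]
    have h1 := abs_PW (cis θ) (cis θ * t) x
    have h2 := abs_PW (cis θ) (cis θ * (starRingEnd ℂ) t) x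
    rw [abs_le] at *
    constructor <;> linarith [h1.1, h1.2, h2.1, h2.2]
  · refine Eventually.of_forall fun θ => ?_
    have h1 : Continuous fun t : ℂ => PW (cis θ) (cis θ * t) x :=
      cont_PW x continuous_const (continuous_const.mul continuous_id)
    have h2 : Continuous fun t : ℂ => PW (cis θ) (cis θ * (starRingEnd ℂ) t) x :=
      cont_PW x continuous_const (continuous_const.mul Complex.continuous_conj)
    exact (h1.add h2).div_const 2

lemma abs_cP (x : Fin 4 → ℂ) (t : ℂ) : |cP x t| ≤ 3 := by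
  have := angle_prob
  unfold cP
  rw [← Real.norm_eq_abs]
  refine (norm_integral_le_of_norm_le_const (C := 3) (Eventually.of_forall fun θ => ?_)).trans ?_
  · rw [Real.norm_eq_abs]
    have h1 := abs_PW (cis θ) (cis θ * t) x
    have h2 := abs_PW (cis θ) (cis θ * (starRingEnd ℂ) t) x
    rw [abs_le] at *
    constructor <;> linarith [h1.1, h1.2, h2.1, h2.2]
  · simp

/-- integrals over the angle -/
lemma int_angle (f : ℝ → ℝ) :
    ∫ θ, f θ ∂angle = (2 * Real.pi)⁻¹ * ∫ θ in (0 : ℝ)..(2 * Real.pi), f θ := by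
  have hpi := Real.pi_pos
  rw [intervalIntegral.integral_of_le (by positivity)]
  unfold angle
  rw [ProbabilityTheory.cond, integral_smul_measure, Real.volume_Ioc, sub_zero,
    ENNReal.toReal_inv, ENNReal.toReal_ofReal (by positivity), smul_eq_mul]

/-- rotation invariance -/
lemma int_angle_shift (f : ℂ → ℝ) (β : ℝ) : ∫ θ, f (cis (θ + β)) ∂angle = ∫ θ, f (cis θ) ∂angle := by
  rw [int_angle, int_angle]
  congr 1
  have hper : Function.Periodic (fun θ => f (cis θ)) (2 * Real.pi) := by
    intro θ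
    simp only
    congr 1
    rw [cis_add]
    have : cis (2 * Real.pi) = 1 := by
      unfold cis
      push_cast
      exact Complex.exp_two_pi_mul_I
    rw [this, mul_one]
  rw [intervalIntegral.integral_comp_add_right (fun θ => f (cis θ)) β, zero_add, add_comm (2 * Real.pi) β]
  have := hper.intervalIntegral_add_eq β 0
  rw [zero_add] at this
  exact this

/-- reflection invariance -/
lemma int_angle_neg (f : ℂ → ℝ) : ∫ θ, f (cis (-θ)) ∂angle = ∫ θ, f (cis θ) ∂angle := by
  rw [int_angle, int_angle]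
  congr 1
  have hper : Function.Periodic (fun θ => f (cis θ)) (2 * Real.pi) := by
    intro θ
    simp only
    congr 1
    rw [cis_add]
    have : cis (2 * Real.pi) = 1 := by
      unfold cis
      push_cast
      exact Complex.exp_two_pi_mul_I
    rw [this, mul_one]
  rw [intervalIntegral.integral_comp_neg (fun θ => f (cis θ)), neg_zero]
  have := hper.intervalIntegral_add_eq (-(2 * Real.pi)) 0
  rw [zero_add, neg_add_cancel] at this
  exact this

lemma exists_cis {t : ℂ} (h : ‖t‖ = 1) : ∃ β : ℝ, cis β = t := by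
  refine ⟨Complex.arg t, ?_⟩
  unfold cis
  have := Complex.norm_mul_exp_arg_mul_I t
  rwa [h, Complex.ofReal_one, one_mul] at this

lemma int_rot (f : ℂ → ℝ) {t : ℂ} (h : ‖t‖ = 1) :
    ∫ θ, f (cis θ * t) ∂angle = ∫ θ, f (cis θ) ∂angle := by
  obtain ⟨β, rfl⟩ := exists_cis h
  rw [← int_angle_shift f β]
  refine integral_congr_ae (Eventually.of_forall fun θ => ?_)
  beta_reduce
  rw [cis_add]

lemma int_pc (y : ℂ) : ∫ θ, pc (cis θ) y ∂angle = Berry.waveK y := by
  rw [int_angle]
  unfold Berry.waveK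
  congr 1
  refine intervalIntegral.integral_congr fun θ _ => ?_
  unfold pc
  congr 1
  rw [← cis_neg]
  unfold cis
  rw [Complex.mul_re, Complex.exp_ofReal_mul_I_re, Complex.exp_ofReal_mul_I_im, Real.cos_neg,
    Real.sin_neg]
  ring

lemma waveK_neg (y : ℂ) : Berry.waveK (-y) = Berry.waveK y := by
  rw [← int_pc, ← int_pc]
  exact integral_congr_ae (Eventually.of_forall fun θ => pc_neg _ _)

lemma continuous_pcE (y : ℂ) : Continuous fun θ : ℝ => pc (cis θ) y :=
  cont_pc continuous_cis continuous_const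

lemma integrable_pcE (y : ℂ) : Integrable (fun θ : ℝ => pc (cis θ) y) angle := by
  have := angle_prob
  refine Integrable.of_bound (continuous_pcE y).aestronglyMeasurable 1
    (Eventually.of_forall fun θ => ?_)
  rw [Real.norm_eq_abs]
  exact abs_pc _ _

/-- at the angle zero -/
theorem crossP_zero (x : Fin 4 → ℂ) : crossP x 0 = resK x := by
  rw [crossP_eq]
  have h0 : cis 0 = 1 := by
    unfold cis
    simp
  rw [h0]
  unfold cP
  have h1 : ∀ θ : ℝ, (PW (cis θ) (cis θ * 1) x + PW (cis θ) (cis θ * (starRingEnd ℂ) 1) x) / 2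
      = ((pc (cis θ) (x 0 - x 1 + (x 2 - x 3)) + pc (cis θ) (x 0 - x 1 - (x 2 - x 3))) / 2
        + (pc (cis θ) (x 0 - x 2 + (x 1 - x 3)) + pc (cis θ) (x 0 - x 2 - (x 1 - x 3))) / 2)
        + (pc (cis θ) (x 0 - x 3 + (x 1 - x 2)) + pc (cis θ) (x 0 - x 3 - (x 1 - x 2))) / 2 := by
    intro θ
    rw [map_one, mul_one]
    unfold PW
    rw [pc_mul, pc_mul, pc_mul]
    ring
  simp only [h1]
  have hi := integrable_pcE
  rw [integral_add, integral_add, integral_div, integral_div, integral_div, integral_add (hi _) (hi _),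
    integral_add (hi _) (hi _), integral_add (hi _) (hi _)]
  · simp only [int_pc]
    unfold resK
    have e1 : x 0 - x 1 + (x 2 - x 3) = x 0 + x 2 - x 1 - x 3 := by ring
    have e2 : x 0 - x 1 - (x 2 - x 3) = x 0 + x 3 - x 1 - x 2 := by ring
    have e3 : x 0 - x 2 + (x 1 - x 3) = x 0 + x 1 - x 2 - x 3 := by ring
    have e4 : x 0 - x 2 - (x 1 - x 3) = x 0 + x 3 - x 1 - x 2 := by ring
    have e5 : x 0 - x 3 + (x 1 - x 2) = x 0 + x 1 - x 2 - x 3 := by ring
    have e6 : x 0 - x 3 - (x 1 - x 2) = x 0 + x 2 - x 1 - x 3 := by ring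
    rw [e1, e2, e3, e4, e5, e6]
    ring
  · exact ((hi _).add (hi _)).div_const 2
  · exact ((hi _).add (hi _)).div_const 2
  · exact (((hi _).add (hi _)).div_const 2).add (((hi _).add (hi _)).div_const 2)
  · exact ((hi _).add (hi _)).div_const 2

/-- the second difference -/
lemma second (u : ℂ) (hu : ‖u‖ = 1) (y : ℂ) (α : ℝ) :
    |(pc (u * cis α) y + pc (u * (starRingEnd ℂ) (cis α)) y) / 2 - pc u y|
      ≤ (‖y‖ + ‖y‖ ^ 2 / 2) * Real.sin α ^ 2 := by
  set q : ℂ := y * (starRingEnd ℂ) u with hq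
  have hqn : ‖q‖ = ‖y‖ := by
    rw [hq, norm_mul, Complex.norm_conj, hu, mul_one]
  have hE1 : (starRingEnd ℂ) (cis α) = Complex.exp (((-α : ℝ) : ℂ) * Complex.I) := by
    rw [← cis_neg]
    rfl
  have h1 : pc (u * cis α) y = Real.cos (q.re * Real.cos α + q.im * Real.sin α) := by
    unfold pc
    rw [map_mul, ← mul_assoc, ← hq, hE1, Complex.mul_re, Complex.exp_ofReal_mul_I_re,
      Complex.exp_ofReal_mul_I_im, Real.cos_neg, Real.sin_neg]
    congr 1
    ring
  have h2 : pc (u * (starRingEnd ℂ) (cis α)) y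
      = Real.cos (q.re * Real.cos α - q.im * Real.sin α) := by
    unfold pc
    rw [map_mul, ← mul_assoc, ← hq, Complex.conj_conj]
    unfold cis
    rw [Complex.mul_re, Complex.exp_ofReal_mul_I_re, Complex.exp_ofReal_mul_I_im]
  have h3 : pc u y = Real.cos q.re := rfl
  have h4 : (pc (u * cis α) y + pc (u * (starRingEnd ℂ) (cis α)) y) / 2
      = Real.cos (q.re * Real.cos α) * Real.cos (q.im * Real.sin α) := by
    rw [h1, h2, Real.cos_add, Real.cos_sub]
    ring
  rw [h4, h3]
  have hre : |q.re| ≤ ‖y‖ := hqn ▸ Complex.abs_re_le_norm q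
  have him : |q.im| ≤ ‖y‖ := hqn ▸ Complex.abs_im_le_norm q
  have h5 : |Real.cos (q.im * Real.sin α) - 1| ≤ ‖y‖ ^ 2 / 2 * Real.sin α ^ 2 := by
    have h6 := Real.one_sub_sq_div_two_le_cos (x := q.im * Real.sin α)
    have h7 := Real.cos_le_one (q.im * Real.sin α)
    rw [abs_sub_comm, abs_of_nonneg (by linarith)]
    have h8 : q.im ^ 2 ≤ ‖y‖ ^ 2 := by
      rw [← sq_abs q.im]
      exact pow_le_pow_left₀ (abs_nonneg _) him 2
    have h9 := mul_le_mul_of_nonneg_right h8 (sq_nonneg (Real.sin α))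
    nlinarith
  have h10 : |Real.cos (q.re * Real.cos α) - Real.cos q.re| ≤ ‖y‖ * Real.sin α ^ 2 := by
    have h11 : Real.cos (q.re * Real.cos α) = Real.cos (q.re * |Real.cos α|) := by
      rcases abs_cases (Real.cos α) with h | h
      · rw [h.1]
      · rw [h.1, mul_neg, Real.cos_neg]
    rw [h11]
    have h12 : |Real.cos (q.re * |Real.cos α|) - Real.cos q.re| ≤ |q.re * |Real.cos α| - q.re| := by
      have := Real.abs_cos_sub_cos_le (q.re * |Real.cos α|) q.re
      exact this
    refine h12.trans ?_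
    have h13 : q.re * |Real.cos α| - q.re = -(q.re * (1 - |Real.cos α|)) := by ring
    have h14 : |Real.cos α| ≤ 1 := Real.abs_cos_le_one α
    have h15 : 1 - |Real.cos α| ≤ Real.sin α ^ 2 := by
      have h16 := Real.sin_sq_add_cos_sq α
      have h17 : |Real.cos α| ^ 2 = Real.cos α ^ 2 := sq_abs _
      have h18 := abs_nonneg (Real.cos α)
      nlinarith
    rw [h13, abs_neg, abs_mul, abs_of_nonneg (by linarith : 0 ≤ 1 - |Real.cos α|)]
    exact mul_le_mul hre h15 (by linarith) (norm_nonneg _)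
  have h19 : Real.cos (q.re * Real.cos α) * Real.cos (q.im * Real.sin α) - Real.cos q.re
      = Real.cos (q.re * Real.cos α) * (Real.cos (q.im * Real.sin α) - 1)
        + (Real.cos (q.re * Real.cos α) - Real.cos q.re) := by ring
  rw [h19]
  refine (abs_add_le _ _).trans ?_
  rw [abs_mul]
  have h20 := Real.abs_cos_le_one (q.re * Real.cos α)
  have h21 : |Real.cos (q.re * Real.cos α)| * |Real.cos (q.im * Real.sin α) - 1|
      ≤ ‖y‖ ^ 2 / 2 * Real.sin α ^ 2 := by
    refine le_trans ?_ h5
    exact mul_le_of_le_one_left (abs_nonneg _) h20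
  linarith

end CRP

open CRP in
/-- the difference to the value at the angle zero is at most a multiple of the square of the sine -/
theorem crossP_bd (x : Fin 4 → ℂ) : ∃ C : ℝ, 0 ≤ C ∧
    ∀ α : ℝ, |crossP x α - resK x| ≤ C * Real.sin α ^ 2 := by
  have := angle_prob
  set c : ℂ → ℝ := fun y => ‖y‖ + ‖y‖ ^ 2 / 2 with hc
  have hc0 : ∀ y, 0 ≤ c y := fun y => by
    rw [hc]
    positivity
  have hC : 0 ≤ c (x 2 - x 3) + c (x 1 - x 3) + c (x 1 - x 2) :=
    add_nonneg (add_nonneg (hc0 _) (hc0 _)) (hc0 _)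
  refine ⟨c (x 2 - x 3) + c (x 1 - x 3) + c (x 1 - x 2), hC, fun α => ?_⟩
  rw [← crossP_zero, crossP_eq, crossP_eq]
  have h0 : cis 0 = 1 := by
    unfold cis
    simp
  rw [h0]
  have hcont : ∀ t : ℂ, Continuous fun θ : ℝ =>
      (PW (cis θ) (cis θ * t) x + PW (cis θ) (cis θ * (starRingEnd ℂ) t) x) / 2 := by
    intro t
    have h1 : Continuous fun θ : ℝ => PW (cis θ) (cis θ * t) x :=
      cont_PW x continuous_cis (continuous_cis.mul continuous_const)
    have h2 : Continuous fun θ : ℝ => PW (cis θ) (cis θ * (starRingEnd ℂ) t) x :=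
      cont_PW x continuous_cis (continuous_cis.mul continuous_const)
    exact (h1.add h2).div_const 2
  have hint : ∀ t : ℂ, Integrable (fun θ : ℝ =>
      (PW (cis θ) (cis θ * t) x + PW (cis θ) (cis θ * (starRingEnd ℂ) t) x) / 2) angle := by
    intro t
    refine Integrable.of_bound (hcont t).aestronglyMeasurable 3 (Eventually.of_forall fun θ => ?_)
    rw [Real.norm_eq_abs]
    have h1 := abs_PW (cis θ) (cis θ * t) x
    have h2 := abs_PW (cis θ) (cis θ * (starRingEnd ℂ) t) x
    rw [abs_le] at *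
    constructor <;> linarith [h1.1, h1.2, h2.1, h2.2]
  unfold cP
  rw [← integral_sub (hint _) (hint _), ← Real.norm_eq_abs]
  refine (norm_integral_le_of_norm_le_const
    (C := (c (x 2 - x 3) + c (x 1 - x 3) + c (x 1 - x 2)) * Real.sin α ^ 2)
    (Eventually.of_forall fun θ => ?_)).trans ?_
  · rw [Real.norm_eq_abs]
    have e1 := second (cis θ) (norm_cis θ) (x 2 - x 3) α
    have e2 := second (cis θ) (norm_cis θ) (x 1 - x 3) α
    have e3 := second (cis θ) (norm_cis θ) (x 1 - x 2) α
    have e4 : (PW (cis θ) (cis θ * cis α) x + PW (cis θ) (cis θ * (starRingEnd ℂ) (cis α)) x) / 2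
        - (PW (cis θ) (cis θ * 1) x + PW (cis θ) (cis θ * (starRingEnd ℂ) 1) x) / 2
        = pc (cis θ) (x 0 - x 1) * ((pc (cis θ * cis α) (x 2 - x 3)
            + pc (cis θ * (starRingEnd ℂ) (cis α)) (x 2 - x 3)) / 2 - pc (cis θ) (x 2 - x 3))
          + pc (cis θ) (x 0 - x 2) * ((pc (cis θ * cis α) (x 1 - x 3)
            + pc (cis θ * (starRingEnd ℂ) (cis α)) (x 1 - x 3)) / 2 - pc (cis θ) (x 1 - x 3))
          + pc (cis θ) (x 0 - x 3) * ((pc (cis θ * cis α) (x 1 - x 2)
            + pc (cis θ * (starRingEnd ℂ) (cis α)) (x 1 - x 2)) / 2 - pc (cis θ) (x 1 - x 2)) := by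
      rw [map_one, mul_one]
      unfold PW
      ring
    rw [e4]
    have hm : ∀ a b d : ℝ, |a| ≤ 1 → |b| ≤ d → |a * b| ≤ d := by
      intro a b d ha hb
      rw [abs_mul]
      exact (mul_le_of_le_one_left (abs_nonneg _) ha).trans hb
    have f1 := hm _ _ _ (abs_pc (cis θ) (x 0 - x 1)) e1
    have f2 := hm _ _ _ (abs_pc (cis θ) (x 0 - x 2)) e2
    have f3 := hm _ _ _ (abs_pc (cis θ) (x 0 - x 3)) e3
    refine (abs_add_le _ _).trans ?_
    refine (add_le_add_left (abs_add_le _ _) _).trans ?_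
    rw [add_mul, add_mul]
    exact add_le_add (add_le_add f1 f2) f3
  · simp

open CRP in
/-- the mean over all pairs of directions of a measure on the circle -/
theorem int_crossP (s : Measure S1) [IsFiniteMeasure s] (x : Fin 4 → ℂ) :
    ∫ w, ∫ w', crossP x (Complex.arg ((w / w' : S1) : ℂ)) ∂s ∂s = dirWick s x := by
  have := angle_prob
  have hn : ∀ w : S1, ‖(w : ℂ)‖ = 1 := fun w => by
    have := w.2
    rwa [mem_sphere_zero_iff_norm] at this
  -- the integrand
  have h1 : ∀ w w' : S1, crossP x (Complex.arg ((w / w' : S1) : ℂ))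
      = ∫ θ, (PW (cis θ * w') (cis θ * w) x + PW (cis θ * w) (cis θ * w') x) / 2 ∂angle := by
    intro w w'
    rw [crossP_arg]
    unfold cP
    have hw : ((w / w' : S1) : ℂ) = w * (starRingEnd ℂ) (w' : ℂ) := by
      rw [show ((w / w' : S1) : ℂ) = (w : ℂ) / (w' : ℂ) from rfl, div_eq_mul_inv]
      congr 1
      rw [Complex.inv_def, Complex.normSq_eq_norm_sq, hn]
      simp
    have hww : ∀ w : S1, (w : ℂ) * (starRingEnd ℂ) (w : ℂ) = 1 := by
      intro w
      rw [Complex.mul_conj, Complex.normSq_eq_norm_sq, hn]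
      simp
    have hint : ∀ f : ℂ → ℝ, Continuous f → (∀ u, |f u| ≤ 3) →
        Integrable (fun θ : ℝ => f (cis θ)) angle := by
      intro f hf hb
      refine Integrable.of_bound (hf.comp continuous_cis).aestronglyMeasurable 3
        (Eventually.of_forall fun θ => ?_)
      rw [Real.norm_eq_abs]
      exact hb _
    have c1 : ∀ a b : ℂ, Continuous fun u : ℂ => PW (u * a) (u * b) x := fun a b =>
      cont_PW x (continuous_id.mul continuous_const) (continuous_id.mul continuous_const)
    rw [hw]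
    simp only [map_mul, Complex.conj_conj]
    rw [integral_div, integral_div]
    congr 1
    rw [integral_add, integral_add]
    · congr 1
      · have := int_rot (fun u => PW u (u * (w * (starRingEnd ℂ) (w' : ℂ))) x) (hn w')
        rw [← this]
        refine integral_congr_ae (Eventually.of_forall fun θ => ?_)
        beta_reduce
        congr 1
        have := hww w'
        linear_combination (cis θ * w) * this
      · have := int_rot (fun u => PW u (u * ((starRingEnd ℂ) (w : ℂ) * w')) x) (hn w)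
        rw [← this]
        refine integral_congr_ae (Eventually.of_forall fun θ => ?_)
        beta_reduce
        congr 1
        have := hww w
        linear_combination (cis θ * w') * this
    · exact hint (fun u => PW (u * w') (u * w) x) (c1 _ _) (fun u => abs_PW _ _ _)
    · exact hint (fun u => PW (u * w) (u * w') x) (c1 _ _) (fun u => abs_PW _ _ _)
    · have := hint (fun u => PW (u * 1) (u * (w * (starRingEnd ℂ) (w' : ℂ))) x) (c1 _ _)
        (fun u => abs_PW _ _ _)
      simpa only [mul_one] using this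
    · have := hint (fun u => PW (u * 1) (u * ((starRingEnd ℂ) (w : ℂ) * w')) x) (c1 _ _)
        (fun u => abs_PW _ _ _)
      simpa only [mul_one] using this
  have hcv : Continuous fun w : S1 => (w : ℂ) := continuous_subtype_val
  have hib : ∀ (μ : Measure (S1 × S1)) [IsFiniteMeasure μ] (f : S1 × S1 → ℝ), Continuous f →
      (∀ p, |f p| ≤ 3) → Integrable f μ := by
    intro μ _ f hf hb
    refine Integrable.of_bound hf.aestronglyMeasurable 3 (Eventually.of_forall fun p => ?_)
    rw [Real.norm_eq_abs]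
    exact hb _
  have h2 : ∫ w, ∫ w', crossP x (Complex.arg ((w / w' : S1) : ℂ)) ∂s ∂s
      = ∫ p : S1 × S1, crossP x (Complex.arg ((p.1 / p.2 : S1) : ℂ)) ∂(s.prod s) := by
    refine (integral_prod (fun p : S1 × S1 => crossP x (Complex.arg ((p.1 / p.2 : S1) : ℂ))) ?_).symm
    refine hib _ _ ?_ fun p => ?_
    · have : (fun p : S1 × S1 => crossP x (Complex.arg ((p.1 / p.2 : S1) : ℂ)))
          = fun p : S1 × S1 => cP x ((p.1 / p.2 : S1) : ℂ) := by
        funext p
        exact crossP_arg x _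
      rw [this]
      exact (continuous_cP x).comp (hcv.comp (continuous_fst.div' continuous_snd))
    · rw [crossP_arg]
      exact abs_cP x _
  rw [h2]
  simp only [h1]
  have hG : Continuous (Function.uncurry fun (p : S1 × S1) (θ : ℝ) =>
      (PW (cis θ * p.2) (cis θ * p.1) x + PW (cis θ * p.1) (cis θ * p.2) x) / 2) := by
    have c1 : Continuous fun q : (S1 × S1) × ℝ => cis q.2 * (q.1.1 : ℂ) :=
      (continuous_cis.comp continuous_snd).mul (hcv.comp (continuous_fst.comp continuous_fst))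
    have c2 : Continuous fun q : (S1 × S1) × ℝ => cis q.2 * (q.1.2 : ℂ) :=
      (continuous_cis.comp continuous_snd).mul (hcv.comp (continuous_snd.comp continuous_fst))
    exact ((cont_PW x c2 c1).add (cont_PW x c1 c2)).div_const 2
  rw [integral_integral_swap]
  swap
  · refine Integrable.of_bound hG.aestronglyMeasurable 3 (Eventually.of_forall fun q => ?_)
    rw [Real.norm_eq_abs]
    have h1 := abs_PW (cis q.2 * q.1.2) (cis q.2 * q.1.1) x
    have h2 := abs_PW (cis q.2 * q.1.1) (cis q.2 * q.1.2) x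
    show |(PW (cis q.2 * q.1.2) (cis q.2 * q.1.1) x + PW (cis q.2 * q.1.1) (cis q.2 * q.1.2) x) / 2|
      ≤ 3
    rw [abs_le] at *
    constructor <;> linarith [h1.1, h1.2, h2.1, h2.2]
  -- the inner integral
  have h3 : ∀ (u y : ℂ), ∫ w : S1, pc (u * w) y ∂s = dirK s ((starRingEnd ℂ) u * y) := by
    intro u y
    unfold NFP.dirK pc
    refine integral_congr_ae (Eventually.of_forall fun w => ?_)
    beta_reduce
    rw [map_mul]
    congr 2
    ring
  have hp : ∀ (u y : ℂ), Continuous fun w : S1 => pc (u * w) y := fun u y =>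
    cont_pc (continuous_const.mul hcv) continuous_const
  have h4 : ∀ u : ℂ, ∫ p : S1 × S1, PW (u * p.1) (u * p.2) x ∂(s.prod s)
      = dirK s ((starRingEnd ℂ) u * (x 0 - x 1)) * dirK s ((starRingEnd ℂ) u * (x 2 - x 3))
      + dirK s ((starRingEnd ℂ) u * (x 0 - x 2)) * dirK s ((starRingEnd ℂ) u * (x 1 - x 3))
      + dirK s ((starRingEnd ℂ) u * (x 0 - x 3)) * dirK s ((starRingEnd ℂ) u * (x 1 - x 2)) := by
    intro u
    unfold PW
    have hi : ∀ y y' : ℂ, Integrable (fun p : S1 × S1 => pc (u * p.1) y * pc (u * p.2) y')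
        (s.prod s) := by
      intro y y'
      refine hib _ _ (((hp u y).comp continuous_fst).mul ((hp u y').comp continuous_snd)) fun p => ?_
      rw [abs_mul]
      exact (mul_le_one₀ (abs_pc _ _) (abs_nonneg _) (abs_pc _ _)).trans (by norm_num)
    have hm : ∀ y y' : ℂ, ∫ p : S1 × S1, pc (u * p.1) y * pc (u * p.2) y' ∂(s.prod s)
        = dirK s ((starRingEnd ℂ) u * y) * dirK s ((starRingEnd ℂ) u * y') := by
      intro y y'
      rw [← h3, ← h3]
      exact integral_prod_mul (fun w : S1 => pc (u * w) y) (fun w : S1 => pc (u * w) y')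
    rw [integral_add, integral_add, hm, hm, hm]
    · exact hi _ _
    · exact hi _ _
    · exact (hi _ _).add (hi _ _)
    · exact hi _ _
  have h5 : ∀ u : ℂ, ∫ p : S1 × S1, PW (u * p.2) (u * p.1) x ∂(s.prod s)
      = ∫ p : S1 × S1, PW (u * p.1) (u * p.2) x ∂(s.prod s) := by
    intro u
    exact integral_prod_swap (fun p : S1 × S1 => PW (u * p.1) (u * p.2) x)
  have h6 : ∀ θ : ℝ, ∫ p : S1 × S1,
      (PW (cis θ * p.2) (cis θ * p.1) x + PW (cis θ * p.1) (cis θ * p.2) x) / 2 ∂(s.prod s)
      = dirK s (cis (-θ) * (x 0 - x 1)) * dirK s (cis (-θ) * (x 2 - x 3))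
      + dirK s (cis (-θ) * (x 0 - x 2)) * dirK s (cis (-θ) * (x 1 - x 3))
      + dirK s (cis (-θ) * (x 0 - x 3)) * dirK s (cis (-θ) * (x 1 - x 2)) := by
    intro θ
    have c1 : Continuous fun p : S1 × S1 => cis θ * (p.1 : ℂ) :=
      continuous_const.mul (hcv.comp continuous_fst)
    have c2 : Continuous fun p : S1 × S1 => cis θ * (p.2 : ℂ) :=
      continuous_const.mul (hcv.comp continuous_snd)
    rw [integral_div, integral_add (hib _ _ (cont_PW x c2 c1) fun p => abs_PW _ _ _)
      (hib _ _ (cont_PW x c1 c2) fun p => abs_PW _ _ _), h5, h4, cis_neg]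
    ring
  simp only [h6]
  rw [int_angle_neg (fun u => dirK s (u * (x 0 - x 1)) * dirK s (u * (x 2 - x 3))
      + dirK s (u * (x 0 - x 2)) * dirK s (u * (x 1 - x 3))
      + dirK s (u * (x 0 - x 3)) * dirK s (u * (x 1 - x 2))), int_angle]
  unfold dirWick
  rw [one_div]
  rfl

end

end CRN
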