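import Pool.Agent.CRN.Stmts

/-!
Module QUO: the quotient.
-/

open MeasureTheory Filter Topology Set MatrixGroups
open UpperHalfPlane hiding I
open scoped ContDiff

namespace CRN

open QE QE.NC QJ U3 CRM NFP

noncomputable section

namespace QUO

lemma norm_sub_one_sq {w : ℂ} (hw : ‖w‖ = 1) : ‖w - 1‖ ^ 2 = 2 - 2 * w.re := by
  have h1 : w.re * w.re + w.im * w.im = 1 := by
    have h2 := Complex.normSq_apply w
    rw [Complex.normSq_eq_norm_sq, hw] at h2
    linarith
  rw [← Complex.normSq_eq_norm_sq, Complex.normSq_apply]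
  simp only [Complex.sub_re, Complex.sub_im, Complex.one_re, Complex.one_im]
  linear_combination h1

lemma re_zpow_neg {t : ℂ} (ht : ‖t‖ = 1) (n : ℤ) : (t ^ (-n)).re = (t ^ n).re := by
  have h1 : ‖t ^ n‖ = 1 := by rw [norm_zpow, ht, one_zpow]
  rw [zpow_neg, Complex.inv_re, Complex.normSq_eq_norm_sq, h1]
  simp

lemma re_zpow_natAbs {t : ℂ} (ht : ‖t‖ = 1) (n : ℤ) : (t ^ n).re = (t ^ n.natAbs).re := by
  rcases Int.natAbs_eq n with h | h
  · conv_lhs => rw [h]
    rw [zpow_natCast]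
  · conv_lhs => rw [h]
    rw [re_zpow_neg ht, zpow_natCast]

/-- the basic identity -/
lemma key {t : ℂ} (ht : ‖t‖ = 1) {j : ℤ} (hj : j % 2 = 0) : 1 - ck j t = s2 t * gk j t := by
  set m := (j / 2).natAbs with hm
  have h1 : j.natAbs = 2 * m := by omega
  have h2 : (∑ i ∈ Finset.range m, t ^ (2 * i)) * (t ^ 2 - 1) = t ^ (2 * m) - 1 := by
    have h3 := geom_sum_mul (t ^ 2) m
    simp only [← pow_mul] at h3
    exact h3
  have h4 : ‖t ^ (2 * m)‖ = 1 := by rw [norm_pow, ht, one_pow]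
  have h5 := norm_sub_one_sq h4
  rw [← h2, norm_mul, mul_pow] at h5
  unfold CRM.ck gk s2
  rw [re_zpow_natAbs ht, h1, ← hm]
  linarith

lemma key' {t : ℂ} (ht : ‖t‖ = 1) {j : ℤ} (hj : j % 2 = 0) :
    (s2 t : ℂ) * (gk j t : ℂ) = 1 - (ck j t : ℂ) := by
  rw [← Complex.ofReal_mul, ← key ht hj]
  push_cast
  rfl

/-- the identity for the Wick sums -/
lemma wick (a b c d : ℤ) (t : ℂ) (ht : ‖t‖ = 1) (hs : a + b + c + d = 0) :
    (s2 t : ℂ) * lk (fun j => (gk j t : ℂ)) a b c d = wt t a b c d - 3 * cl4 a b c d := by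
  unfold lk wt cl4
  by_cases hpar : (a - b) % 2 = 0 ∧ (a - c) % 2 = 0 ∧ (a - d) % 2 = 0
  · have k1 : (a + b) % 2 = 0 := by omega
    have k2 : (a + c) % 2 = 0 := by omega
    have k3 : (a + d) % 2 = 0 := by omega
    have s1 : (-1 : ℂ) ^ (b + d) = 1 := Even.neg_one_zpow (Int.even_iff.mpr (by omega))
    have s3 : (-1 : ℂ) ^ (c + d) = 1 := Even.neg_one_zpow (Int.even_iff.mpr (by omega))
    rw [if_pos hpar, if_pos hpar, if_pos k1, if_pos k2, if_pos k3, s1, s3]
    linear_combination -(key' ht k1) - (key' ht k2) - (key' ht k3)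
  · rw [if_neg hpar, if_neg hpar]
    by_cases k1 : (a + b) % 2 = 0
    · have k2 : ¬ (a + c) % 2 = 0 := by omega
      have k3 : ¬ (a + d) % 2 = 0 := by omega
      have s1 : (-1 : ℂ) ^ (b + d) = -1 := Odd.neg_one_zpow (Int.odd_iff.mpr (by omega))
      rw [if_pos k1, if_pos k1, if_neg k2, if_neg k3, s1]
      linear_combination key' ht k1
    · have s3 : (-1 : ℂ) ^ (c + d) = -1 := Odd.neg_one_zpow (Int.odd_iff.mpr (by omega))
      by_cases k2 : (a + c) % 2 = 0
      · have k3 : ¬ (a + d) % 2 = 0 := by omega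
        rw [if_neg k1, if_neg k1, if_pos k2, if_pos k2, if_neg k3, s3]
        linear_combination key' ht k2
      · have k3 : (a + d) % 2 = 0 := by omega
        rw [if_neg k1, if_neg k1, if_neg k2, if_neg k2, if_pos k3, s3]
        linear_combination key' ht k3

lemma sumJ_comb (k : Fin 4 → ℕ) (v : ∀ i, Fin (k i) → ℂ) (L L1 L2 : ℤ → ℤ → ℤ → ℤ → ℂ) (x y : ℂ)
    (h : ∀ a b c d : ℤ, a + b + c + d = 0 → x * L a b c d = L1 a b c d - y * L2 a b c d) :
    x * sumJ k v L = sumJ k v L1 - y * sumJ k v L2 := by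
  unfold sumJ
  rw [Finset.mul_sum, Finset.mul_sum, ← Finset.sum_sub_distrib]
  refine Finset.sum_congr rfl fun a _ => ?_
  by_cases h0 : ∑ i, sp k a i = 0
  · rw [if_pos h0, if_pos h0, if_pos h0]
    have h1 : sp k a 0 + sp k a 1 + sp k a 2 + sp k a 3 = 0 := by
      rw [← h0, Fin.sum_univ_four]
    linear_combination (∏ i, QJ.sc (v i) (a i) * cW (a i) (k i - a i)) * h _ _ _ _ h1
  · rw [if_neg h0, if_neg h0, if_neg h0]
    ring

lemma cont_gk (j : ℤ) : Continuous fun t : ℂ => (gk j t : ℂ) := by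
  unfold gk
  refine Complex.continuous_ofReal.comp (continuous_const.mul ?_)
  exact (continuous_finsetSum _ fun i _ => continuous_pow _).norm.pow 2

lemma cont_lk (a b c d : ℤ) : Continuous fun t : ℂ => lk (fun j => (gk j t : ℂ)) a b c d := by
  unfold lk
  split_ifs
  · exact (((cont_gk _).add (cont_gk _)).add (cont_gk _)).neg
  · exact cont_gk _
  · exact cont_gk _
  · exact cont_gk _

end QUO

/-- QUO -/
theorem t_QUO (hJid : StmtJid) : StmtQuo := by
  refine ⟨QUO.wick, fun k v => ?_⟩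
  have h1 : ∀ t : ℂ, ‖t‖ = 1 → (s2 t : ℂ) * quoJ k v t = sumJ k v (wt t) - 3 * sumJ k v cl4 :=
    fun t ht => QUO.sumJ_comb k v _ _ _ _ _ fun a b c d hs => QUO.wick a b c d t ht hs
  have h2 : sumJ k v (wt 1) = 3 * sumJ k v cl4 := by
    have h3 := h1 1 norm_one
    have h4 : s2 1 = 0 := by
      unfold s2
      norm_num
    rw [h4, Complex.ofReal_zero, zero_mul] at h3
    linear_combination -h3
  have h0 : ((crossJ k v 0 : ℝ) : ℂ) = 3 * sumJ k v cl4 := by
    rw [hJid k v 0, Complex.ofReal_zero, zero_mul, Complex.exp_zero, h2]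
  refine ⟨?_, ?_, ?_⟩
  · unfold quoJ sumJ
    refine continuous_finsetSum _ fun a _ => ?_
    split_ifs
    · exact continuous_const.mul (QUO.cont_lk _ _ _ _)
    · exact continuous_const
  · intro α
    rw [h1 _ (Complex.norm_exp_ofReal_mul_I α), Complex.ofReal_sub, hJid k v α, h0]
  · rw [Complex.ofReal_div, h0]
    push_cast
    ring

end

end CRN
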