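import Pool.Agent.CRN.LGF
import Pool.Agent.CRN.QUO

/-!
INQ: a lower bound for the fourth moments in terms of the crossing measure.
-/

open MeasureTheory Filter Topology Set
open UpperHalfPlane hiding I
open scoped ContDiff ENNReal

namespace CRN

open QE QE.NC QJ U3 CRM NFP

noncomputable section

namespace INQ

/-- the pairs of indices -/
def RR2 (K : ℕ) : Finset (ℕ × ℕ) := Finset.range K ×ˢ Finset.range K

/-- the pairs of pairs with the same sum -/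
def PK (K : ℕ) : Finset ((ℕ × ℕ) × (ℕ × ℕ)) :=
  (RR2 K ×ˢ RR2 K).filter fun x => x.1.1 + x.1.2 = x.2.1 + x.2.2

/-- the positive quadratic form -/
theorem quad (K : ℕ) (f : ℕ × ℕ → ℂ) : ∑ x ∈ PK K, f x.1 * (starRingEnd ℂ) (f x.2)
    = ((∑ s ∈ Finset.range (2 * K), ‖∑ p ∈ RR2 K, if p.1 + p.2 = s then f p else 0‖ ^ 2 : ℝ) : ℂ) := by
  rw [Complex.ofReal_sum]
  have h1 : ∀ s, ((‖∑ p ∈ RR2 K, if p.1 + p.2 = s then f p else 0‖ ^ 2 : ℝ) : ℂ)
      = ∑ p ∈ RR2 K, ∑ q ∈ RR2 K, (if p.1 + p.2 = s then f p else 0)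
        * (starRingEnd ℂ) (if q.1 + q.2 = s then f q else 0) := by
    intro s
    rw [← Complex.normSq_eq_norm_sq, ← Complex.mul_conj, map_sum, Finset.sum_mul_sum]
  simp only [h1]
  rw [Finset.sum_comm]
  unfold PK
  rw [Finset.sum_filter, Finset.sum_product]
  refine Finset.sum_congr rfl fun p hp => ?_
  rw [Finset.sum_comm]
  refine Finset.sum_congr rfl fun q _ => ?_
  have hp' : p.1 + p.2 ∈ Finset.range (2 * K) := by
    unfold RR2 at hp
    rw [Finset.mem_product, Finset.mem_range, Finset.mem_range] at hp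
    rw [Finset.mem_range]
    omega
  rw [Finset.sum_eq_single_of_mem _ hp']
  · rw [if_pos rfl]
    by_cases h : p.1 + p.2 = q.1 + q.2
    · rw [if_pos h, if_pos h.symm]
    · rw [if_neg h, if_neg (Ne.symm h), map_zero, mul_zero]
  · intro s _ hs
    rw [if_neg (Ne.symm hs), zero_mul]

/-- the geometric sums -/
theorem geo {w : ℂ} (hw : ‖w‖ = 1) (h1 : w ≠ 1) (l u : ℕ) :
    ‖∑ a ∈ Finset.Ico l u, w ^ a‖ ≤ 2 / ‖w - 1‖ := by
  have h0 : 0 < ‖w - 1‖ := norm_pos_iff.2 (sub_ne_zero.2 h1)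
  rcases le_or_gt l u with h | h
  · rw [geom_sum_Ico h1 h, norm_div]
    refine div_le_div_of_nonneg_right ?_ h0.le
    refine (norm_sub_le _ _).trans ?_
    rw [norm_pow, norm_pow, hw, one_pow, one_pow]
    norm_num
  · rw [Finset.Ico_eq_empty (not_lt.2 h.le), Finset.sum_empty, norm_zero]
    positivity

/-- the sum over `PK` as an iterated sum -/
theorem sum_PK (K : ℕ) (F : ℕ → ℕ → ℕ → ℕ → ℂ) : ∑ x ∈ PK K, F x.1.1 x.1.2 x.2.1 x.2.2
    = ∑ a ∈ Finset.range K, ∑ b ∈ Finset.range K, ∑ c ∈ Finset.range K,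
      if c ≤ a + b ∧ a + b < K + c then F a b c (a + b - c) else 0 := by
  unfold PK RR2
  rw [Finset.sum_filter, Finset.sum_product, Finset.sum_product]
  refine Finset.sum_congr rfl fun a _ => Finset.sum_congr rfl fun b _ => ?_
  rw [Finset.sum_product]
  refine Finset.sum_congr rfl fun c _ => ?_
  dsimp only
  by_cases h : c ≤ a + b ∧ a + b < K + c
  · rw [if_pos h, Finset.sum_eq_single_of_mem (a + b - c) (Finset.mem_range.2 (by omega))]
    · rw [if_pos (by omega)]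
    · intro d _ hd
      rw [if_neg (by omega)]
  · rw [if_neg h]
    refine Finset.sum_eq_zero fun d hd => ?_
    rw [Finset.mem_range] at hd
    rw [if_neg (by omega)]

theorem bd1 {w : ℂ} (hw : ‖w‖ = 1) (h1 : w ≠ 1) (K : ℕ) (g : ℕ → ℕ → ℂ)
    (hg : ∀ b c, ‖g b c‖ ≤ 1) :
    ‖∑ a ∈ Finset.range K, ∑ b ∈ Finset.range K, ∑ c ∈ Finset.range K,
      if c ≤ a + b ∧ a + b < K + c then w ^ a * g b c else 0‖ ≤ (K : ℝ) ^ 2 * (2 / ‖w - 1‖) := by
  have h0 : 0 < ‖w - 1‖ := norm_pos_iff.2 (sub_ne_zero.2 h1)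
  rw [Finset.sum_comm]
  have e : ∀ b ∈ Finset.range K, ‖∑ a ∈ Finset.range K, ∑ c ∈ Finset.range K,
      if c ≤ a + b ∧ a + b < K + c then w ^ a * g b c else 0‖ ≤ (K : ℝ) * (2 / ‖w - 1‖) := by
    intro b hb
    rw [Finset.mem_range] at hb
    rw [Finset.sum_comm]
    refine (norm_sum_le _ _).trans ?_
    have e2 : ∀ c ∈ Finset.range K, ‖∑ a ∈ Finset.range K,
        if c ≤ a + b ∧ a + b < K + c then w ^ a * g b c else 0‖ ≤ 2 / ‖w - 1‖ := by
      intro c _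
      rw [← Finset.sum_filter]
      have e3 : (Finset.range K).filter (fun a => c ≤ a + b ∧ a + b < K + c)
          = Finset.Ico (c - b) (min K (K + c - b)) := by
        ext a
        rw [Finset.mem_filter, Finset.mem_range, Finset.mem_Ico]
        omega
      rw [e3, ← Finset.sum_mul, norm_mul]
      calc _ ≤ 2 / ‖w - 1‖ * 1 := mul_le_mul (geo hw h1 _ _) (hg _ _) (norm_nonneg _) (by positivity)
        _ = _ := mul_one _
    refine (Finset.sum_le_card_nsmul _ _ _ e2).trans (le_of_eq ?_)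
    rw [Finset.card_range, nsmul_eq_mul]
  refine (norm_sum_le _ _).trans ((Finset.sum_le_card_nsmul _ _ _ e).trans (le_of_eq ?_))
  rw [Finset.card_range, nsmul_eq_mul]
  ring

theorem bd2 {w : ℂ} (hw : ‖w‖ = 1) (h1 : w ≠ 1) (K : ℕ) (g : ℕ → ℕ → ℂ)
    (hg : ∀ a b, ‖g a b‖ ≤ 1) :
    ‖∑ a ∈ Finset.range K, ∑ b ∈ Finset.range K, ∑ c ∈ Finset.range K,
      if c ≤ a + b ∧ a + b < K + c then w ^ c * g a b else 0‖ ≤ (K : ℝ) ^ 2 * (2 / ‖w - 1‖) := by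
  have h0 : 0 < ‖w - 1‖ := norm_pos_iff.2 (sub_ne_zero.2 h1)
  have e : ∀ a ∈ Finset.range K, ‖∑ b ∈ Finset.range K, ∑ c ∈ Finset.range K,
      if c ≤ a + b ∧ a + b < K + c then w ^ c * g a b else 0‖ ≤ (K : ℝ) * (2 / ‖w - 1‖) := by
    intro a _
    refine (norm_sum_le _ _).trans ?_
    have e2 : ∀ b ∈ Finset.range K, ‖∑ c ∈ Finset.range K,
        if c ≤ a + b ∧ a + b < K + c then w ^ c * g a b else 0‖ ≤ 2 / ‖w - 1‖ := by
      intro b _
      rw [← Finset.sum_filter]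
      have e3 : (Finset.range K).filter (fun c => c ≤ a + b ∧ a + b < K + c)
          = Finset.Ico (a + b + 1 - K) (min K (a + b + 1)) := by
        ext c
        rw [Finset.mem_filter, Finset.mem_range, Finset.mem_Ico]
        omega
      rw [e3, ← Finset.sum_mul, norm_mul]
      calc _ ≤ 2 / ‖w - 1‖ * 1 := mul_le_mul (geo hw h1 _ _) (hg _ _) (norm_nonneg _) (by positivity)
        _ = _ := mul_one _
    refine (Finset.sum_le_card_nsmul _ _ _ e2).trans (le_of_eq ?_)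
    rw [Finset.card_range, nsmul_eq_mul]
  refine (norm_sum_le _ _).trans ((Finset.sum_le_card_nsmul _ _ _ e).trans (le_of_eq ?_))
  rw [Finset.card_range, nsmul_eq_mul]
  ring

/-- the three exponential sums -/
theorem exps {t : ℂ} (ht : ‖t‖ = 1) (h1 : t ^ 2 ≠ 1) (K : ℕ) :
    ‖∑ x ∈ PK K, (t ^ (2 * (x.1.1 : ℤ) + 2 * (x.1.2 : ℤ)) + t ^ (2 * (x.1.1 : ℤ) - 2 * (x.2.1 : ℤ))
      + t ^ (2 * (x.1.1 : ℤ) - 2 * (x.2.2 : ℤ)))‖ ≤ 3 * ((K : ℝ) ^ 2 * (2 / ‖t ^ 2 - 1‖)) := by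
  have hw : ‖t ^ 2‖ = 1 := by rw [norm_pow, ht, one_pow]
  have ht0 : t ≠ 0 := by
    intro h; rw [h, norm_zero] at ht; exact zero_ne_one ht
  have hn : ∀ n : ℤ, ‖t ^ n‖ ≤ 1 := fun n => by rw [norm_zpow, ht, one_zpow]
  rw [Finset.sum_add_distrib, Finset.sum_add_distrib]
  have a1 := sum_PK K fun a b _ _ => t ^ (2 * (a : ℤ) + 2 * (b : ℤ))
  have a2 := sum_PK K fun a _ c _ => t ^ (2 * (a : ℤ) - 2 * (c : ℤ))
  have a3 := sum_PK K fun a _ _ d => t ^ (2 * (a : ℤ) - 2 * (d : ℤ))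
  have b1 := bd1 hw h1 K (fun b _ => t ^ (2 * (b : ℤ))) fun b c => hn _
  have b2 := bd1 hw h1 K (fun _ c => t ^ (-(2 * (c : ℤ)))) fun b c => hn _
  have b3 := bd2 hw h1 K (fun _ b => t ^ (-(2 * (b : ℤ)))) fun b c => hn _
  have c1 : ∑ x ∈ PK K, t ^ (2 * (x.1.1 : ℤ) + 2 * (x.1.2 : ℤ))
      = ∑ a ∈ Finset.range K, ∑ b ∈ Finset.range K, ∑ c ∈ Finset.range K,
      if c ≤ a + b ∧ a + b < K + c then (t ^ 2) ^ a * t ^ (2 * (b : ℤ)) else 0 := by
    rw [a1]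
    refine Finset.sum_congr rfl fun a _ => Finset.sum_congr rfl fun b _ =>
      Finset.sum_congr rfl fun c _ => ?_
    split_ifs with h
    · rw [zpow_add₀ ht0, ← pow_mul, ← zpow_natCast]
      push_cast
      rfl
    · rfl
  have c2 : ∑ x ∈ PK K, t ^ (2 * (x.1.1 : ℤ) - 2 * (x.2.1 : ℤ))
      = ∑ a ∈ Finset.range K, ∑ b ∈ Finset.range K, ∑ c ∈ Finset.range K,
      if c ≤ a + b ∧ a + b < K + c then (t ^ 2) ^ a * t ^ (-(2 * (c : ℤ))) else 0 := by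
    rw [a2]
    refine Finset.sum_congr rfl fun a _ => Finset.sum_congr rfl fun b _ =>
      Finset.sum_congr rfl fun c _ => ?_
    split_ifs with h
    · rw [sub_eq_add_neg, zpow_add₀ ht0, ← pow_mul, ← zpow_natCast]
      push_cast
      rfl
    · rfl
  have c3 : ∑ x ∈ PK K, t ^ (2 * (x.1.1 : ℤ) - 2 * (x.2.2 : ℤ))
      = ∑ a ∈ Finset.range K, ∑ b ∈ Finset.range K, ∑ c ∈ Finset.range K,
      if c ≤ a + b ∧ a + b < K + c then (t ^ 2) ^ c * t ^ (-(2 * (b : ℤ))) else 0 := by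
    rw [a3]
    refine Finset.sum_congr rfl fun a _ => Finset.sum_congr rfl fun b _ =>
      Finset.sum_congr rfl fun c _ => ?_
    split_ifs with h
    · have e : 2 * (a : ℤ) - 2 * ((a + b - c : ℕ) : ℤ) = 2 * (c : ℤ) + -(2 * (b : ℤ)) := by
        rw [Nat.cast_sub h.1]
        push_cast
        ring
      rw [e, zpow_add₀ ht0, ← pow_mul, ← zpow_natCast]
      push_cast
      rfl
    · rfl
  rw [c1, c2, c3]
  refine (norm_add₃_le).trans ?_
  linarith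

/-- the number of the indices -/
theorem card_PK (m : ℕ) : m ^ 3 ≤ (PK (3 * m)).card := by
  have h : (Finset.range m ×ˢ (Finset.range m ×ˢ Finset.range m)).card ≤ (PK (3 * m)).card := by
    refine Finset.card_le_card_of_injOn
      (fun x => ((m + x.1, x.2.1), (x.2.2, m + x.1 + x.2.1 - x.2.2))) ?_ ?_
    · intro x hx
      simp only [Finset.coe_product, Set.mem_prod, Finset.mem_coe, Finset.mem_range] at hx
      simp only [PK, RR2, Finset.coe_filter, Set.mem_ofPred_eq, Finset.mem_product,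
        Finset.mem_range]
      omega
    · intro x hx y hy hxy
      simp only [Prod.mk.injEq] at hxy
      obtain ⟨⟨h1, h2⟩, h3, -⟩ := hxy
      exact Prod.ext (by omega) (Prod.ext h2 h3)
  refine le_trans (le_of_eq ?_) h
  rw [Finset.card_product, Finset.card_product, Finset.card_range]
  ring

/-- the kernel -/
def GK (K : ℕ) (t : ℂ) : ℝ := (((PK K).card : ℝ))⁻¹ * ∑ x ∈ PK K,
  (gk (2 * (x.1.1 : ℤ) + 2 * (x.1.2 : ℤ)) t + gk (2 * (x.1.1 : ℤ) - 2 * (x.2.1 : ℤ)) t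
    + gk (2 * (x.1.1 : ℤ) - 2 * (x.2.2 : ℤ)) t)

lemma gk_nonneg (j : ℤ) (t : ℂ) : 0 ≤ gk j t := by
  unfold gk
  positivity

lemma GK_nonneg (K : ℕ) (t : ℂ) : 0 ≤ GK K t := by
  unfold GK
  refine mul_nonneg (by positivity) (Finset.sum_nonneg fun x _ => ?_)
  exact add_nonneg (add_nonneg (gk_nonneg _ _) (gk_nonneg _ _)) (gk_nonneg _ _)

lemma GK_cont (K : ℕ) : Continuous (GK K) := by
  unfold GK
  refine continuous_const.mul (continuous_finsetSum _ fun x _ => ?_)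
  exact ((LGF.cont_gk _).add (LGF.cont_gk _)).add (LGF.cont_gk _)

/-- the limit of the kernel -/
theorem GK_lim {t : ℂ} (ht : ‖t‖ = 1) (h1 : t ^ 2 ≠ 1) :
    Tendsto (fun m : ℕ => GK (3 * m) t) atTop (𝓝 (3 / s2 t)) := by
  have h0 : 0 < ‖t ^ 2 - 1‖ := norm_pos_iff.2 (sub_ne_zero.2 h1)
  have hs : 0 < s2 t := by
    unfold s2
    positivity
  have key : ∀ m : ℕ, 1 ≤ m → |s2 t * GK (3 * m) t - 3| ≤ (54 / ‖t ^ 2 - 1‖) / m := by
    intro m hm
    have hM : (0 : ℝ) < ((PK (3 * m)).card : ℝ) := by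
      have := card_PK m
      have h2 : 0 < m ^ 3 := by positivity
      exact_mod_cast lt_of_lt_of_le h2 this
    have hM3 : (m : ℝ) ^ 3 ≤ ((PK (3 * m)).card : ℝ) := by exact_mod_cast card_PK m
    have e1 : s2 t * GK (3 * m) t - 3 = -((((PK (3 * m)).card : ℝ))⁻¹ *
        (∑ x ∈ PK (3 * m), (t ^ (2 * (x.1.1 : ℤ) + 2 * (x.1.2 : ℤ))
          + t ^ (2 * (x.1.1 : ℤ) - 2 * (x.2.1 : ℤ))
          + t ^ (2 * (x.1.1 : ℤ) - 2 * (x.2.2 : ℤ)))).re) := by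
      have e2 : ∀ x : (ℕ × ℕ) × (ℕ × ℕ),
          s2 t * (gk (2 * (x.1.1 : ℤ) + 2 * (x.1.2 : ℤ)) t + gk (2 * (x.1.1 : ℤ) - 2 * (x.2.1 : ℤ)) t
            + gk (2 * (x.1.1 : ℤ) - 2 * (x.2.2 : ℤ)) t)
          = 3 - (t ^ (2 * (x.1.1 : ℤ) + 2 * (x.1.2 : ℤ))
          + t ^ (2 * (x.1.1 : ℤ) - 2 * (x.2.1 : ℤ))
          + t ^ (2 * (x.1.1 : ℤ) - 2 * (x.2.2 : ℤ))).re := by
        intro x
        have k1 := QUO.key ht (j := 2 * (x.1.1 : ℤ) + 2 * (x.1.2 : ℤ)) (by omega)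
        have k2 := QUO.key ht (j := 2 * (x.1.1 : ℤ) - 2 * (x.2.1 : ℤ)) (by omega)
        have k3 := QUO.key ht (j := 2 * (x.1.1 : ℤ) - 2 * (x.2.2 : ℤ)) (by omega)
        unfold CRM.ck at k1 k2 k3
        rw [Complex.add_re, Complex.add_re]
        linarith
      unfold GK
      rw [← mul_assoc, mul_comm (s2 t), mul_assoc, Finset.mul_sum]
      simp only [e2]
      rw [Finset.sum_sub_distrib, Finset.sum_const, nsmul_eq_mul, mul_sub, ← mul_assoc,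
        inv_mul_cancel₀ hM.ne', one_mul, Complex.re_sum]
      ring
    rw [e1, abs_neg, abs_mul, abs_of_pos (inv_pos.2 hM)]
    have e3 := (Complex.abs_re_le_norm _).trans (exps ht h1 (3 * m))
    have hm0 : (0 : ℝ) < m := by exact_mod_cast hm
    calc _ ≤ (((PK (3 * m)).card : ℝ))⁻¹ * (3 * ((((3 * m : ℕ) : ℝ)) ^ 2 * (2 / ‖t ^ 2 - 1‖))) :=
          mul_le_mul_of_nonneg_left e3 (inv_pos.2 hM).le
      _ ≤ ((m : ℝ) ^ 3)⁻¹ * (3 * ((((3 * m : ℕ) : ℝ)) ^ 2 * (2 / ‖t ^ 2 - 1‖))) := by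
          refine mul_le_mul_of_nonneg_right (inv_anti₀ (by positivity) hM3) (by positivity)
      _ = (54 / ‖t ^ 2 - 1‖) / m := by
          push_cast
          field_simp
          ring
  have hlim : Tendsto (fun m : ℕ => s2 t * GK (3 * m) t) atTop (𝓝 3) := by
    rw [tendsto_iff_norm_sub_tendsto_zero]
    refine squeeze_zero' (Eventually.of_forall fun _ => norm_nonneg _) ?_
      (tendsto_const_div_atTop_nhds_zero_nat (54 / ‖t ^ 2 - 1‖))
    filter_upwards [eventually_ge_atTop 1] with m hm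
    rw [Real.norm_eq_abs]
    exact key m hm
  have h3 := hlim.const_mul (s2 t)⁻¹
  rw [← div_eq_inv_mul] at h3
  refine h3.congr fun m => ?_
  rw [← mul_assoc, inv_mul_cancel₀ hs.ne', one_mul]

variable {V : Set ℂ} {σ : ℂ → ℝ} {h : ℕ → ℝ} {φ : ℕ → ℂ → ℂ}

lemma conj_even (L : LocB V σ h φ) (j : ℕ) (n : ℕ) (z : ℂ) :
    (starRingEnd ℂ) (E σ h φ (2 * (j : ℤ)) n z) = E σ h φ (-(2 * (j : ℤ))) n z := by
  rw [WGA.conj_E L, Even.neg_one_zpow (even_two_mul _), one_mul]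

lemma smE (L : LocB V σ h φ) (j : ℤ) (n : ℕ) : Continuous (E σ h φ j n) :=
  ((stmtJetC V σ h φ L j).1.smooth n).continuous

/-- the sum of the four-jet integrals is nonnegative -/
theorem pos (L : LocB V σ h φ) {ψ : ℂ → ℝ} (h0 : ∀ z, 0 ≤ ψ z) (hT : Test V fun z => (ψ z : ℂ))
    (K n : ℕ) : ∃ r : ℝ, 0 ≤ r ∧ ∑ x ∈ PK K, E4 σ h φ (fun z => (ψ z : ℂ)) (2 * (x.1.1 : ℤ))
      (2 * (x.1.2 : ℤ)) (-(2 * (x.2.1 : ℤ))) (-(2 * (x.2.2 : ℤ))) n = (r : ℂ) := by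
  refine ⟨∫ z, ψ z * ∑ s ∈ Finset.range (2 * K), ‖∑ p ∈ RR2 K, if p.1 + p.2 = s then
    E σ h φ (2 * (p.1 : ℤ)) n z * E σ h φ (2 * (p.2 : ℤ)) n z else 0‖ ^ 2, ?_, ?_⟩
  · exact integral_nonneg fun z => mul_nonneg (h0 z) (Finset.sum_nonneg fun s _ => by positivity)
  · unfold E4
    rw [← integral_finsetSum]
    · refine (integral_congr_ae (Eventually.of_forall fun z => ?_)).trans integral_ofReal
      change _ = (((ψ z * ∑ s ∈ Finset.range (2 * K), ‖∑ p ∈ RR2 K, if p.1 + p.2 = s then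
        E σ h φ (2 * (p.1 : ℤ)) n z * E σ h φ (2 * (p.2 : ℤ)) n z else 0‖ ^ 2 : ℝ)) : ℂ)
      rw [Complex.ofReal_mul, ← quad K fun p =>
        E σ h φ (2 * (p.1 : ℤ)) n z * E σ h φ (2 * (p.2 : ℤ)) n z, Finset.mul_sum]
      refine Finset.sum_congr rfl fun x _ => ?_
      beta_reduce
      rw [map_mul, conj_even L, conj_even L]
      ring
    · intro x _
      exact hT.integrable_mul L.op ((((smE L _ n).mul (smE L _ n)).mul (smE L _ n)).mul
        (smE L _ n)).continuousOn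

lemma facR {ρ : ℍ → ℝ} (hρ : ContDiffOn ℝ ∞ (fun w : ℂ => ρ (ofComplex w)) {w | 0 < w.im})
    {ψ : ℂ → ℝ} (hψ : Continuous ψ) (hψc : HasCompactSupport ψ)
    (hψs : tsupport ψ ⊆ {w | 0 < w.im}) {ϖ : Measure (ℍ × S1)}
    (hfin : ∀ K : Set ℍ, IsCompact K → ϖ (K ×ˢ Set.univ) < ⊤) {G : ℂ → ℝ} (hG : Continuous G) :
    Integrable (fun p : ℍ × S1 => ψ p.1 * (gr ρ p.1)⁻¹ * G p.2) ϖ := by
  have h1 := LGF.fac hρ hψ hψc hψs
  have h2 := (LGF.integrable_fac hfin h1.1 h1.2 (G := fun t => (G t : ℂ))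
    (Complex.continuous_ofReal.comp hG)).re
  refine h2.congr (Eventually.of_forall fun p => ?_)
  change ((ψ p.1 : ℂ) * (((gr ρ p.1)⁻¹ : ℝ) : ℂ) * (G p.2 : ℂ)).re = _
  rw [← Complex.ofReal_mul, ← Complex.ofReal_mul, Complex.ofReal_re]

end INQ

/-- INQ: lower bound for the fourth moments (note that the integrand is zero where `t ^ 2 = 1`) -/
def StmtInq : Prop :=
  ∀ (ρ : ℍ → ℝ) (φ : ℕ → ℍ → ℝ) (m : ℕ → ℝ) (ϖ : Measure (ℍ × S1)),
    ContDiffOn ℝ ∞ (fun w : ℂ => ρ (ofComplex w)) {w | 0 < w.im} →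
    LocU UH (gr ρ) (fun n => 1 / m n) (fun n z => (φ n (ofComplex z) : ℂ)) →
    LinkG ρ (fun n => 1 / m n) (fun n z => (φ n (ofComplex z) : ℂ)) ϖ →
    ∀ ψ : ℂ → ℝ, ContDiff ℝ ∞ ψ → HasCompactSupport ψ → tsupport ψ ⊆ {w | 0 < w.im} →
    (∀ z, 0 ≤ ψ z) →
    ∫⁻ p : ℍ × S1, ENNReal.ofReal (ψ p.1 * (gr ρ p.1)⁻¹ * (3 / s2 p.2)) ∂ϖ
      ≤ liminf (fun n => ENNReal.ofReal (∫ z, ψ z * φ n (ofComplex z) ^ 4)) atTop

open INQ in
/-- INQ -/
theorem t_INQ : StmtInq := by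
  intro ρ φ m ϖ hρ H hL ψ hψ hψc hψs hψ0
  have hT := LOCG.test_ofReal hψ hψc hψs
  have hU : IsOpen UH := isOpen_lt continuous_const Complex.continuous_im
  obtain ⟨V, F, σ, φ', hKV, -, -, -, hA⟩ := stmtLcz UH (gr ρ) _ _ hU (LWF.gr_smooth hρ)
    (LWF.gr_pos' ρ) H (tsupport fun z => (ψ z : ℂ)) hT.supp hT.sub
  have L := hA.loc
  have hTV : Test V fun z => (ψ z : ℂ) := ⟨hT.smooth, hT.supp, hKV⟩
  set e : ℕ → ℝ := fun n => ∫ z, ψ z * φ n (ofComplex z) ^ 4 with he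
  set h : ℕ → ℝ := fun n => 1 / m n with hh
  have e0 : ∀ n, E4 σ h φ' (fun z => (ψ z : ℂ)) 0 0 0 0 n = (e n : ℂ) := by
    intro n
    unfold E4
    rw [he]
    have e4 : (∫ z, ((ψ z : ℂ)) * (fun z => E σ h φ' 0 n z * E σ h φ' 0 n z * E σ h φ' 0 n z *
        E σ h φ' 0 n z) z) = ∫ z, ((ψ z : ℂ)) *
        (fun z : ℂ => (((φ n (ofComplex z)) ^ 4 : ℝ) : ℂ)) z := by
      refine LW.int_congr hTV fun z hz => ?_
      have e3 : E σ h φ' 0 n z = φ' n z := rfl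
      simp only [e3, hA.eφ n z hz]
      push_cast
      ring
    refine Eq.trans ?_ (e4.trans ?_)
    · refine integral_congr_ae (Eventually.of_forall fun z => ?_)
      simp only []
      try ring
    · refine (integral_congr_ae (Eventually.of_forall fun z => ?_)).trans integral_ofReal
      simp
  -- the bound for each `K`
  have key : ∀ K : ℕ, 0 < K →
      ENNReal.ofReal (∫ p : ℍ × S1, ψ p.1 * (gr ρ p.1)⁻¹ * GK K p.2 ∂ϖ)
        ≤ liminf (fun n => ENNReal.ofReal (e n)) atTop := by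
    intro K hK
    have hM : (0 : ℝ) < ((PK K).card : ℝ) := by
      have : 0 < (PK K).card := Finset.card_pos.2 ⟨((0, 0), (0, 0)), by
        unfold PK RR2
        simp [hK]⟩
      exact_mod_cast this
    choose r hr0 hr using fun n => pos L hψ0 hTV K n
    have h1 : Tendsto (fun n => ∑ x ∈ PK K, (E4 σ h φ' (fun z => (ψ z : ℂ)) (2 * (x.1.1 : ℤ))
        (2 * (x.1.2 : ℤ)) (-(2 * (x.2.1 : ℤ))) (-(2 * (x.2.2 : ℤ))) n
        - E4 σ h φ' (fun z => (ψ z : ℂ)) 0 0 0 0 n)) atTop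
        (𝓝 (∑ x ∈ PK K, ((∫ p : ℍ × S1, ψ p.1 * (gr ρ p.1)⁻¹ *
          (-(gk (2 * (x.1.1 : ℤ) + 2 * (x.1.2 : ℤ)) p.2
            + gk (2 * (x.1.1 : ℤ) - 2 * (x.2.1 : ℤ)) p.2
            + gk (2 * (x.1.1 : ℤ) - 2 * (x.2.2 : ℤ)) p.2)) ∂ϖ : ℝ) : ℂ))) := by
      refine tendsto_finsetSum _ fun x hx => ?_
      have hs : 2 * (x.1.1 : ℤ) + 2 * (x.1.2 : ℤ) + -(2 * (x.2.1 : ℤ)) + -(2 * (x.2.2 : ℤ)) = 0 := by
        unfold PK at hx
        rw [Finset.mem_filter] at hx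
        omega
      have h2 := hL.lim V σ φ' hA _ hTV _ _ _ _ hs
      have hcl : cl4 (2 * (x.1.1 : ℤ)) (2 * (x.1.2 : ℤ)) (-(2 * (x.2.1 : ℤ)))
          (-(2 * (x.2.2 : ℤ))) = 1 := by
        unfold cl4
        rw [if_pos ⟨by omega, by omega, by omega⟩]
      rw [hcl] at h2
      simp only [one_mul] at h2
      refine h2.trans (le_of_eq ?_)
      congr 1
      refine (integral_congr_ae (Eventually.of_forall fun p => ?_)).trans integral_ofReal
      change _ = (((ψ p.1 * (gr ρ p.1)⁻¹ * (-(gk (2 * (x.1.1 : ℤ) + 2 * (x.1.2 : ℤ)) p.2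
            + gk (2 * (x.1.1 : ℤ) - 2 * (x.2.1 : ℤ)) p.2
            + gk (2 * (x.1.1 : ℤ) - 2 * (x.2.2 : ℤ)) p.2)) : ℝ)) : ℂ)
      unfold lk
      rw [if_pos ⟨by omega, by omega, by omega⟩, ← sub_eq_add_neg, ← sub_eq_add_neg]
      push_cast
      ring
    have hint : ∀ j : ℤ, Integrable (fun p : ℍ × S1 => ψ p.1 * (gr ρ p.1)⁻¹ * gk j p.2) ϖ := fun j =>
      facR hρ hψ.continuous hψc hψs hL.fin (LGF.cont_gk j)
    have h3 : ∑ x ∈ PK K, ((∫ p : ℍ × S1, ψ p.1 * (gr ρ p.1)⁻¹ *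
          (-(gk (2 * (x.1.1 : ℤ) + 2 * (x.1.2 : ℤ)) p.2
            + gk (2 * (x.1.1 : ℤ) - 2 * (x.2.1 : ℤ)) p.2
            + gk (2 * (x.1.1 : ℤ) - 2 * (x.2.2 : ℤ)) p.2)) ∂ϖ : ℝ) : ℂ)
        = ((-((PK K).card * ∫ p : ℍ × S1, ψ p.1 * (gr ρ p.1)⁻¹ * GK K p.2 ∂ϖ) : ℝ) : ℂ) := by
      rw [← Complex.ofReal_sum]
      congr 1
      rw [← integral_finsetSum, ← integral_const_mul, ← integral_neg]
      · refine integral_congr_ae (Eventually.of_forall fun p => ?_)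
        beta_reduce
        unfold GK
        have hM' : ((PK K).card : ℝ) ≠ 0 := hM.ne'
        rw [← Finset.mul_sum, Finset.sum_neg_distrib]
        field_simp
      · intro x _
        have h4 := ((hint (2 * (x.1.1 : ℤ) + 2 * (x.1.2 : ℤ))).add
          (hint (2 * (x.1.1 : ℤ) - 2 * (x.2.1 : ℤ)))).add (hint (2 * (x.1.1 : ℤ) - 2 * (x.2.2 : ℤ)))
        refine h4.neg.congr (Eventually.of_forall fun p => ?_)
        simp only [Pi.neg_apply, Pi.add_apply]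
        ring
    rw [h3] at h1
    have h5 : Tendsto (fun n => (((r n - (PK K).card * e n : ℝ)) : ℂ)) atTop
        (𝓝 ((-((PK K).card * ∫ p : ℍ × S1, ψ p.1 * (gr ρ p.1)⁻¹ * GK K p.2 ∂ϖ) : ℝ) : ℂ)) := by
      refine h1.congr fun n => ?_
      rw [Finset.sum_sub_distrib, hr n, Finset.sum_const, e0 n, nsmul_eq_mul]
      push_cast
      ring
    have h6 := LOCG.tendsto_real h5
    have h7 : Tendsto (fun n => e n - (((PK K).card : ℝ))⁻¹ * r n) atTop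
        (𝓝 (∫ p : ℍ × S1, ψ p.1 * (gr ρ p.1)⁻¹ * GK K p.2 ∂ϖ)) := by
      have h8 := h6.const_mul (-(((PK K).card : ℝ))⁻¹)
      have hM' : ((PK K).card : ℝ) ≠ 0 := hM.ne'
      have e5 : -(((PK K).card : ℝ))⁻¹ * -((PK K).card * ∫ p : ℍ × S1,
          ψ p.1 * (gr ρ p.1)⁻¹ * GK K p.2 ∂ϖ)
          = ∫ p : ℍ × S1, ψ p.1 * (gr ρ p.1)⁻¹ * GK K p.2 ∂ϖ := by
        field_simp
      rw [e5] at h8
      refine h8.congr fun n => ?_
      field_simp
      ring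
    have h9 : Tendsto (fun n => ENNReal.ofReal (e n - (((PK K).card : ℝ))⁻¹ * r n)) atTop
        (𝓝 (ENNReal.ofReal (∫ p : ℍ × S1, ψ p.1 * (gr ρ p.1)⁻¹ * GK K p.2 ∂ϖ))) :=
      (ENNReal.continuous_ofReal.tendsto _).comp h7
    rw [← h9.liminf_eq]
    refine liminf_le_liminf (Eventually.of_forall fun n => ?_)
    refine ENNReal.ofReal_le_ofReal ?_
    have := mul_nonneg (inv_nonneg.2 hM.le) (hr0 n)
    linarith
  -- Fatou
  have hmeas : ∀ K : ℕ, Measurable fun p : ℍ × S1 =>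
      ENNReal.ofReal (ψ p.1 * (gr ρ p.1)⁻¹ * GK K p.2) := by
    intro K
    refine ENNReal.measurable_ofReal.comp (Continuous.measurable ?_)
    exact (((hψ.continuous.comp continuous_coe).comp continuous_fst).mul
      (((LGF.cont_gr hρ).inv₀ (LGF.gr_ne ρ)).comp continuous_fst)).mul
      ((GK_cont K).comp (continuous_subtype_val.comp continuous_snd))
  have hnn : ∀ p : ℍ × S1, 0 ≤ ψ p.1 * (gr ρ p.1)⁻¹ := fun p =>
    mul_nonneg (hψ0 _) (inv_nonneg.2 (LWF.gr_pos' ρ _ p.1.im_pos).le)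
  calc ∫⁻ p : ℍ × S1, ENNReal.ofReal (ψ p.1 * (gr ρ p.1)⁻¹ * (3 / s2 p.2)) ∂ϖ
      ≤ ∫⁻ p : ℍ × S1, liminf (fun m : ℕ => ENNReal.ofReal
          (ψ p.1 * (gr ρ p.1)⁻¹ * GK (3 * (m + 1)) p.2)) atTop ∂ϖ := by
        refine lintegral_mono fun p => ?_
        have ht : ‖(p.2 : ℂ)‖ = 1 := by
          have := p.2.2
          rwa [mem_sphere_zero_iff_norm] at this
        by_cases h1 : (p.2 : ℂ) ^ 2 = 1
        · have hs : s2 (p.2 : ℂ) = 0 := by
            unfold s2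
            rw [h1]
            simp
          rw [hs, div_zero, mul_zero, ENNReal.ofReal_zero]
          exact bot_le
        · have h2 := ((GK_lim ht h1).comp (tendsto_add_atTop_nat 1)).const_mul
            (ψ p.1 * (gr ρ p.1)⁻¹)
          have h3 := ((ENNReal.continuous_ofReal.tendsto _).comp h2).liminf_eq
          exact h3.symm.le
    _ ≤ liminf (fun m : ℕ => ∫⁻ p : ℍ × S1, ENNReal.ofReal
          (ψ p.1 * (gr ρ p.1)⁻¹ * GK (3 * (m + 1)) p.2) ∂ϖ) atTop :=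
        lintegral_liminf_le fun m => hmeas _
    _ ≤ liminf (fun _ : ℕ => liminf (fun n => ENNReal.ofReal (e n)) atTop) atTop := by
        refine liminf_le_liminf (Eventually.of_forall fun m => ?_)
        have h1 := key (3 * (m + 1)) (by omega)
        rw [ofReal_integral_eq_lintegral_ofReal (facR hρ hψ.continuous hψc hψs hL.fin (GK_cont _))
          (Eventually.of_forall fun p => mul_nonneg (hnn p) (GK_nonneg _ _))] at h1
        exact h1
    _ = _ := by rw [liminf_const]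

end

end CRN
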