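import Pool.Agent.CRN.Stmts

/-!
PTN: a partition of unity.
-/

open MeasureTheory Filter Topology Set MatrixGroups
open UpperHalfPlane hiding I
open scoped ContDiff

namespace CRN

open QE QE.NC QJ U3 CRM NFP

noncomputable section

namespace PTN

variable {Γ : Subgroup SL(2, ℝ)} {ρ : ℍ → ℝ} {D : Set ℍ}

open QJ.TEST QE.Surf in
/-- a partition of unity which computes the integrals over `D` of the nonnegative invariant
functions -/
lemma exists_pou [Countable Γ] (hD : IsFundamentalDomain Γ D (volume : Measure ℍ))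
    (hDm : MeasurableSet D) (hK : ∃ K : Set ℍ, IsCompact K ∧ ∀ z, ∃ γ ∈ Γ, γ • z ∈ K)
    (hρ : Continuous ρ) (hρΓ : ∀ γ ∈ Γ, ∀ z, ρ (γ • z) = ρ z) :
    ∃ ψ : ℂ → ℝ, ContDiff ℝ ∞ ψ ∧ HasCompactSupport ψ ∧ tsupport ψ ⊆ {w | 0 < w.im} ∧
      (∀ w, 0 ≤ ψ w) ∧ (∀ z : ℍ, HasSum (fun γ : Γ => ψ ((γ • z : ℍ) : ℂ)) 1) ∧
      Continuous (fun w => ψ w * gr ρ w) ∧
      ∀ f : ℍ → ℝ, Continuous f → (∀ z, 0 ≤ f z) →
        (∀ γ ∈ Γ, ∀ z, f (γ • z) = f z) →
        ∫ w, ψ w * gr ρ w * f (ofComplex w) = ∫ z in D, f z ∂(Berry.area ρ) := by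
  obtain ⟨K, hKc, hcov⟩ := hK
  obtain ⟨c, hcsm, hcs, hcU, hc0, hc1⟩ := exists_cut_smooth hKc
  have hc := hcsm.continuous
  set χ : ℍ → ℝ := fun z => c z with hχdef
  have hχc : Continuous χ := hc.comp continuous_coe
  have hχ0 : ∀ z, 0 ≤ χ z := fun z => hc0 _
  -- the support of `χ` is bounded
  have hcomp : IsCompact (UpperHalfPlane.coe ⁻¹' tsupport c) := by
    rw [isOpenEmbedding_coe.isInducing.isCompact_preimage_iff]
    · exact hcs
    · rw [range_coe]; exact hcU
  obtain ⟨R, hR⟩ := hcomp.isBounded.subset_closedBall UpperHalfPlane.I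
  have hχ : ∀ z, χ z ≠ 0 → dist z UpperHalfPlane.I ≤ R := fun z hz =>
    hR (show (z : ℂ) ∈ tsupport c from subset_tsupport c hz)
  have hpos : ∀ z, 0 < NN Γ χ z := by
    intro z
    obtain ⟨γ, hγ, hz⟩ := hcov z
    have h1 : χ ((⟨γ, hγ⟩ : Γ) • z) ≤ NN Γ χ z :=
      (NN_summable hD hχ z).le_tsum _ fun δ _ => hχ0 _
    have h2 : χ ((⟨γ, hγ⟩ : Γ) • z) = 1 := hc1 _ hz
    linarith
  have hN := NN_continuous hD hχ hχc
  set G : ℍ → ℝ := fun z => 1 / z.im ^ 2 * (Real.exp (2 * ρ z) / NN Γ χ z) with hG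
  have hGc : Continuous G := by
    refine (continuous_const.div (continuous_im.pow 2) fun z => (pow_pos z.im_pos 2).ne').mul ?_
    exact (Real.continuous_exp.comp (continuous_const.mul hρ)).div hN fun z => (hpos z).ne'
  have hG0 : ∀ z, 0 ≤ G z := by
    intro z
    have h1 := z.im_pos
    have h2 := hpos z
    simp only [hG]
    positivity
  have hzero : ∀ w : ℂ, ¬ 0 < w.im → c w = 0 := by
    intro w hw
    by_contra h
    exact hw (hcU (subset_tsupport c h))
  have heq : ∀ w : ℂ, c w / NN Γ χ (ofComplex w) * gr ρ w = c w * G (ofComplex w) := by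
    intro w
    by_cases hw : 0 < w.im
    · have e3 : (ofComplex w : ℍ).im = w.im := by rw [ofComplex_apply_of_im_pos hw]; rfl
      simp only [hG, gr, e3]
      have h1 := (hpos (ofComplex w)).ne'
      have h2 := (pow_pos hw 2).ne'
      field_simp
    · rw [hzero w hw, zero_div, zero_mul, zero_mul]
  have hsm : ContDiff ℝ ∞ fun w => c w / NN Γ χ (ofComplex w) := by
    rw [contDiff_iff_contDiffAt]
    intro w
    by_cases hw : w ∈ tsupport c
    · have hw' : 0 < w.im := hcU hw
      exact hcsm.contDiffAt.div (smooth_NN hD hcsm hχ hw') (hpos _).ne'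
    · have h1 : c =ᶠ[𝓝 w] 0 := notMem_tsupport_iff_eventuallyEq.1 hw
      refine (contDiffAt_const (c := (0 : ℝ))).congr_of_eventuallyEq ?_
      filter_upwards [h1] with v hv
      rw [hv, Pi.zero_apply, zero_div]
  have hsub : Function.support (fun w => c w / NN Γ χ (ofComplex w)) ⊆ Function.support c := by
    intro w hw h0
    apply hw
    change c w / NN Γ χ (ofComplex w) = 0
    rw [h0, zero_div]
  refine ⟨fun w => c w / NN Γ χ (ofComplex w), hsm, ?_, (closure_mono hsub).trans hcU,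
    fun w => div_nonneg (hc0 w) (hpos _).le, ?_, ?_, ?_⟩
  · exact hcs.of_isClosed_subset (isClosed_tsupport _) (closure_mono hsub)
  · intro z
    have h1 := (NN_summable hD hχ z).hasSum
    have h2 := h1.div_const (NN Γ χ z)
    have h3 : (∑' γ : Γ, χ (γ • z)) / NN Γ χ z = 1 := div_self (hpos z).ne'
    rw [h3] at h2
    have h4 : (fun γ : Γ => c ((γ • z : ℍ) : ℂ) / NN Γ χ (ofComplex ((γ • z : ℍ) : ℂ))) =
        fun γ : Γ => χ (γ • z) / NN Γ χ z := by
      funext γ
      rw [ofComplex_apply, NN_inv]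
    change HasSum (fun γ : Γ => c ((γ • z : ℍ) : ℂ) / NN Γ χ (ofComplex ((γ • z : ℍ) : ℂ))) 1
    rw [h4]
    exact h2
  · have := continuous_cut_mul hc hcU hGc
    exact this.congr fun w => (heq w).symm
  intro f hf hf0 hinv
  have hU : IsOpen {w : ℂ | 0 < w.im} := isOpen_lt continuous_const Complex.continuous_im
  simp only [heq]
  -- left side
  have hcont : Continuous fun w => c w * G (ofComplex w) * f (ofComplex w) := by
    have := continuous_cut_mul hc hcU (hGc.mul hf)
    refine this.congr fun w => ?_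
    simp only [Pi.mul_apply]; ring
  rw [integral_eq_lintegral_of_nonneg_ae
    (Eventually.of_forall fun w => mul_nonneg (mul_nonneg (hc0 w) (hG0 _)) (hf0 _))
    hcont.aestronglyMeasurable,
    integral_eq_lintegral_of_nonneg_ae (Eventually.of_forall fun z => hf0 z)
      hf.aestronglyMeasurable]
  congr 1
  have hexp : Measurable fun z => ENNReal.ofReal (Real.exp (2 * ρ z)) :=
    ENNReal.measurable_ofReal.comp
      (Real.continuous_exp.comp (continuous_const.mul hρ)).measurable
  have hfm : Measurable fun z => ENNReal.ofReal (f z) := ENNReal.measurable_ofReal.comp hf.measurable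
  unfold Berry.area
  rw [setLIntegral_withDensity_eq_setLIntegral_mul _ hexp hfm hDm]
  have e1 : ∫⁻ z in D, ((fun z => ENNReal.ofReal (Real.exp (2 * ρ z))) *
      fun z => ENNReal.ofReal (f z)) z = ∫⁻ z in D, ENNReal.ofReal (Real.exp (2 * ρ z) * f z) := by
    refine lintegral_congr fun z => ?_
    rw [Pi.mul_apply, ENNReal.ofReal_mul (Real.exp_pos _).le]
  have hfe : Continuous fun z => Real.exp (2 * ρ z) * f z :=
    (Real.continuous_exp.comp (continuous_const.mul hρ)).mul hf
  rw [e1, QE.Surf.unfold hD hχ hχc hχ0 hpos hfe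
    (fun γ hγ z => by simp only [hρΓ γ hγ, hinv γ hγ]), lintegral_uhp]
  · rw [← lintegral_indicator hU.measurableSet]
    refine lintegral_congr fun w => ?_
    by_cases hw : 0 < w.im
    · rw [indicator_of_mem (show w ∈ {w : ℂ | 0 < w.im} from hw),
        ← ENNReal.ofReal_mul (by positivity)]
      congr 1
      have e2 : ((ofComplex w : ℍ) : ℂ) = w := by rw [ofComplex_apply_of_im_pos hw]
      have e3 : (ofComplex w : ℍ).im = w.im := by rw [ofComplex_apply_of_im_pos hw]; rfl
      simp only [hG, hχdef, e2, e3]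
      ring
    · rw [indicator_of_notMem (show w ∉ {w : ℂ | 0 < w.im} from hw), hzero w hw, zero_mul,
        zero_mul, ENNReal.ofReal_zero]
  · refine ENNReal.measurable_ofReal.comp (Continuous.measurable ?_)
    exact (hχc.div hN fun z => (hpos z).ne').mul hfe

end PTN

open QJ.TEST in
theorem t_PTN : StmtPtn := by
  intro Γ _ ρ D hg hρs hK
  obtain ⟨ψ, h1, h2, h3, h4, h6, h7, h5⟩ := PTN.exists_pou hg.dom hg.meas hK hg.unif.continuous
    hg.inv
  refine ⟨ψ, h1, h2, h3, h4, h6, fun f hf hinv => ?_⟩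
  have hs : Function.support (fun w => ψ w * gr ρ w) ⊆ Function.support ψ :=
    Function.support_mul_subset_left _ _
  exact rAvg_eq hg hK h7 (h2.of_isClosed_subset (isClosed_tsupport _) (closure_mono hs))
    ((closure_mono hs).trans h3) h5 hf hinv

end

end CRN
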