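import Pool.Agent.CRN.FNF
import Pool.Agent.CRN.INQ
import Pool.Agent.CRN.PTN
import Pool.Agent.CRN.QUO
import Pool.Agent.CRN.CRP
import Pool.Agent.CRM.UNF

/-!
GJT: the four-jet statistics and the lower bound, as integrals over a strict fundamental domain.
-/

open MeasureTheory Filter Topology Set MatrixGroups
open UpperHalfPlane hiding I
open scoped ContDiff ENNReal

namespace CRN

open QE QE.NC QJ U3 CRM NFP

noncomputable section

/-- the hypotheses of the final theorem -/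
structure Dta (Γ : Subgroup SL(2, ℝ)) (D : Set ℍ) (ρ : ℍ → ℝ) (φ : ℕ → ℍ → ℝ) (m : ℕ → ℝ) :
    Prop where
  meas : MeasurableSet D
  strict : ∀ z : ℍ, ∃! γ : Γ, γ • z ∈ D
  fac : Fac Γ ρ
  eig : Berry.REigenSeq Γ ρ φ m
  smooth : ∀ n, ContDiffOn ℝ ∞ (fun w : ℂ => φ n (ofComplex w)) {w | 0 < w.im}
  norm : ∀ n, Berry.rAvg ρ D (fun z => φ n z ^ 2) = 1

/-- the properties of the crossing measure -/
structure Cmp (Γ : Subgroup SL(2, ℝ)) (ρ : ℍ → ℝ) (h : ℕ → ℝ) (φ : ℕ → ℂ → ℂ)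
    (ϖ : Measure (ℍ × S1)) : Prop where
  link : LinkG ρ h φ ϖ
  inv : ∀ γ ∈ Γ, Measure.map (fun p : ℍ × S1 => (γ • p.1, p.2)) ϖ = ϖ
  nul : ϖ {p | (p.2 : ℂ) ^ 2 = 1} = 0

namespace GJT

lemma norm_S1 (t : S1) : ‖(t : ℂ)‖ = 1 := by
  have := t.2
  rwa [mem_sphere_zero_iff_norm] at this

lemma s2_S1 (t : S1) : s2 (t : ℂ) = (t : ℂ).im ^ 2 := by
  have h1 : (t : ℂ) * (starRingEnd ℂ) (t : ℂ) = 1 := by
    rw [Complex.mul_conj, Complex.normSq_eq_norm_sq, norm_S1]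
    simp
  have h2 : (t : ℂ) ^ 2 - 1 = t * ((t : ℂ) - (starRingEnd ℂ) (t : ℂ)) := by
    rw [mul_sub, h1]
    ring
  unfold s2
  rw [h2, norm_mul, norm_S1, one_mul, Complex.sub_conj]
  rw [norm_mul, Complex.norm_I, mul_one]
  push_cast
  rw [norm_mul, Complex.norm_real, Real.norm_eq_abs]
  simp only [Complex.norm_ofNat, mul_pow, sq_abs]
  ring

lemma im_ne {t : S1} (h : (t : ℂ) ^ 2 ≠ 1) : (t : ℂ).im ≠ 0 := by
  intro h0
  apply h
  have h1 := s2_S1 t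
  rw [h0] at h1
  unfold s2 at h1
  have h2 : ‖(t : ℂ) ^ 2 - 1‖ = 0 := by
    have : ‖(t : ℂ) ^ 2 - 1‖ ^ 2 = 0 := by linarith
    exact pow_eq_zero_iff (two_ne_zero) |>.1 this
  exact sub_eq_zero.1 (norm_eq_zero.1 h2)

lemma exp_arg (t : S1) : Complex.exp ((Complex.arg (t : ℂ) : ℝ) * Complex.I) = t := by
  have := Complex.norm_mul_exp_arg_mul_I (t : ℂ)
  rwa [norm_S1, Complex.ofReal_one, one_mul] at this

/-- a strict fundamental domain is a fundamental domain -/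
lemma dom {Γ : Subgroup SL(2, ℝ)} {D : Set ℍ} (hm : MeasurableSet D)
    (hs : ∀ z : ℍ, ∃! γ : Γ, γ • z ∈ D) : IsFundamentalDomain Γ D (volume : Measure ℍ) :=
  IsFundamentalDomain.mk' hm.nullMeasurableSet hs

lemma quoJ_eq (hQ : StmtQuo) (k : Fin 4 → ℕ) (v : ∀ i, Fin (k i) → ℂ) (t : S1)
    (h : (t : ℂ) ^ 2 ≠ 1) : (quoJ k v t).re
      = (crossJ k v (Complex.arg (t : ℂ)) - crossJ k v 0) / (t : ℂ).im ^ 2 := by
  have h1 := (hQ.2 k v).2.1 (Complex.arg (t : ℂ))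
  rw [exp_arg, s2_S1] at h1
  have h2 := congrArg Complex.re h1
  rw [Complex.re_ofReal_mul, Complex.ofReal_re] at h2
  rw [← h2]
  have := im_ne h
  field_simp

end GJT

open GJT in
/-- the four-jet statistics -/
theorem jets (hQ : StmtQuo) {Γ : Subgroup SL(2, ℝ)} [Countable Γ] {D : Set ℍ} {ρ : ℍ → ℝ}
    {φ : ℕ → ℍ → ℝ} {m : ℕ → ℝ} {ϖ : Measure (ℍ × S1)} (T : Dta Γ D ρ φ m) {N : ℕ}
    (hN : ∀ n, 0 < m (n + N))
    (C : Cmp Γ ρ (fun n => 1 / m (n + N)) (fun n z => (φ (n + N) (ofComplex z) : ℂ)) ϖ)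
    {w : ℍ → ℝ} (hws : ContDiffOn ℝ ∞ (fun z : ℂ => w (ofComplex z)) {z | 0 < z.im})
    (hwi : ∀ γ ∈ Γ, ∀ z, w (γ • z) = w z) (k : Fin 4 → ℕ) (v : ∀ i, Fin (k i) → ℂ) :
    IntegrableOn (fun p : ℍ × S1 => w p.1 *
        ((crossJ k v (Complex.arg (p.2 : ℂ)) - crossJ k v 0) / (p.2 : ℂ).im ^ 2)) (D ×ˢ univ) ϖ ∧
      Tendsto (fun n => (∫ p, w p.1 * jetProd k v (fun x => Berry.rWave ρ (φ n) (m n) x p)
          ∂(Berry.rFrameProb ρ D))
        - crossJ k v 0 / 3 * Berry.rAvg ρ D (fun z => w z * φ n z ^ 4)) atTop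
        (𝓝 ((Berry.area ρ D).toReal⁻¹ * ∫ p in D ×ˢ univ, w p.1 *
          ((crossJ k v (Complex.arg (p.2 : ℂ)) - crossJ k v 0) / (p.2 : ℂ).im ^ 2) ∂ϖ)) := by
  have hD := dom T.meas T.strict
  have hρc : Continuous ρ := QE.continuous_of_smooth T.fac.smooth
  have hwc : Continuous w := QE.continuous_of_smooth hws
  have hshift := tendsto_add_atTop_nat N
  have heig : Berry.REigenSeq Γ ρ (fun n => φ (n + N)) (fun n => m (n + N)) :=
    ⟨fun n => T.eig.invariant _, fun n => T.eig.smooth _, fun n => T.eig.eigen _,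
      T.eig.tendsto.comp hshift⟩
  have geo : Berry.Geo Γ ρ D :=
    (Berry.surf_of_cocompact hD T.meas T.fac.cpt hρc T.fac.inv heig).geo
  obtain ⟨ψ, hψ, hψc, hψs, hψ0, hψ1, hψa⟩ := t_PTN Γ ρ D geo T.fac.smooth T.fac.cpt
  have key := t_FNF (t_LGF hQ) Γ D ρ (fun n => φ (n + N)) (fun n => m (n + N)) ϖ T.meas hD T.fac.cpt
    T.fac.smooth T.fac.inv heig (fun n => T.smooth _) (fun n => T.norm _) hN C.link ψ hψ hψc hψs
    hψa w hws hwi k v
  have hqc : Continuous fun p : ℍ × S1 => w p.1 * (quoJ k v p.2).re :=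
    (hwc.comp continuous_fst).mul (Complex.continuous_re.comp
      ((hQ.2 k v).1.comp (continuous_subtype_val.comp continuous_snd)))
  obtain ⟨i1, i2⟩ := t_UNF Γ D T.meas T.strict ϖ C.link.fin C.inv ψ hψ.continuous hψc hψs hψ0 hψ1
    (fun p : ℍ × S1 => w p.1 * (quoJ k v p.2).re) hqc
    (fun γ hγ p => by simp only [hwi γ hγ])
  have hae : ∀ᵐ p ∂(ϖ.restrict (D ×ˢ univ)), w p.1 * (quoJ k v p.2).re = w p.1 *
      ((crossJ k v (Complex.arg (p.2 : ℂ)) - crossJ k v 0) / (p.2 : ℂ).im ^ 2) := by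
    refine ae_restrict_of_ae ?_
    have h0 : ∀ᵐ p ∂ϖ, ¬ ((p.2 : ℂ) ^ 2 = 1) := by
      rw [ae_iff]
      simp only [not_not]
      exact C.nul
    filter_upwards [h0] with p hp
    rw [quoJ_eq hQ k v p.2 hp]
  refine ⟨i1.congr hae, ?_⟩
  rw [← integral_congr_ae hae, ← i2]
  have e1 : ∫ p : ℍ × S1, ψ p.1 * (w p.1 * (quoJ k v p.2).re) ∂ϖ
      = ∫ p : ℍ × S1, ψ p.1 * w p.1 * (quoJ k v p.2).re ∂ϖ :=
    integral_congr_ae (Eventually.of_forall fun p => by beta_reduce; ring)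
  rw [e1]
  rw [← tendsto_add_atTop_iff_nat N]
  exact key

open GJT in
/-- the lower bound for the fourth moments -/
theorem low {Γ : Subgroup SL(2, ℝ)} [Countable Γ] {D : Set ℍ} {ρ : ℍ → ℝ}
    {φ : ℕ → ℍ → ℝ} {m : ℕ → ℝ} {ϖ : Measure (ℍ × S1)} (T : Dta Γ D ρ φ m) {N : ℕ}
    (hN : ∀ n, 0 < m (n + N))
    (C : Cmp Γ ρ (fun n => 1 / m (n + N)) (fun n z => (φ (n + N) (ofComplex z) : ℂ)) ϖ)
    {w : ℍ → ℝ} (hws : ContDiffOn ℝ ∞ (fun z : ℂ => w (ofComplex z)) {z | 0 < z.im})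
    (hwi : ∀ γ ∈ Γ, ∀ z, w (γ • z) = w z) (hw0 : ∀ z, 0 ≤ w z) :
    ENNReal.ofReal (3 / (Berry.area ρ D).toReal) *
        ∫⁻ p in D ×ˢ univ, ENNReal.ofReal (w p.1 / (p.2 : ℂ).im ^ 2) ∂ϖ
      ≤ liminf (fun n => ENNReal.ofReal (Berry.rAvg ρ D (fun z => w z * φ n z ^ 4))) atTop := by
  have hD := dom T.meas T.strict
  have hρc : Continuous ρ := QE.continuous_of_smooth T.fac.smooth
  have hwc : Continuous w := QE.continuous_of_smooth hws
  have hshift := tendsto_add_atTop_nat N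
  have heig : Berry.REigenSeq Γ ρ (fun n => φ (n + N)) (fun n => m (n + N)) :=
    ⟨fun n => T.eig.invariant _, fun n => T.eig.smooth _, fun n => T.eig.eigen _,
      T.eig.tendsto.comp hshift⟩
  have geo : Berry.Geo Γ ρ D :=
    (Berry.surf_of_cocompact hD T.meas T.fac.cpt hρc T.fac.inv heig).geo
  obtain ⟨ψ, hψ, hψc, hψs, hψ0, hψ1, hψa⟩ := t_PTN Γ ρ D geo T.fac.smooth T.fac.cpt
  set A : ℝ := (Berry.area ρ D).toReal with hA
  have hA0 : 0 ≤ A := ENNReal.toReal_nonneg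
  -- the test function
  obtain ⟨s1, s2', s3⟩ := U3.FNU.test_mul hψ hψc hψs (LWF.gr_smooth T.fac.smooth)
  have z1 : ContDiff ℝ ∞ (fun z : ℂ => A⁻¹ * (ψ z * gr ρ z)) := contDiff_const.mul s1
  have z2 : HasCompactSupport (fun z : ℂ => A⁻¹ * (ψ z * gr ρ z)) := s2'.mul_left
  have z3 : tsupport (fun z : ℂ => A⁻¹ * (ψ z * gr ρ z)) ⊆ {w | 0 < w.im} :=
    (closure_mono (Function.support_mul_subset_right _ _)).trans s3
  obtain ⟨t1, t2, t3⟩ := U3.FNU.test_mul z1 z2 z3 hws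
  have hgr0 : ∀ z : ℂ, 0 ≤ gr ρ z := by
    intro z
    unfold gr
    positivity
  have t4 : ∀ z : ℂ, 0 ≤ A⁻¹ * (ψ z * gr ρ z) * w (ofComplex z) := by
    intro z
    exact mul_nonneg (mul_nonneg (inv_nonneg.2 hA0) (mul_nonneg (hψ0 z) (hgr0 z))) (hw0 _)
  have hloc := FNF.locU_full T.meas hD T.fac.cpt T.fac.smooth T.fac.inv heig (fun n => T.smooth _)
    (fun n => T.norm _) hN
  have key := t_INQ ρ (fun n => φ (n + N)) (fun n => m (n + N)) ϖ T.fac.smooth hloc C.link _ t1 t2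
    t3 t4
  have hmass : ∀ n, ∫ z, (A⁻¹ * (ψ z * gr ρ z) * w (ofComplex z)) * φ (n + N) (ofComplex z) ^ 4
      = Berry.rAvg ρ D (fun z => w z * φ (n + N) z ^ 4) := by
    intro n
    have hpc : Continuous (φ (n + N)) := QJ.FINP.continuous_of_smooth (T.smooth _)
    rw [hψa (fun z => w z * φ (n + N) z ^ 4) (hwc.mul (hpc.pow 4))
      fun γ hγ z => by rw [hwi γ hγ, T.eig.invariant _ γ hγ], ← integral_const_mul]
    refine integral_congr_ae (Eventually.of_forall fun z => ?_)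
    beta_reduce
    ring
  have hlim : liminf (fun n => ENNReal.ofReal (∫ z, (A⁻¹ * (ψ z * gr ρ z) * w (ofComplex z))
        * φ (n + N) (ofComplex z) ^ 4)) atTop
      = liminf (fun n => ENNReal.ofReal (Berry.rAvg ρ D (fun z => w z * φ n z ^ 4))) atTop := by
    simp only [hmass]
    exact Filter.liminf_nat_add
      (fun n => ENNReal.ofReal (Berry.rAvg ρ D (fun z => w z * φ n z ^ 4))) N
  rw [hlim] at key
  refine le_trans (le_of_eq ?_) key
  -- the left side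
  have has : ∀ z : ℍ, ∑' γ : Γ, ENNReal.ofReal (ψ ((γ • z : ℍ) : ℂ)) = 1 := by
    intro z
    have h2 : ∑' γ : Γ, ENNReal.ofReal (ψ ((γ • z : ℍ) : ℂ))
        = ENNReal.ofReal (∑' γ : Γ, ψ ((γ • z : ℍ) : ℂ)) := by
      rw [ENNReal.ofReal_tsum_of_nonneg (fun γ => hψ0 _) (hψ1 z).summable]
    rw [h2, (hψ1 z).tsum_eq, ENNReal.ofReal_one]
  have hFm : Measurable fun p : ℍ × S1 => ENNReal.ofReal (3 / A * (w p.1 / (p.2 : ℂ).im ^ 2)) := by
    refine Measurable.ennreal_ofReal ?_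
    refine measurable_const.mul ((hwc.measurable.comp measurable_fst).div ?_)
    exact (Complex.measurable_im.comp (measurable_subtype_coe.comp measurable_snd)).pow_const 2
  have hlin := UNF.lint T.meas T.strict C.inv (a := fun z : ℍ => ENNReal.ofReal (ψ z))
    ((hψ.continuous.measurable.comp (by fun_prop)).ennreal_ofReal) has
    hFm (fun γ hγ p => by simp only [hwi γ hγ])
  have h3 : ENNReal.ofReal (3 / A) *
        ∫⁻ p in D ×ˢ univ, ENNReal.ofReal (w p.1 / (p.2 : ℂ).im ^ 2) ∂ϖ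
      = ∫⁻ p in D ×ˢ univ, ENNReal.ofReal (3 / A * (w p.1 / (p.2 : ℂ).im ^ 2)) ∂ϖ := by
    rw [← lintegral_const_mul' _ _ ENNReal.ofReal_ne_top]
    refine lintegral_congr fun p => ?_
    rw [← ENNReal.ofReal_mul (by positivity)]
  rw [h3, ← hlin]
  refine lintegral_congr fun p => ?_
  rw [← ENNReal.ofReal_mul (hψ0 _), s2_S1]
  congr 1
  have h1 := LGF.gr_ne ρ p.1
  rw [ofComplex_apply]
  field_simp

end

end CRN
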