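import Pool.Agent.CRN.Stmts

/-!
Module PCV: the covariance of two derivatives of a plane wave with random phase.
-/

open MeasureTheory Filter Topology Set MatrixGroups
open UpperHalfPlane hiding I
open scoped ContDiff

namespace CRN

open QE QE.NC QJ U3 CRM NFP

noncomputable section

namespace PCV

lemma cos_half (n m : ℤ) : ((Real.cos (((n : ℝ) - m) * (Real.pi / 2)) : ℝ) : ℂ)
    = if (n + m) % 2 = 0 then Complex.I ^ (n - m) else 0 := by
  by_cases h : (n + m) % 2 = 0
  · rw [if_pos h]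
    obtain ⟨j, hj⟩ : ∃ j : ℤ, n - m = 2 * j := ⟨(n - m) / 2, by omega⟩
    have h1 : ((n : ℝ) - m) * (Real.pi / 2) = j * Real.pi := by
      have h2 : (n : ℝ) - m = 2 * j := by exact_mod_cast hj
      rw [h2]
      ring
    rw [h1, Real.cos_int_mul_pi, hj, zpow_mul]
    have h3 : (Complex.I : ℂ) ^ (2 : ℤ) = -1 := by
      have h4 : (Complex.I : ℂ) ^ (2 : ℤ) = Complex.I ^ (2 : ℕ) := by norm_cast
      rw [h4, Complex.I_sq]
    rw [h3]
    push_cast
    rfl
  · rw [if_neg h]
    obtain ⟨j, hj⟩ : ∃ j : ℤ, n - m = 2 * j + 1 := ⟨(n - m) / 2, by omega⟩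
    have h1 : ((n : ℝ) - m) * (Real.pi / 2) = (2 * j + 1) * Real.pi / 2 := by
      have h2 : (n : ℝ) - m = 2 * j + 1 := by exact_mod_cast hj
      rw [h2]
      ring
    rw [h1]
    have h2 : Real.cos ((2 * (j : ℝ) + 1) * Real.pi / 2) = 0 :=
      Real.cos_eq_zero_iff.mpr ⟨j, rfl⟩
    rw [h2, Complex.ofReal_zero]

end PCV

open PWL in
/-- PCV -/
theorem t_PCV (hIter : QJ.StmtIter) : StmtPcv := by
  intro θ k l v w
  unfold pcov
  rw [← integral_complex_ofReal]
  have h2 : ∀ s : ℝ, ((iteratedFDeriv ℝ k (planeWave θ s) 0 v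
      * iteratedFDeriv ℝ l (planeWave θ s) 0 w : ℝ) : ℂ) =
      ∑ a ∈ Finset.range (k + 1), ∑ b ∈ Finset.range (l + 1),
        ((QJ.sc v a * cW a (k - a)) * (QJ.sc w b * cW b (l - b)) *
          uu θ ^ (((a : ℤ) - (k - a : ℕ)) + ((b : ℤ) - (l - b : ℕ)))) *
          ((cs ((a : ℤ) - (k - a : ℕ)) s * cs ((b : ℤ) - (l - b : ℕ)) s : ℝ) : ℂ) := by
    intro s
    rw [Complex.ofReal_mul, jet_wave hIter, jet_wave hIter, Finset.sum_mul_sum]
    refine Finset.sum_congr rfl fun a _ => Finset.sum_congr rfl fun b _ => ?_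
    rw [zpow_add₀ (uu_ne θ)]
    push_cast
    ring
  simp only [h2]
  have hi : ∀ (C : ℂ) (n m : ℤ), Integrable (fun s => C * ((cs n s * cs m s : ℝ) : ℂ)) angle :=
    fun C n m => integrable_angle (continuous_const.mul
      (Complex.continuous_ofReal.comp ((continuous_cs n).mul (continuous_cs m))))
  rw [integral_finsetSum _ fun a _ => integrable_finsetSum _ fun b _ => hi _ _ _]
  refine Finset.sum_congr rfl fun a _ => ?_
  rw [integral_finsetSum _ fun b _ => hi _ _ _]
  refine Finset.sum_congr rfl fun b _ => ?_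
  rw [integral_const_mul, integral_complex_ofReal, mean_two, PCV.cos_half]
  ring

end

end CRN
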