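import Pool.Agent.CRN.JID
import Pool.Agent.CRN.PCV

/-!
The mean over the angle of the crossing sums is the Gaussian value.
-/

open MeasureTheory Filter Topology Set MatrixGroups
open UpperHalfPlane hiding I
open scoped ContDiff

namespace CRN

open QE QE.NC QJ U3 CRM NFP

namespace WKJ

lemma pcv : StmtPcv := t_PCV QJ.stmtIter

lemma cont_uu : Continuous uu := by
  unfold uu
  fun_prop

lemma uu_ne (θ : ℝ) : uu θ ≠ 0 := by
  unfold uu
  exact Complex.exp_ne_zero _

lemma cont_pcov {k l : ℕ} (v : Fin k → ℂ) (w : Fin l → ℂ) : Continuous fun θ => pcov θ v w := by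
  have h : Continuous fun θ => ((pcov θ v w : ℝ) : ℂ) := by
    have e : (fun θ => ((pcov θ v w : ℝ) : ℂ)) = fun θ =>
      ∑ a ∈ Finset.range (k + 1), ∑ b ∈ Finset.range (l + 1), JID.term θ k l v w a b := by
      funext θ
      exact JID.pcov_eq pcv θ k l v w
    rw [e]
    refine continuous_finsetSum _ fun a _ => continuous_finsetSum _ fun b _ => ?_
    unfold JID.term
    refine continuous_const.mul (continuous_const.mul ?_)
    exact continuous_iff_continuousAt.2 fun θ => (cont_uu.continuousAt).zpow₀ _ (Or.inl (uu_ne θ))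
  have h2 : (fun θ => pcov θ v w) = fun θ => ((pcov θ v w : ℝ) : ℂ).re := by
    funext θ
    rw [Complex.ofReal_re]
  rw [h2]
  exact Complex.continuous_re.comp h

lemma per_pcov {k l : ℕ} (v : Fin k → ℂ) (w : Fin l → ℂ) :
    Function.Periodic (fun θ => pcov θ v w) (2 * Real.pi) := by
  intro θ
  have h : planeWave (θ + 2 * Real.pi) = planeWave θ := by
    funext s x
    unfold planeWave
    have e : Complex.exp (-(((θ + 2 * Real.pi : ℝ) : ℂ) * Complex.I))
        = Complex.exp (-((θ : ℂ) * Complex.I)) := by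
      have e1 : -(((θ + 2 * Real.pi : ℝ) : ℂ) * Complex.I)
          = -((θ : ℂ) * Complex.I) - 2 * Real.pi * Complex.I := by
        push_cast
        ring
      rw [e1, Complex.exp_sub, Complex.exp_two_pi_mul_I, div_one]
    rw [e]
  simp only [pcov, h]

lemma integrable_ang {f : ℝ → ℝ} (hf : Continuous f) : Integrable f angle := by
  have h1 : IntegrableOn f (Set.Ioc 0 (2 * Real.pi)) := hf.integrableOn_Ioc
  refine Integrable.smul_measure h1 ?_
  rw [Real.volume_Ioc, sub_zero]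
  exact ENNReal.inv_ne_top.mpr (ENNReal.ofReal_pos.mpr (by positivity)).ne'

lemma integ {f g : ℝ → ℝ} (hf : Continuous f) (hg : Continuous g) (c : ℝ) :
    Integrable (Function.uncurry fun (α θ : ℝ) => f θ * g (θ + c * α)) (angle.prod angle) := by
  have : IsProbabilityMeasure angle := Berry.angle_prob
  have hc : Continuous (Function.uncurry fun (α θ : ℝ) => f θ * g (θ + c * α)) := by
    simp only [Function.uncurry_def]
    fun_prop
  have hK : IsCompact (Icc (0 : ℝ) (2 * Real.pi) ×ˢ Icc (0 : ℝ) (2 * Real.pi)) :=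
    isCompact_Icc.prod isCompact_Icc
  obtain ⟨B, hB⟩ := hK.exists_bound_of_continuousOn hc.continuousOn
  have hae : ∀ᵐ θ ∂angle, θ ∈ Icc (0 : ℝ) (2 * Real.pi) := by
    have h1 : ∀ᵐ θ ∂angle, θ ∈ Ioc (0 : ℝ) (2 * Real.pi) :=
      ProbabilityTheory.ae_cond_mem measurableSet_Ioc
    exact h1.mono fun θ h => ⟨h.1.le, h.2⟩
  refine Integrable.of_bound hc.aestronglyMeasurable B ?_
  have h1 : ∀ᵐ p ∂(angle.prod angle), (p : ℝ × ℝ).1 ∈ Icc (0 : ℝ) (2 * Real.pi) :=
    Measure.quasiMeasurePreserving_fst.ae hae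
  have h2 : ∀ᵐ p ∂(angle.prod angle), (p : ℝ × ℝ).2 ∈ Icc (0 : ℝ) (2 * Real.pi) :=
    Measure.quasiMeasurePreserving_snd.ae hae
  filter_upwards [h1, h2] with p hp1 hp2
  exact hB p ⟨hp1, hp2⟩

lemma integ1 {f g : ℝ → ℝ} (hf : Continuous f) (hg : Continuous g) (c : ℝ) :
    Integrable (fun α => ∫ θ, f θ * g (θ + c * α) ∂angle) angle := by
  have : IsProbabilityMeasure angle := Berry.angle_prob
  exact (integ hf hg c).integral_prod_left

lemma swap {f g : ℝ → ℝ} (hf : Continuous f) (hg : Continuous g) (c : ℝ) :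
    ∫ α, ∫ θ, f θ * g (θ + c * α) ∂angle ∂angle
      = ∫ θ, f θ * ∫ α, g (θ + c * α) ∂angle ∂angle := by
  have : IsProbabilityMeasure angle := Berry.angle_prob
  rw [integral_integral_swap (integ hf hg c)]
  refine integral_congr_ae (Eventually.of_forall fun θ => ?_)
  exact integral_const_mul _ _

lemma ang_int' (f : ℝ → ℝ) :
    ∫ t, f t ∂angle = (2 * Real.pi)⁻¹ • ∫ t in (0 : ℝ)..(2 * Real.pi), f t := QE.ang_int f

lemma shift_add {g : ℝ → ℝ} (hp : Function.Periodic g (2 * Real.pi)) (θ : ℝ) :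
    ∫ α, g (θ + 1 * α) ∂angle = ∫ α, g α ∂angle := by
  simp only [one_mul]
  rw [ang_int', ang_int', intervalIntegral.integral_comp_add_left g θ]
  congr 1
  have h4 := hp.intervalIntegral_add_eq (θ + 0) 0
  rw [zero_add] at h4
  rw [← h4]
  congr 1; ring

lemma shift_sub {g : ℝ → ℝ} (hp : Function.Periodic g (2 * Real.pi)) (θ : ℝ) :
    ∫ α, g (θ + (-1) * α) ∂angle = ∫ α, g α ∂angle := by
  have e : ∀ α : ℝ, θ + (-1) * α = θ - α := fun α => by ring
  simp only [e]
  rw [ang_int', ang_int', intervalIntegral.integral_comp_sub_left g θ]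
  congr 1
  have h4 := hp.intervalIntegral_add_eq (θ - 2 * Real.pi) 0
  rw [zero_add] at h4
  rw [← h4]
  congr 1; ring

/-- the mean of a product of covariances over two directions -/
lemma pair {f g : ℝ → ℝ} (hf : Continuous f) (hg : Continuous g)
    (hp : Function.Periodic g (2 * Real.pi)) :
    (∫ α, ∫ θ, f θ * g (θ + 1 * α) ∂angle ∂angle = (∫ θ, f θ ∂angle) * ∫ θ, g θ ∂angle) ∧
    ∫ α, ∫ θ, f θ * g (θ + (-1) * α) ∂angle ∂angle = (∫ θ, f θ ∂angle) * ∫ θ, g θ ∂angle := by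
  refine ⟨?_, ?_⟩
  · rw [swap hf hg 1]
    simp only [shift_add hp]
    exact integral_mul_const _ _
  · rw [swap hf hg (-1)]
    simp only [shift_sub hp]
    exact integral_mul_const _ _

lemma six {a b c d e f : ℝ → ℝ} (ha : Integrable a angle) (hb : Integrable b angle)
    (hc : Integrable c angle) (hd : Integrable d angle) (he : Integrable e angle)
    (hf : Integrable f angle) :
    ∫ x, (a x + b x + c x + (d x + e x + f x)) ∂angle
      = (∫ x, a x ∂angle) + (∫ x, b x ∂angle) + (∫ x, c x ∂angle)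
        + ((∫ x, d x ∂angle) + (∫ x, e x ∂angle) + ∫ x, f x ∂angle) := by
  have h1 : ∫ x, (a x + b x + c x + (d x + e x + f x)) ∂angle
      = (∫ x, (a x + b x + c x) ∂angle) + ∫ x, (d x + e x + f x) ∂angle :=
    integral_add ((ha.add hb).add hc) ((hd.add he).add hf)
  have h2 : ∫ x, (a x + b x + c x) ∂angle = (∫ x, (a x + b x) ∂angle) + ∫ x, c x ∂angle :=
    integral_add (ha.add hb) hc
  have h3 : ∫ x, (a x + b x) ∂angle = (∫ x, a x ∂angle) + ∫ x, b x ∂angle := integral_add ha hb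
  have h4 : ∫ x, (d x + e x + f x) ∂angle = (∫ x, (d x + e x) ∂angle) + ∫ x, f x ∂angle :=
    integral_add (hd.add he) hf
  have h5 : ∫ x, (d x + e x) ∂angle = (∫ x, d x ∂angle) + ∫ x, e x ∂angle := integral_add hd he
  rw [h1, h2, h3, h4, h5]

end WKJ

open WKJ in
/-- the mean over the angle of the crossing sums is the moment of the isotropic Gaussian wave -/
theorem int_crossJ (k : Fin 4 → ℕ) (v : ∀ i, Fin (k i) → ℂ) :
    ∫ α, crossJ k v α ∂angle = covar (v 0) (v 1) * covar (v 2) (v 3)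
      + covar (v 0) (v 2) * covar (v 1) (v 3) + covar (v 0) (v 3) * covar (v 1) (v 2) := by
  have C : ∀ i j : Fin 4, Continuous fun θ => pcov θ (v i) (v j) := fun i j => cont_pcov _ _
  have P : ∀ i j : Fin 4, Function.Periodic (fun θ => pcov θ (v i) (v j)) (2 * Real.pi) :=
    fun i j => per_pcov _ _
  have I : ∀ (i j i' j' : Fin 4) (c : ℝ), Integrable (fun α => ∫ θ,
      pcov θ (v i) (v j) * pcov (θ + c * α) (v i') (v j') ∂angle) angle :=
    fun i j i' j' c => integ1 (C i j) (C i' j') c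
  have J : ∀ (i j i' j' : Fin 4) (c α : ℝ), Integrable (fun θ =>
      pcov θ (v i) (v j) * pcov (θ + c * α) (v i') (v j')) angle := fun i j i' j' c α =>
    integrable_ang ((C i j).mul ((C i' j').comp (by fun_prop)))
  have e : ∀ α, crossJ k v α = ((∫ θ, pcov θ (v 0) (v 1) * pcov (θ + 1 * α) (v 2) (v 3) ∂angle)
      + (∫ θ, pcov θ (v 0) (v 2) * pcov (θ + 1 * α) (v 1) (v 3) ∂angle)
      + (∫ θ, pcov θ (v 0) (v 3) * pcov (θ + 1 * α) (v 1) (v 2) ∂angle)
      + ((∫ θ, pcov θ (v 0) (v 1) * pcov (θ + (-1) * α) (v 2) (v 3) ∂angle)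
      + (∫ θ, pcov θ (v 0) (v 2) * pcov (θ + (-1) * α) (v 1) (v 3) ∂angle)
      + ∫ θ, pcov θ (v 0) (v 3) * pcov (θ + (-1) * α) (v 1) (v 2) ∂angle)) / 2 := by
    intro α
    rw [← six (J 0 1 2 3 1 α) (J 0 2 1 3 1 α) (J 0 3 1 2 1 α) (J 0 1 2 3 (-1) α)
      (J 0 2 1 3 (-1) α) (J 0 3 1 2 (-1) α), ← integral_div]
    unfold crossJ
    refine integral_congr_ae (Eventually.of_forall fun θ => ?_)
    simp only [pwick, one_mul, neg_mul, ← sub_eq_add_neg]
  simp_rw [e]
  rw [integral_div, six (I 0 1 2 3 1) (I 0 2 1 3 1) (I 0 3 1 2 1) (I 0 1 2 3 (-1))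
    (I 0 2 1 3 (-1)) (I 0 3 1 2 (-1))]
  rw [(pair (C 0 1) (C 2 3) (P 2 3)).1, (pair (C 0 1) (C 2 3) (P 2 3)).2,
    (pair (C 0 2) (C 1 3) (P 1 3)).1, (pair (C 0 2) (C 1 3) (P 1 3)).2,
    (pair (C 0 3) (C 1 2) (P 1 2)).1, (pair (C 0 3) (C 1 2) (P 1 2)).2]
  unfold covar pcov
  ring

end CRN
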