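import Pool.Agent.CRN.CRP
import Pool.Agent.NFP.Ident

/-!
CSI: the integral of the crossing kernel with respect to the crossing measure of a measure with a
square integrable density.
-/

open MeasureTheory Filter Topology Set
open UpperHalfPlane hiding I
open scoped ContDiff ProbabilityTheory ENNReal

namespace CRN

open QE QE.NC QJ U3 CRM NFP

noncomputable section

namespace CSI

variable {ρ : ℍ → ℝ} {s : ProbabilityTheory.Kernel ℍ S1} {D : Set ℍ} {w : ℍ → ℝ}

/-- the set over `D` -/
def D3 (D : Set ℍ) : Set ((ℍ × S1) × S1) := (D ×ˢ (univ : Set S1)) ×ˢ (univ : Set S1)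

lemma meas_D3 (hD : MeasurableSet D) : MeasurableSet (D3 D) :=
  (hD.prod MeasurableSet.univ).prod MeasurableSet.univ

lemma mass_lt (hs : ∀ z, IsFiniteMeasure (s z)) (hD : MeasurableSet D)
    (hi : IntegrableOn (fun z => (s z univ).toReal ^ 2) D (Berry.area ρ)) :
    IDENT.pm ρ s (D3 D) < ⊤ := by
  unfold D3
  rw [IDENT.pm_pre hs hD]
  have h1 : ∫⁻ z in D, (s z univ) ^ 2 ∂(Berry.area ρ)
      = ∫⁻ z in D, ENNReal.ofReal ((s z univ).toReal ^ 2) ∂(Berry.area ρ) := by
    refine lintegral_congr fun z => ?_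
    have := hs z
    rw [ENNReal.ofReal_pow ENNReal.toReal_nonneg, ENNReal.ofReal_toReal (measure_ne_top _ _)]
  rw [h1]
  exact hi.lintegral_lt_top

/-- integrability and iterated integral of a bounded continuous function of the angle -/
lemma iter (hs : ∀ z, IsFiniteMeasure (s z)) (hD : MeasurableSet D)
    (hi : IntegrableOn (fun z => (s z univ).toReal ^ 2) D (Berry.area ρ)) (hw : Continuous w)
    {B : ℝ} (hB : ∀ z, |w z| ≤ B) {F : S1 → ℝ} (hF : Continuous F) {C : ℝ} (hC : ∀ t, |F t| ≤ C) :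
    IntegrableOn (fun p : (ℍ × S1) × S1 => w p.1.1 * F (p.1.2 / p.2)) (D3 D) (IDENT.pm ρ s) ∧
    ∫ p in D3 D, w p.1.1 * F (p.1.2 / p.2) ∂(IDENT.pm ρ s)
      = ∫ z in D, w z * (∫ t, ∫ t', F (t / t') ∂(s z) ∂(s z)) ∂(Berry.area ρ) := by
  have hsf := STRUCT.sfinite s fun z => measure_lt_top _ _
  have hc : Continuous fun p : (ℍ × S1) × S1 => w p.1.1 * F (p.1.2 / p.2) := by
    refine (hw.comp (continuous_fst.comp continuous_fst)).mul (hF.comp ?_)
    exact (continuous_snd.comp continuous_fst).div' continuous_snd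
  have h1 : IntegrableOn (fun p : (ℍ × S1) × S1 => w p.1.1 * F (p.1.2 / p.2)) (D3 D)
      (IDENT.pm ρ s) := by
    refine Measure.integrableOn_of_bounded (M := B * C) (mass_lt hs hD hi).ne
      hc.aestronglyMeasurable (Eventually.of_forall fun p => ?_)
    rw [Real.norm_eq_abs, abs_mul]
    have hB0 : 0 ≤ B := (abs_nonneg _).trans (hB p.1.1)
    exact mul_le_mul (hB _) (hC _) (abs_nonneg _) hB0
  refine ⟨h1, ?_⟩
  unfold D3 IDENT.pm at h1 ⊢
  rw [Measure.setIntegral_compProd (hD.prod MeasurableSet.univ) MeasurableSet.univ h1]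
  simp only [Measure.restrict_univ]
  have h2 : IntegrableOn (fun q : ℍ × S1 => ∫ t', w q.1 * F (q.2 / t')
      ∂((s.comap Prod.fst measurable_fst : ProbabilityTheory.Kernel (ℍ × S1) S1) q))
      (D ×ˢ univ) ((Berry.area ρ) ⊗ₘ s) := by
    have hC0 : 0 ≤ C := (abs_nonneg _).trans (hC 1)
    have hB0 : 0 ≤ B := (abs_nonneg _).trans (hB UpperHalfPlane.I)
    have hm : Measurable fun q : ℍ × S1 => s q.1 univ :=
      (s.measurable_coe MeasurableSet.univ).comp measurable_fst
    have h3 : IntegrableOn (fun q : ℍ × S1 => (s q.1 univ).toReal) (D ×ˢ univ)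
        ((Berry.area ρ) ⊗ₘ s) := by
      refine ⟨hm.ennreal_toReal.aestronglyMeasurable, ?_⟩
      have h4 : ∫⁻ q in D ×ˢ univ, ‖(s q.1 univ).toReal‖ₑ ∂((Berry.area ρ) ⊗ₘ s)
          = IDENT.pm ρ s (D3 D) := by
        unfold D3 IDENT.pm
        rw [Measure.compProd_apply_prod (hD.prod MeasurableSet.univ) MeasurableSet.univ]
        refine lintegral_congr fun q => ?_
        have := hs q.1
        rw [Real.enorm_of_nonneg ENNReal.toReal_nonneg, ENNReal.ofReal_toReal (measure_ne_top _ _)]
        rfl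
      show ∫⁻ q in D ×ˢ univ, ‖(s q.1 univ).toReal‖ₑ ∂((Berry.area ρ) ⊗ₘ s) < ⊤
      rw [h4]
      exact mass_lt hs hD hi
    refine Integrable.mono' (h3.const_mul (B * C)) ?_ (Eventually.of_forall fun q => ?_)
    · refine (StronglyMeasurable.integral_kernel_prod_right'
        (κ := (s.comap Prod.fst measurable_fst : ProbabilityTheory.Kernel (ℍ × S1) S1))
        (f := fun p : (ℍ × S1) × S1 => w p.1.1 * F (p.1.2 / p.2))
        hc.stronglyMeasurable).aestronglyMeasurable
    · have := hs q.1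
      have h5 : ‖∫ t', w q.1 * F (q.2 / t')
          ∂((s.comap Prod.fst measurable_fst : ProbabilityTheory.Kernel (ℍ × S1) S1) q)‖
          ≤ (B * C) * ((s.comap Prod.fst measurable_fst :
            ProbabilityTheory.Kernel (ℍ × S1) S1) q).real univ := by
        have h6 : IsFiniteMeasure ((s.comap Prod.fst measurable_fst :
            ProbabilityTheory.Kernel (ℍ × S1) S1) q) := hs q.1
        refine norm_integral_le_of_norm_le_const (Eventually.of_forall fun t' => ?_)
        rw [Real.norm_eq_abs, abs_mul]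
        exact mul_le_mul (hB _) (hC _) (abs_nonneg _) hB0
      exact h5
  rw [Measure.setIntegral_compProd hD MeasurableSet.univ h2]
  refine integral_congr_ae (Eventually.of_forall fun z => ?_)
  beta_reduce
  rw [Measure.restrict_univ, ← integral_const_mul]
  refine integral_congr_ae (Eventually.of_forall fun t => ?_)
  beta_reduce
  rw [← integral_const_mul]
  rfl

end CSI

open CSI in
/-- CSI: the integral of the crossing kernel -/
theorem csi (x : Fin 4 → ℂ) (ρ : ℍ → ℝ) (s : ProbabilityTheory.Kernel ℍ S1)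
    (hs : ∀ z, IsFiniteMeasure (s z)) (D : Set ℍ) (hD : MeasurableSet D)
    (hi : IntegrableOn (fun z => (s z univ).toReal ^ 2) D (Berry.area ρ)) (w : ℍ → ℝ)
    (hw : Continuous w) (B : ℝ) (hB : ∀ z, |w z| ≤ B) :
    ∫ p in D ×ˢ (univ : Set S1), w p.1 * ((crossP x (Complex.arg (p.2 : ℂ)) - resK x)
        / (p.2 : ℂ).im ^ 2) ∂(crossS ρ s)
      = ∫ z in D, w z * dirWick (s z) x ∂(Berry.area ρ)
        - resK x * ∫ z in D, w z * (s z univ).toReal ^ 2 ∂(Berry.area ρ) := by
  obtain ⟨C, hC0, hC⟩ := crossP_bd x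
  have hcP : Continuous fun t : S1 => CRP.cP x t := (CRP.continuous_cP x).comp continuous_subtype_val
  have hsin : ∀ t : S1, Real.sin (Complex.arg (t : ℂ)) = (t : ℂ).im := by
    intro t
    have h1 : ‖(t : ℂ)‖ = 1 := by
      have := t.2
      rwa [mem_sphere_zero_iff_norm] at this
    rw [Complex.sin_arg, h1, div_one]
  have hF : ∀ t : S1, (t : ℂ).im ^ 2 * ((crossP x (Complex.arg (t : ℂ)) - resK x)
      / (t : ℂ).im ^ 2) = CRP.cP x t - resK x := by
    intro t
    rw [CRP.crossP_arg]
    by_cases h0 : (t : ℂ).im = 0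
    · have h1 := hC (Complex.arg (t : ℂ))
      rw [hsin, h0, CRP.crossP_arg] at h1
      have h2 : CRP.cP x t - resK x = 0 := by
        rw [← abs_nonpos_iff]
        refine h1.trans (le_of_eq ?_)
        ring
      rw [h2, h0]
      simp
    · field_simp
  have hDu : MeasurableSet (D ×ˢ (univ : Set S1)) := hD.prod MeasurableSet.univ
  have hG : Measurable fun p : ℍ × S1 => w p.1 * ((crossP x (Complex.arg (p.2 : ℂ)) - resK x)
      / (p.2 : ℂ).im ^ 2) := by
    have e : (fun p : ℍ × S1 => w p.1 * ((crossP x (Complex.arg (p.2 : ℂ)) - resK x)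
        / (p.2 : ℂ).im ^ 2)) = fun p : ℍ × S1 => w p.1 * ((CRP.cP x p.2 - resK x)
        / (p.2 : ℂ).im ^ 2) := by
      funext p
      rw [CRP.crossP_arg]
    rw [e]
    refine (hw.measurable.comp measurable_fst).mul (Measurable.div ?_ ?_)
    · exact ((hcP.comp continuous_snd).sub continuous_const).measurable
    · exact ((Complex.continuous_im.comp (continuous_subtype_val.comp continuous_snd)).pow 2).measurable
  have e0 : crossS ρ s = Measure.map IDENT.qq ((IDENT.pm ρ s).withDensity
    fun p => ENNReal.ofReal (((p.1.2 / p.2 : S1) : ℂ).im ^ 2)) := rfl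
  rw [e0, setIntegral_map hDu hG.aestronglyMeasurable IDENT.cont_qq.measurable.aemeasurable]
  have e1 : IDENT.qq ⁻¹' (D ×ˢ (univ : Set S1)) = D3 D := by
    ext p
    simp [IDENT.qq, D3]
  rw [e1, setIntegral_withDensity_eq_setIntegral_toReal_smul IDENT.cont_im.measurable.ennreal_ofReal
    (Eventually.of_forall fun p => ENNReal.ofReal_lt_top) _ (meas_D3 hD)]
  have e2 : ∀ p : (ℍ × S1) × S1, (ENNReal.ofReal (((p.1.2 / p.2 : S1) : ℂ).im ^ 2)).toReal •
      (w (IDENT.qq p).1 * ((crossP x (Complex.arg ((IDENT.qq p).2 : ℂ)) - resK x)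
        / ((IDENT.qq p).2 : ℂ).im ^ 2))
      = w p.1.1 * CRP.cP x (p.1.2 / p.2 : S1) - resK x * (w p.1.1 * 1) := by
    intro p
    rw [ENNReal.toReal_ofReal (sq_nonneg _), smul_eq_mul]
    have h := hF (p.1.2 / p.2)
    unfold IDENT.qq
    beta_reduce
    linear_combination (w p.1.1) * h
  simp only [e2]
  obtain ⟨i1, j1⟩ := iter (ρ := ρ) hs hD hi hw hB hcP (C := 3) fun t => CRP.abs_cP x t
  obtain ⟨i2, j2⟩ := iter (ρ := ρ) hs hD hi hw hB (F := fun _ : S1 => (1 : ℝ)) continuous_const
    (C := 1) fun t => by simp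
  rw [integral_sub i1 (i2.const_mul _), integral_const_mul, j1, j2]
  congr 1
  · refine integral_congr_ae (Eventually.of_forall fun z => ?_)
    have := hs z
    beta_reduce
    rw [← int_crossP (s z) x]
    simp only [CRP.crossP_arg]
  · congr 1
    refine integral_congr_ae (Eventually.of_forall fun z => ?_)
    have := hs z
    beta_reduce
    simp [Measure.real, sq]

end

end CRN
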