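import Pool.Agent.CRN.CSI
import Pool.Agent.CRM.Qe

/-!
CSG: crossing integrals of a measure with a density, for general functions of the angle, and for jets.
-/

open MeasureTheory Filter Topology Set
open UpperHalfPlane hiding I
open scoped ContDiff ProbabilityTheory ENNReal

namespace CRN

open QE QE.NC QJ U3 CRM NFP

noncomputable section

open CSI in
/-- the integral of a function of the angle, divided by the square of the sine -/
theorem csg (F : S1 → ℝ) (hFc : Continuous F) (J0 : ℝ) (h0 : ∀ t : S1, (t : ℂ).im = 0 → F t = J0)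
    (ρ : ℍ → ℝ) (s : ProbabilityTheory.Kernel ℍ S1)
    (hs : ∀ z, IsFiniteMeasure (s z)) (D : Set ℍ) (hD : MeasurableSet D)
    (hi : IntegrableOn (fun z => (s z univ).toReal ^ 2) D (Berry.area ρ)) (w : ℍ → ℝ)
    (hw : Continuous w) (B : ℝ) (hB : ∀ z, |w z| ≤ B) :
    ∫ p in D ×ˢ (univ : Set S1), w p.1 * ((F p.2 - J0) / (p.2 : ℂ).im ^ 2) ∂(crossS ρ s)
      = ∫ z in D, w z * (∫ t, ∫ t', F (t / t') ∂(s z) ∂(s z)) ∂(Berry.area ρ)
        - J0 * ∫ z in D, w z * (s z univ).toReal ^ 2 ∂(Berry.area ρ) := by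
  obtain ⟨C, hC⟩ : ∃ C : ℝ, ∀ t : S1, |F t| ≤ C := by
    obtain ⟨C, hC⟩ := (isCompact_univ (X := S1)).exists_bound_of_continuousOn hFc.continuousOn
    exact ⟨C, fun t => hC t (mem_univ t)⟩
  have hF : ∀ t : S1, (t : ℂ).im ^ 2 * ((F t - J0) / (t : ℂ).im ^ 2) = F t - J0 := by
    intro t
    by_cases h : (t : ℂ).im = 0
    · rw [h0 t h, h]
      simp
    · field_simp
  have hDu : MeasurableSet (D ×ˢ (univ : Set S1)) := hD.prod MeasurableSet.univ
  have hG : Measurable fun p : ℍ × S1 => w p.1 * ((F p.2 - J0) / (p.2 : ℂ).im ^ 2) := by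
    refine (hw.measurable.comp measurable_fst).mul (Measurable.div ?_ ?_)
    · exact ((hFc.comp continuous_snd).sub continuous_const).measurable
    · exact ((Complex.continuous_im.comp (continuous_subtype_val.comp continuous_snd)).pow 2).measurable
  have e0 : crossS ρ s = Measure.map IDENT.qq ((IDENT.pm ρ s).withDensity
    fun p => ENNReal.ofReal (((p.1.2 / p.2 : S1) : ℂ).im ^ 2)) := rfl
  rw [e0, setIntegral_map hDu hG.aestronglyMeasurable IDENT.cont_qq.measurable.aemeasurable]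
  have e1 : IDENT.qq ⁻¹' (D ×ˢ (univ : Set S1)) = D3 D := by
    ext p
    simp [IDENT.qq, D3]
  rw [e1, setIntegral_withDensity_eq_setIntegral_toReal_smul IDENT.cont_im.measurable.ennreal_ofReal
    (Eventually.of_forall fun p => ENNReal.ofReal_lt_top) _ (meas_D3 hD)]
  have e2 : ∀ p : (ℍ × S1) × S1, (ENNReal.ofReal (((p.1.2 / p.2 : S1) : ℂ).im ^ 2)).toReal •
      (w (IDENT.qq p).1 * ((F (IDENT.qq p).2 - J0) / ((IDENT.qq p).2 : ℂ).im ^ 2))
      = w p.1.1 * F (p.1.2 / p.2) - J0 * (w p.1.1 * 1) := by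
    intro p
    rw [ENNReal.toReal_ofReal (sq_nonneg _), smul_eq_mul]
    have h := hF (p.1.2 / p.2)
    unfold IDENT.qq
    beta_reduce
    linear_combination (w p.1.1) * h
  simp only [e2]
  obtain ⟨i1, j1⟩ := iter (ρ := ρ) hs hD hi hw hB hFc (C := C) hC
  obtain ⟨i2, j2⟩ := iter (ρ := ρ) hs hD hi hw hB (F := fun _ : S1 => (1 : ℝ)) continuous_const
    (C := 1) fun t => by simp
  rw [integral_sub i1 (i2.const_mul _), integral_const_mul, j1, j2]
  congr 2
  refine integral_congr_ae (Eventually.of_forall fun z => ?_)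
  have := hs z
  beta_reduce
  simp [Measure.real, sq]

/-- the crossing integral for the jets -/
theorem csj (k : Fin 4 → ℕ) (v : ∀ i, Fin (k i) → ℂ) (ρ : ℍ → ℝ)
    (s : ProbabilityTheory.Kernel ℍ S1)
    (hs : ∀ z, IsFiniteMeasure (s z)) (D : Set ℍ) (hD : MeasurableSet D)
    (hi : IntegrableOn (fun z => (s z univ).toReal ^ 2) D (Berry.area ρ)) (w : ℍ → ℝ)
    (hw : Continuous w) (B : ℝ) (hB : ∀ z, |w z| ≤ B) :
    ∫ p in D ×ˢ (univ : Set S1), w p.1 * ((crossJ k v (Complex.arg (p.2 : ℂ)) - crossJ k v 0)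
        / (p.2 : ℂ).im ^ 2) ∂(crossS ρ s)
      = ∫ z in D, w z * (∫ t, ∫ t', crossJ k v (Complex.arg ((t / t' : S1) : ℂ)) ∂(s z) ∂(s z))
          ∂(Berry.area ρ)
        - crossJ k v 0 * ∫ z in D, w z * (s z univ).toReal ^ 2 ∂(Berry.area ρ) := by
  refine csg (fun t : S1 => crossJ k v (Complex.arg (t : ℂ))) ?_ (crossJ k v 0) ?_ ρ s hs D hD hi w
    hw B hB
  · have h := (QEC.cont_diff k v).add (continuous_const (y := crossJ k v 0))
    refine h.congr fun t => ?_
    show crossJ k v (Complex.arg (t : ℂ)) - crossJ k v 0 + crossJ k v 0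
      = crossJ k v (Complex.arg (t : ℂ))
    ring
  · intro t ht
    have h := QEC.diff_eq k v t
    rw [GJT.s2_S1, ht] at h
    beta_reduce
    linarith [h, show (0 : ℝ) ^ 2 * (quoJ k v (t : ℂ)).re = 0 by ring]

end

end CRN
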