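import Pool.Agent.CRN.LGF

/-!
FNF: the global theorem for four derivatives of the local waves, with a weight.
-/

open MeasureTheory Filter Topology Set MatrixGroups
open UpperHalfPlane hiding I
open scoped ContDiff

namespace CRN

open QE QE.NC QJ U3 CRM NFP

noncomputable section

namespace FNF

/-- the local hypotheses for the full sequence -/
theorem locU_full {Γ : Subgroup SL(2, ℝ)} [Countable Γ] {D : Set ℍ} {ρ : ℍ → ℝ} {φ : ℕ → ℍ → ℝ}
    {m : ℕ → ℝ} (hDm : MeasurableSet D) (hD : IsFundamentalDomain Γ D (volume : Measure ℍ))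
    (hK : ∃ K : Set ℍ, IsCompact K ∧ ∀ z, ∃ γ ∈ Γ, γ • z ∈ K)
    (hρ : ContDiffOn ℝ ∞ (fun w : ℂ => ρ (ofComplex w)) {w | 0 < w.im})
    (hρΓ : ∀ γ ∈ Γ, ∀ z, ρ (γ • z) = ρ z) (hφ : Berry.REigenSeq Γ ρ φ m)
    (hs : ∀ n, ContDiffOn ℝ ∞ (fun w : ℂ => φ n (ofComplex w)) {w | 0 < w.im})
    (hnorm : ∀ n, Berry.rAvg ρ D (fun z => φ n z ^ 2) = 1) (hm1 : ∀ n, 0 < m n) :
    LocU UH (gr ρ) (fun n => 1 / m n) (fun n z => (φ n (ofComplex z) : ℂ)) := by
  have hρc : Continuous ρ := QE.continuous_of_smooth hρ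
  have geo : Berry.Geo Γ ρ D := (Berry.surf_of_cocompact hD hDm hK hρc hρΓ hφ).geo
  have hU : IsOpen {z : ℂ | 0 < z.im} := isOpen_lt continuous_const Complex.continuous_im
  have hsm : ∀ n, ContDiffOn ℝ ∞ (fun w : ℂ => (φ n (ofComplex w) : ℂ)) {w | 0 < w.im} := fun n =>
    Complex.ofRealCLM.contDiff.comp_contDiffOn (hs n)
  refine ⟨?_, ?_, fun n => hsm _, ?_, ?_, ?_⟩
  · intro n
    have := hm1 n
    positivity
  · simpa [one_div, Function.comp_def] using tendsto_inv_atTop_zero.comp hφ.tendsto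
  · intro n z _
    exact Complex.conj_ofReal _
  · intro n z hz
    have hz' : 0 < z.im := hz
    have hm0 : m n ≠ 0 := (hm1 n).ne'
    have hcd : ContDiffAt ℝ 2 (fun w : ℂ => φ n (ofComplex w)) z :=
      (hφ.smooth _).contDiffAt (hU.mem_nhds hz)
    have h4 := four_dz_dzb hcd
    have he := hφ.eigen n ⟨z, hz'⟩
    have hoc : ofComplex z = ⟨z, hz'⟩ := ofComplex_apply_of_im_pos hz'
    have hre : (z.im : ℝ) ^ 2 * (Laplacian.laplacian (fun w : ℂ => φ n (ofComplex w)) z)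
        = - (m n ^ 2 * Real.exp (2 * ρ (ofComplex z)) * φ n (ofComplex z)) := by
      rw [hoc]; exact he
    have hrc : ((z.im : ℝ) : ℂ) ^ 2 * ((Laplacian.laplacian (fun w : ℂ =>
        φ n (ofComplex w)) z : ℝ) : ℂ) = - ((m n : ℂ) ^ 2 *
          (Real.exp (2 * ρ (ofComplex z)) : ℂ) * (φ n (ofComplex z) : ℂ)) := by
      exact_mod_cast congrArg (fun x : ℝ => (x : ℂ)) hre
    rw [← h4] at hrc
    have him : ((z.im : ℝ) : ℂ) ≠ 0 := by exact_mod_cast hz'.ne'
    have hmc : (m n : ℂ) ≠ 0 := by exact_mod_cast hm0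
    unfold gr
    push_cast
    push_cast at hrc
    field_simp
    linear_combination hrc
  · intro K' hK' hK'U
    obtain ⟨C, -, hC⟩ := loc_le geo hρc hK hK' hK'U
    refine ⟨C, Eventually.of_forall fun n => ?_⟩
    have h1 := hC (fun z => φ n z ^ 2) ((QE.continuous_of_smooth (hs _)).pow 2)
      (fun z => sq_nonneg _) (fun γ hγ z => by
        show φ n (γ • z) ^ 2 = φ n z ^ 2
        rw [hφ.invariant n γ hγ z])
    rw [hnorm n, mul_one] at h1
    refine le_trans (le_of_eq ?_) h1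
    refine integral_congr_ae (Eventually.of_forall fun z => ?_)
    simp only
    rw [Complex.norm_real, Real.norm_eq_abs, sq_abs]

end FNF

open FNF in
/-- FNF: the global theorem for four derivatives of the local waves, with a weight -/
theorem t_FNF (hLgF : StmtLgF) : StmtFnF := by
  intro Γ _ D ρ φ m ϖ hDm hD hK hρ hρΓ hφ hs hq hm hL ψ hψ hψc hψs hψa w hws hwi k v
  have hρc : Continuous ρ := QJ.FINP.continuous_of_smooth hρ
  have hwc : Continuous w := QJ.FINP.continuous_of_smooth hws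
  have hpc : ∀ n, Continuous (φ n) := fun n => QJ.FINP.continuous_of_smooth (hs n)
  have hgeo : Berry.Geo Γ ρ D := (Berry.surf_of_cocompact hD hDm hK hρc hρΓ hφ).geo
  have hloc := locU_full hDm hD hK hρ hρΓ hφ hs hq hm
  set A : ℝ := (Berry.area ρ D).toReal with hA
  -- the test function
  obtain ⟨s1, s2, s3⟩ := U3.FNU.test_mul hψ hψc hψs (LWF.gr_smooth hρ)
  have z1 : ContDiff ℝ ∞ (fun z : ℂ => A⁻¹ * (ψ z * gr ρ z)) := contDiff_const.mul s1
  have z2 : HasCompactSupport (fun z : ℂ => A⁻¹ * (ψ z * gr ρ z)) := s2.mul_left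
  have z3 : tsupport (fun z : ℂ => A⁻¹ * (ψ z * gr ρ z)) ⊆ {w | 0 < w.im} :=
    (closure_mono (Function.support_mul_subset_right _ _)).trans s3
  have hζ : ∀ f : ℍ → ℝ, Continuous f → (∀ γ ∈ Γ, ∀ z, f (γ • z) = f z) →
      Berry.rAvg ρ D f = ∫ w, (A⁻¹ * (ψ w * gr ρ w)) * f (ofComplex w) := by
    intro f hf hfi
    rw [hψa f hf hfi, ← integral_const_mul]
    refine integral_congr_ae (Eventually.of_forall fun z => ?_)
    beta_reduce
    ring
  obtain ⟨t1, t2, t3⟩ := U3.FNU.test_mul z1 z2 z3 hws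
  have key := hLgF ρ φ m ϖ hρ hm hs hloc hL _ t1 t2 t3 k v
  have hmass : ∀ n, ∫ z, (A⁻¹ * (ψ z * gr ρ z) * w (ofComplex z)) * φ n (ofComplex z) ^ 4
      = Berry.rAvg ρ D (fun z => w z * φ n z ^ 4) := by
    intro n
    rw [hζ (fun z => w z * φ n z ^ 4) (hwc.mul ((hpc n).pow 4))
      fun γ hγ z => by rw [hwi γ hγ, hφ.invariant n γ hγ]]
    refine integral_congr_ae (Eventually.of_forall fun z => ?_)
    simp only
    ring
  have hlim : ∫ p : ℍ × S1, (A⁻¹ * (ψ p.1 * gr ρ p.1) * w (ofComplex p.1)) * (gr ρ p.1)⁻¹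
        * (quoJ k v p.2).re ∂ϖ = A⁻¹ * ∫ p : ℍ × S1, ψ p.1 * w p.1 * (quoJ k v p.2).re ∂ϖ := by
    rw [← integral_const_mul]
    refine integral_congr_ae (Eventually.of_forall fun p => ?_)
    beta_reduce
    have h1 := LGF.gr_ne ρ p.1
    rw [ofComplex_apply]
    field_simp
  rw [hlim] at key
  refine key.congr' ?_
  filter_upwards [U3.FNU.keyJ QJ.invg hgeo hK hρc hφ hs hζ hwc hwi 4 k v] with n hn
  rw [hn, hmass]

end

end CRN
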