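import Pool.Agent.CRN.GJT
import Pool.Agent.NFP.All

/-!
SQD: the square of the total mass of a locally square integrable density of a semiclassical measure
is integrable over the surface.
-/

open MeasureTheory Filter Topology Set MatrixGroups
open UpperHalfPlane hiding I
open scoped ContDiff ENNReal ProbabilityTheory

namespace CRN

open QE QE.NC QJ U3 CRM NFP

noncomputable section

namespace SQD

variable {Γ : Subgroup SL(2, ℝ)} {ρ : ℍ → ℝ} {D : Set ℍ} {φ : ℕ → ℍ → ℝ} {m : ℕ → ℝ}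
  {s : ProbabilityTheory.Kernel ℍ S1}

lemma vol_le {R : ℝ} (hR : ∀ z, |ρ z| ≤ R) (hρ : Continuous ρ) :
    (volume : Measure ℍ) ≤ ENNReal.ofReal (Real.exp (2 * R)) • Berry.area ρ := by
  have hm : Measurable fun z : ℍ => ENNReal.ofReal (Real.exp (2 * ρ z)) :=
    (Real.continuous_exp.comp (continuous_const.mul hρ)).measurable.ennreal_ofReal
  unfold Berry.area
  rw [← withDensity_smul _ hm]
  calc (volume : Measure ℍ) = (volume : Measure ℍ).withDensity 1 := withDensity_one.symm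
    _ ≤ _ := by
        refine withDensity_mono (Eventually.of_forall fun z => ?_)
        simp only [Pi.one_apply, Pi.smul_apply, smul_eq_mul]
        rw [← ENNReal.ofReal_mul (Real.exp_pos _).le, ← Real.exp_add, ← ENNReal.ofReal_one]
        refine ENNReal.ofReal_le_ofReal (Real.one_le_exp ?_)
        have := (abs_le.1 (hR z)).1
        linarith

lemma int_vol {R : ℝ} (hR : ∀ z, |ρ z| ≤ R) (hρ : Continuous ρ) {K : Set ℍ} {f : ℍ → ℝ}
    (hf : IntegrableOn f K (Berry.area ρ)) : IntegrableOn f K (volume : Measure ℍ) := by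
  have h2 : (volume : Measure ℍ).restrict K ≤ ENNReal.ofReal (Real.exp (2 * R)) •
      (Berry.area ρ).restrict K := by
    rw [← Measure.restrict_smul]
    exact Measure.restrict_mono_measure (vol_le hR hρ) K
  exact (Integrable.smul_measure hf ENNReal.ofReal_ne_top).mono_measure h2

/-- the total mass is locally integrable -/
lemma int_one {R : ℝ} (hR : ∀ z, |ρ z| ≤ R) (hρ : Continuous ρ)
    (hloc : ∀ K : Set ℍ, IsCompact K →
      IntegrableOn (fun z => (s z univ).toReal ^ 2) K (Berry.area ρ)) {K : Set ℍ}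
    (hK : IsCompact K) : IntegrableOn (fun z => (s z univ).toReal) K (volume : Measure ℍ) := by
  have h1 := int_vol hR hρ (hloc K hK)
  have h2 : IntegrableOn (fun _ : ℍ => (1 : ℝ)) K (volume : Measure ℍ) :=
    continuousOn_const.integrableOn_compact hK
  refine Integrable.mono' (h2.add h1) BND.Dat.pm.aestronglyMeasurable
    (Eventually.of_forall fun z => ?_)
  rw [Real.norm_eq_abs, abs_of_nonneg ENNReal.toReal_nonneg]
  simp only [Pi.add_apply]
  nlinarith [sq_nonneg ((s z univ).toReal - 1), sq_nonneg (s z univ).toReal]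

/-- the weak limit of the squares -/
lemma lim_sq (hρ : Continuous ρ) (hs : ∀ z, IsFiniteMeasure (s z))
    (hρs : ContDiffOn ℝ ∞ (fun w : ℂ => ρ (ofComplex w)) {w | 0 < w.im})
    (hμ : Semiclassical ρ φ m ((Berry.area ρ) ⊗ₘ s)) {ψ : ℂ → ℝ} (h1 : ContDiff ℝ ∞ ψ)
    (h2 : HasCompactSupport ψ) (h3 : tsupport ψ ⊆ QE.HH) :
    Tendsto (fun n => ∫ z, ψ z * φ n (ofComplex z) ^ 2) atTop
      (𝓝 (∫ z, ψ z * (s (ofComplex z) univ).toReal)) := by
  have hT : Test UH (fun z => (ψ z : ℂ)) := test_of_smooth h1 h2 h3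
  have hg : ContDiffOn ℝ ∞ (fun z => (gr ρ z)⁻¹) {z | 0 < z.im} := by
    refine (LWF.gr_smooth hρs).inv fun z hz => ?_
    have hz' : (0 : ℝ) < z.im := hz
    unfold gr
    positivity
  obtain ⟨a1, a2, a3⟩ := U3.FNU.test_mul h1 h2 h3 hg
  have b1 : ContDiff ℝ ∞ fun z => ((ψ z * (gr ρ z)⁻¹ : ℝ) : ℂ) := Complex.ofRealCLM.contDiff.comp a1
  have b2 : HasCompactSupport fun z => ((ψ z * (gr ρ z)⁻¹ : ℝ) : ℂ) :=
    a2.comp_left (g := fun x : ℝ => (x : ℂ)) Complex.ofReal_zero
  have b3 : tsupport (fun z => ((ψ z * (gr ρ z)⁻¹ : ℝ) : ℂ)) ⊆ {w | 0 < w.im} :=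
    (closure_mono fun z hz => by
      simp only [Function.mem_support, ne_eq, Complex.ofReal_eq_zero] at hz ⊢
      exact hz).trans a3
  have t1 := hμ.lim 0 0 _ b1 b2 b3
  have hgr : ∀ z : ℍ, (gr ρ (z : ℂ))⁻¹ = z.im ^ 2 * Real.exp (-(2 * ρ z)) := by
    intro z
    unfold gr
    rw [ofComplex_apply, inv_div, Real.exp_neg]
    rfl
  -- the sequence
  have e1 : ∀ n, ∫ z : ℍ, ((ψ z * (gr ρ z)⁻¹ : ℝ) : ℂ) * ((QE.hD (1 / m n) 1)^[0]
        ((QE.hD (1 / m n) Complex.I)^[0] (fun w => (φ n (ofComplex w) : ℂ))) z * (φ n z : ℂ))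
        ∂(Berry.area ρ) = ((∫ z, ψ z * φ n (ofComplex z) ^ 2 : ℝ) : ℂ) := by
    intro n
    have h5 := STRUCT.integral_plane hρ hT (fun z => (φ n z : ℂ) ^ 2)
    have h6 : ∫ z, (ψ z : ℂ) * (φ n (ofComplex z) : ℂ) ^ 2
        = ((∫ z, ψ z * φ n (ofComplex z) ^ 2 : ℝ) : ℂ) := by
      refine Eq.trans ?_ (integral_ofReal (𝕜 := ℂ) (μ := volume) (f := fun z : ℂ => ψ z
        * φ n (ofComplex z) ^ 2))
      refine integral_congr_ae (Eventually.of_forall fun z => ?_)
      change _ = ((ψ z * φ n (ofComplex z) ^ 2 : ℝ) : ℂ)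
      push_cast
      ring
    rw [← h6, h5]
    refine integral_congr_ae (Eventually.of_forall fun z => ?_)
    simp only [Function.iterate_zero, id_eq, ofComplex_apply]
    rw [hgr]
    push_cast
    ring
  -- the limit
  have e2 : ∫ p : ℍ × S1, ((ψ p.1 * (gr ρ p.1)⁻¹ : ℝ) : ℂ)
        * (((Real.exp (ρ p.1) / p.1.im * (p.2 : ℂ).re) ^ 0
          * (Real.exp (ρ p.1) / p.1.im * (p.2 : ℂ).im) ^ 0 : ℝ) : ℂ) ∂((Berry.area ρ) ⊗ₘ s)
      = ((∫ z, ψ z * (s (ofComplex z) univ).toReal : ℝ) : ℂ) := by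
    have h5 := STRUCT.cof_comp hρ hμ.fin (fun z => measure_lt_top _ _) rfl hT 0
    have h6 : ∫ z, (ψ z : ℂ) * NFP.cof (s (ofComplex z)) 0
        = ((∫ z, ψ z * (s (ofComplex z) univ).toReal : ℝ) : ℂ) := by
      refine Eq.trans ?_ (integral_ofReal (𝕜 := ℂ) (μ := volume) (f := fun z : ℂ => ψ z
        * (s (ofComplex z) univ).toReal))
      refine integral_congr_ae (Eventually.of_forall fun z => ?_)
      change _ = ((ψ z * (s (ofComplex z) univ).toReal : ℝ) : ℂ)
      beta_reduce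
      rw [BND.cof_zero]
      push_cast
      ring
    rw [← h6, h5]
    refine integral_congr_ae (Eventually.of_forall fun p => ?_)
    simp only [STRUCT.Gf, pow_zero, mul_one, Complex.ofReal_one, neg_zero, zpow_zero]
    rw [hgr]
    push_cast
    ring
  rw [e2] at t1
  have t2 := (Complex.continuous_re.tendsto _).comp t1
  rw [Complex.ofReal_re] at t2
  refine t2.congr fun n => ?_
  rw [Function.comp_apply, e1, Complex.ofReal_re]

end SQD

open SQD in
/-- SQD: the total mass is square integrable over `D` -/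
theorem sqd {Γ : Subgroup SL(2, ℝ)} [Countable Γ] {D : Set ℍ} {ρ : ℍ → ℝ} {φ : ℕ → ℍ → ℝ}
    {m : ℕ → ℝ} (T : Dta Γ D ρ φ m) (s : ProbabilityTheory.Kernel ℍ S1)
    (hs : ∀ z, IsFiniteMeasure (s z))
    (hloc : ∀ K : Set ℍ, IsCompact K →
      IntegrableOn (fun z => (s z univ).toReal ^ 2) K (Berry.area ρ))
    (hμ : Semiclassical ρ φ m ((Berry.area ρ) ⊗ₘ s)) :
    IntegrableOn (fun z => (s z univ).toReal ^ 2) D (Berry.area ρ) := by
  have hD := GJT.dom T.meas T.strict
  have hρc : Continuous ρ := QE.continuous_of_smooth T.fac.smooth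
  have geo : Berry.Geo Γ ρ D :=
    (Berry.surf_of_cocompact hD T.meas T.fac.cpt hρc T.fac.inv T.eig).geo
  obtain ⟨R, hR⟩ := geo.bdd
  have hpc : ∀ n, Continuous (φ n) := fun n => QE.continuous_of_smooth (T.smooth n)
  have hinv : ∀ γ ∈ Γ, ∀ᵐ z : ℍ, (s (γ • z) univ).toReal = (s z univ).toReal := by
    intro γ hγ
    refine GLOB.inv_ae (Γ := Γ) (F := fun n z => φ n z ^ 2) (H := fun z => (s z univ).toReal)
      (Eventually.of_forall fun n => (hpc n).pow 2)
      (fun n γ hγ z => by rw [T.eig.invariant n γ hγ]) (fun K hKc hKU => ?_)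
      (fun K hKc hKU => ?_)
      (fun ψ h1 h2 h3 => lim_sq hρc hs T.fac.smooth hμ h1 h2 h3) γ hγ
    · obtain ⟨C, -, hC⟩ := loc_le geo hρc T.fac.cpt hKc hKU
      refine ⟨C, Eventually.of_forall fun n => ?_⟩
      have h1 := hC (fun z => φ n z ^ 2) ((hpc n).pow 2) (fun z => sq_nonneg _)
        (fun γ hγ z => by rw [T.eig.invariant n γ hγ z])
      rw [T.norm n, mul_one] at h1
      refine le_trans (le_of_eq ?_) h1
      refine integral_congr_ae (Eventually.of_forall fun z => ?_)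
      simp only
      rw [abs_of_nonneg (sq_nonneg _)]
    · have hK1 : IsCompact (UpperHalfPlane.coe ⁻¹' K) := by
        rw [isOpenEmbedding_coe.isInducing.isCompact_preimage_iff]
        · exact hKc
        · rw [range_coe]; exact hKU
      have e1 : UpperHalfPlane.coe '' (UpperHalfPlane.coe ⁻¹' K) = K := by
        rw [image_preimage_eq_iff, GLOB.range_coe_HH]
        exact hKU
      have h3 := (GLOB.integrable_iff (fun z => (s z univ).toReal) hK1).2
        (int_one hR hρc hloc hK1)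
      rwa [e1] at h3
  obtain ⟨K, hKc, hcov⟩ := T.fac.cpt
  have h2 := int_vol hR hρc (hloc K hKc)
  refine BND.int_area hR ⟨(BND.Dat.pm.pow_const 2).aestronglyMeasurable, ?_⟩
  refine lt_of_le_of_lt (BND.lint_le hD hcov fun γ hγ => ?_) h2.2
  filter_upwards [hinv γ hγ] with z hz
  rw [hz]

end

end CRN
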