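import Pool.Agent.CRN.Main2
import Pool.Agent.CRN.CSG
import Pool.Agent.CRN.SQD

/-!
Theorem N, second version: the closed theorem.
-/

namespace CRN

theorem stmtN2 : StmtN2 :=
  stmtN2_of (fun _ _ _ _ _ _ T s hs hloc hμ => sqd T s hs hloc hμ)
    (fun ρ D s w B k v h1 h2 h3 h4 h5 => csj k v ρ s h1 D h2 h3 w h4 B h5)

end CRN
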