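import Pool.Agent.CRN.GJT
import Pool.Agent.NFP.All
import Pool.Agent.CRM.Fin

/-!
The final statement of theorem N.
-/

open MeasureTheory Filter Topology Set MatrixGroups UpperHalfPlane
open scoped ContDiff ENNReal ProbabilityTheory

namespace CRN

open QJ NFP CRM

noncomputable section

/-- the final statement -/
def StmtN : Prop :=
  ∀ (Γ : Subgroup SL(2, ℝ)) [Countable Γ] (D : Set ℍ) (ρ : ℍ → ℝ) (φ : ℕ → ℍ → ℝ) (m : ℕ → ℝ),
    MeasurableSet D → (∀ z : ℍ, ∃! γ : Γ, γ • z ∈ D) →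
    (∃ K : Set ℍ, IsCompact K ∧ ∀ z, ∃ γ ∈ Γ, γ • z ∈ K) →
    ContDiffOn ℝ ∞ (fun w : ℂ => ρ (ofComplex w)) {w | 0 < w.im} →
    (∀ γ ∈ Γ, ∀ z, ρ (γ • z) = ρ z) → Berry.REigenSeq Γ ρ φ m →
    (∀ n, ContDiffOn ℝ ∞ (fun w : ℂ => φ n (ofComplex w)) {w | 0 < w.im}) →
    (∀ n, Berry.rAvg ρ D (fun z => φ n z ^ 2) = 1) →
    -- semiclassical measures exist along subsequences
    (∃ (s : ℕ → ℕ) (μ : Measure (ℍ × S1)), StrictMono s ∧
      Semiclassical ρ (fun n => φ (s n)) (fun n => m (s n)) μ) ∧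
    ∀ μ : Measure (ℍ × S1), Semiclassical ρ φ m μ →
      -- the crossing measure
      ∃ ϖ : Measure (ℍ × S1), Crossing ρ μ ϖ ∧
        (∀ γ ∈ Γ, Measure.map (fun p : ℍ × S1 => (γ • p.1, p.2)) ϖ = ϖ) ∧
        ϖ {p | (p.2 : ℂ) ^ 2 = 1} = 0 ∧ ϖ (D ×ˢ univ) < ⊤ ∧
        (∀ w : ℍ → ℝ, ContDiffOn ℝ ∞ (fun z : ℂ => w (ofComplex z)) {z | 0 < z.im} →
          (∀ γ ∈ Γ, ∀ z, w (γ • z) = w z) →
          -- products of four derivatives
          (∀ (k : Fin 4 → ℕ) (v : ∀ i, Fin (k i) → ℂ),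
            IntegrableOn (fun p : ℍ × S1 => w p.1 * ((crossJ k v (Complex.arg (p.2 : ℂ))
              - crossJ k v 0) / (p.2 : ℂ).im ^ 2)) (D ×ˢ univ) ϖ ∧
            Tendsto (fun n => (∫ p, w p.1 * jetProd k v (fun x => Berry.rWave ρ (φ n) (m n) x p)
                ∂(Berry.rFrameProb ρ D))
              - crossJ k v 0 / 3 * Berry.rAvg ρ D (fun z => w z * φ n z ^ 4)) atTop
              (𝓝 ((Berry.area ρ D).toReal⁻¹ * ∫ p in D ×ˢ univ, w p.1 *
                ((crossJ k v (Complex.arg (p.2 : ℂ)) - crossJ k v 0) / (p.2 : ℂ).im ^ 2) ∂ϖ))) ∧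
          -- values at four points
          (∀ x : Fin 4 → ℂ,
            IntegrableOn (fun p : ℍ × S1 => w p.1 * ((crossP x (Complex.arg (p.2 : ℂ))
              - crossP x 0) / (p.2 : ℂ).im ^ 2)) (D ×ˢ univ) ϖ ∧
            Tendsto (fun n => ((∫ p, w p.1 * (Berry.rWave ρ (φ n) (m n) (x 0) p
                * Berry.rWave ρ (φ n) (m n) (x 1) p * Berry.rWave ρ (φ n) (m n) (x 2) p
                * Berry.rWave ρ (φ n) (m n) (x 3) p) ∂(Berry.rFrameProb ρ D))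
              - crossP x 0 / 3 * Berry.rAvg ρ D (fun z => w z * φ n z ^ 4)
              - (Berry.area ρ D).toReal⁻¹ * ∫ p in D ×ˢ univ, w p.1 *
                ((crossP x (Complex.arg (p.2 : ℂ)) - crossP x 0) / (p.2 : ℂ).im ^ 2) ∂ϖ)
              / (1 + Berry.rAvg ρ D (fun z => φ n z ^ 4))) atTop (𝓝 0)) ∧
          -- the lower bound for the fourth moments
          ((∀ z, 0 ≤ w z) → ENNReal.ofReal (3 / (Berry.area ρ D).toReal) *
              ∫⁻ p in D ×ˢ univ, ENNReal.ofReal (w p.1 / (p.2 : ℂ).im ^ 2) ∂ϖ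
            ≤ liminf (fun n => ENNReal.ofReal (Berry.rAvg ρ D (fun z => w z * φ n z ^ 4)))
              atTop)) ∧
        -- bounded fourth moments
        ((∃ B : ℝ, ∀ n, Berry.rAvg ρ D (fun z => φ n z ^ 4) ≤ B) →
          ∃ s : ProbabilityTheory.Kernel ℍ S1, (∀ z, IsFiniteMeasure (s z)) ∧
            μ = (Berry.area ρ) ⊗ₘ s ∧ ϖ = crossS ρ s ∧
            IntegrableOn (fun z => (s z univ).toReal ^ 2) D (Berry.area ρ) ∧
            ∀ w : ℍ → ℝ, Continuous w → (∀ γ ∈ Γ, ∀ z, w (γ • z) = w z) → ∀ x : Fin 4 → ℂ,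
            Tendsto (fun n => (∫ p, w p.1 * (Berry.rWave ρ (φ n) (m n) (x 0) p
                * Berry.rWave ρ (φ n) (m n) (x 1) p * Berry.rWave ρ (φ n) (m n) (x 2) p
                * Berry.rWave ρ (φ n) (m n) (x 3) p) ∂(Berry.rFrameProb ρ D))
              - (Berry.rAvg ρ D (fun z => w z * dirWick (s z) x)
                + (Berry.rAvg ρ D (fun z => w z * φ n z ^ 4)
                  - 3 * Berry.rAvg ρ D (fun z => w z * (s z univ).toReal ^ 2)) / 3
                  * crossP x 0)) atTop (𝓝 0))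

end

end CRN
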