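import Pool.Agent.CRN.GJT
import Pool.Agent.NFP.All
import Pool.Agent.CRM.Fin

/-!
The final statement of theorem N, second version.
-/

open MeasureTheory Filter Topology Set MatrixGroups UpperHalfPlane
open scoped ContDiff ENNReal ProbabilityTheory

namespace CRN

open QJ NFP CRM

noncomputable section

/-- the mean, over all points `z` and all frames, of `w(z)` times the product of the values of the local
wave at the four points `x i` -/
def ptMean (ρ : ℍ → ℝ) (D : Set ℍ) (φ : ℍ → ℝ) (m : ℝ) (w : ℍ → ℝ) (x : Fin 4 → ℂ) : ℝ :=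
  ∫ p, w p.1 * (Berry.rWave ρ φ m (x 0) p * Berry.rWave ρ φ m (x 1) p * Berry.rWave ρ φ m (x 2) p
    * Berry.rWave ρ φ m (x 3) p) ∂(Berry.rFrameProb ρ D)

/-- the mean, over all points `z` and all frames, of `w(z)` times the product of four derivatives of
the local wave at the origin, of the orders `k i` and in the directions `v i` -/
def jetMean (ρ : ℍ → ℝ) (D : Set ℍ) (φ : ℍ → ℝ) (m : ℝ) (w : ℍ → ℝ) (k : Fin 4 → ℕ)
    (v : ∀ i, Fin (k i) → ℂ) : ℝ :=
  ∫ p, w p.1 * jetProd k v (fun x => Berry.rWave ρ φ m x p) ∂(Berry.rFrameProb ρ D)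

/-- `(J(α) - J(0)) / sin² α` for the angle `α` of the direction `t = e^{iα}` -/
def quot (J : ℝ → ℝ) (t : S1) : ℝ := (J (Complex.arg (t : ℂ)) - J 0) / (t : ℂ).im ^ 2

/-- the crossing integral `A⁻¹ ∫_{D × S¹} w(z) (J(α) - J(0)) / sin² α dϖ(z, e^{iα})`, where `A` is the
area of the surface -/
def crossInt (ρ : ℍ → ℝ) (D : Set ℍ) (ϖ : Measure (ℍ × S1)) (w : ℍ → ℝ) (J : ℝ → ℝ) : ℝ :=
  (Berry.area ρ D).toReal⁻¹ * ∫ p in D ×ˢ univ, w p.1 * quot J p.2 ∂ϖ

/-- smooth functions on the surface -/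
structure Wgt (Γ : Subgroup SL(2, ℝ)) (w : ℍ → ℝ) : Prop where
  smooth : ContDiffOn ℝ ∞ (fun z : ℂ => w (ofComplex z)) {z | 0 < z.im}
  inv : ∀ γ ∈ Γ, ∀ z, w (γ • z) = w z

/-- the final statement -/
def StmtN2 : Prop :=
  ∀ (Γ : Subgroup SL(2, ℝ)) [Countable Γ] (D : Set ℍ) (ρ : ℍ → ℝ) (φ : ℕ → ℍ → ℝ) (m : ℕ → ℝ),
    MeasurableSet D → (∀ z : ℍ, ∃! γ : Γ, γ • z ∈ D) →
    (∃ K : Set ℍ, IsCompact K ∧ ∀ z, ∃ γ ∈ Γ, γ • z ∈ K) →
    ContDiffOn ℝ ∞ (fun w : ℂ => ρ (ofComplex w)) {w | 0 < w.im} →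
    (∀ γ ∈ Γ, ∀ z, ρ (γ • z) = ρ z) → Berry.REigenSeq Γ ρ φ m →
    (∀ n, ContDiffOn ℝ ∞ (fun w : ℂ => φ n (ofComplex w)) {w | 0 < w.im}) →
    (∀ n, Berry.rAvg ρ D (fun z => φ n z ^ 2) = 1) →
    -- (0) semiclassical measures exist along subsequences
    (∃ (s : ℕ → ℕ) (μ : Measure (ℍ × S1)), StrictMono s ∧
      Semiclassical ρ (fun n => φ (s n)) (fun n => m (s n)) μ) ∧
    (∀ μ : Measure (ℍ × S1), Semiclassical ρ φ m μ →
      -- (1) the crossing measure
      ∃ ϖ : Measure (ℍ × S1), Crossing ρ μ ϖ ∧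
        (∀ γ ∈ Γ, Measure.map (fun p : ℍ × S1 => (γ • p.1, p.2)) ϖ = ϖ) ∧
        ϖ {p | (p.2 : ℂ) ^ 2 = 1} = 0 ∧ ϖ (D ×ˢ univ) < ⊤ ∧
        (∀ w : ℍ → ℝ, Wgt Γ w →
          -- (2) products of four derivatives, for all sequences
          (∀ (k : Fin 4 → ℕ) (v : ∀ i, Fin (k i) → ℂ),
            IntegrableOn (fun p : ℍ × S1 => w p.1 * quot (crossJ k v) p.2) (D ×ˢ univ) ϖ ∧
            Tendsto (fun n => jetMean ρ D (φ n) (m n) w k v
              - crossJ k v 0 / 3 * Berry.rAvg ρ D (fun z => w z * φ n z ^ 4)) atTop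
              (𝓝 (crossInt ρ D ϖ w (crossJ k v)))) ∧
          -- (3) values at four points, for all sequences
          (∀ x : Fin 4 → ℂ,
            IntegrableOn (fun p : ℍ × S1 => w p.1 * quot (crossP x) p.2) (D ×ˢ univ) ϖ ∧
            Tendsto (fun n => (ptMean ρ D (φ n) (m n) w x
              - crossP x 0 / 3 * Berry.rAvg ρ D (fun z => w z * φ n z ^ 4)
              - crossInt ρ D ϖ w (crossP x))
              / (1 + Berry.rAvg ρ D (fun z => φ n z ^ 4))) atTop (𝓝 0)) ∧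
          -- (4) the lower bound for the fourth moments
          ((∀ z, 0 ≤ w z) → ENNReal.ofReal (3 / (Berry.area ρ D).toReal) *
              ∫⁻ p in D ×ˢ univ, ENNReal.ofReal (w p.1 / (p.2 : ℂ).im ^ 2) ∂ϖ
            ≤ liminf (fun n => ENNReal.ofReal (Berry.rAvg ρ D (fun z => w z * φ n z ^ 4)))
              atTop)) ∧
        -- (5) semiclassical measures with a square integrable density
        (∀ s : ProbabilityTheory.Kernel ℍ S1, (∀ z, IsFiniteMeasure (s z)) →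
          μ = (Berry.area ρ) ⊗ₘ s →
          (∀ K : Set ℍ, IsCompact K →
            IntegrableOn (fun z => (s z univ).toReal ^ 2) K (Berry.area ρ)) →
          IntegrableOn (fun z => (s z univ).toReal ^ 2) D (Berry.area ρ) ∧ ϖ = crossS ρ s ∧
          ∀ w : ℍ → ℝ, Wgt Γ w →
            (∀ (k : Fin 4 → ℕ) (v : ∀ i, Fin (k i) → ℂ), crossInt ρ D ϖ w (crossJ k v)
              = Berry.rAvg ρ D (fun z => w z
                  * ∫ t, ∫ t', crossJ k v (Complex.arg ((t / t' : S1) : ℂ)) ∂(s z) ∂(s z))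
                - crossJ k v 0 * Berry.rAvg ρ D (fun z => w z * (s z univ).toReal ^ 2)) ∧
            ∀ x : Fin 4 → ℂ, crossInt ρ D ϖ w (crossP x)
              = Berry.rAvg ρ D (fun z => w z * dirWick (s z) x)
                - crossP x 0 * Berry.rAvg ρ D (fun z => w z * (s z univ).toReal ^ 2)) ∧
        -- this is the case if the fourth moments are bounded
        ((∃ B : ℝ, ∀ n, Berry.rAvg ρ D (fun z => φ n z ^ 4) ≤ B) →
          ∃ s : ProbabilityTheory.Kernel ℍ S1, (∀ z, IsFiniteMeasure (s z)) ∧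
            μ = (Berry.area ρ) ⊗ₘ s ∧ ∀ K : Set ℍ, IsCompact K →
              IntegrableOn (fun z => (s z univ).toReal ^ 2) K (Berry.area ρ))) ∧
    -- (6) quantum ergodic sequences
    (QE.QuantumErgodic ρ φ m → ∀ w : ℍ → ℝ, Wgt Γ w →
      (∀ (k : Fin 4 → ℕ) (v : ∀ i, Fin (k i) → ℂ),
        Tendsto (fun n => jetMean ρ D (φ n) (m n) w k v
          - (Berry.rAvg ρ D w * (covar (v 0) (v 1) * covar (v 2) (v 3)
              + covar (v 0) (v 2) * covar (v 1) (v 3) + covar (v 0) (v 3) * covar (v 1) (v 2))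
            + (Berry.rAvg ρ D (fun z => w z * φ n z ^ 4) - 3 * Berry.rAvg ρ D w) / 3
              * crossJ k v 0)) atTop (𝓝 0)) ∧
      (∀ x : Fin 4 → ℂ,
        Tendsto (fun n => (ptMean ρ D (φ n) (m n) w x
          - (Berry.rAvg ρ D w * (Berry.waveK (x 0 - x 1) * Berry.waveK (x 2 - x 3)
              + Berry.waveK (x 0 - x 2) * Berry.waveK (x 1 - x 3)
              + Berry.waveK (x 0 - x 3) * Berry.waveK (x 1 - x 2))
            + (Berry.rAvg ρ D (fun z => w z * φ n z ^ 4) - 3 * Berry.rAvg ρ D w) / 3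
              * (Berry.waveK (x 0 + x 1 - x 2 - x 3) + Berry.waveK (x 0 + x 2 - x 1 - x 3)
                + Berry.waveK (x 0 + x 3 - x 1 - x 2))))
          / (1 + Berry.rAvg ρ D (fun z => φ n z ^ 4))) atTop (𝓝 0)) ∧
      ((∀ z, 0 ≤ w z) → ENNReal.ofReal (3 * Berry.rAvg ρ D w)
        ≤ liminf (fun n => ENNReal.ofReal (Berry.rAvg ρ D (fun z => w z * φ n z ^ 4))) atTop))

end

end CRN
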