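import Pool.Agent.CRN.Final
import Pool.Agent.CRM.AVG
import Pool.Agent.CRM.CRS
import Pool.Agent.CRM.Qp

/-!
Theorem N for semiclassical measures with a square integrable density, and for quantum ergodic
eigenfunctions.
-/

open MeasureTheory Filter Topology Set MatrixGroups UpperHalfPlane
open scoped ContDiff ENNReal ProbabilityTheory

namespace CRN

open QJ NFP CRM

noncomputable section

/-- the crossing measure of a measure with a square integrable density -/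
def StmtL : Prop :=
  ∀ (Γ : Subgroup SL(2, ℝ)) (ρ : ℍ → ℝ), QE.NC.Fac Γ ρ → ∀ (μ ϖ : Measure (ℍ × S1)),
    Crossing ρ μ ϖ → ∀ s : ProbabilityTheory.Kernel ℍ S1, (∀ z, IsFiniteMeasure (s z)) →
    (∀ K : Set ℍ, IsCompact K → IntegrableOn (fun z => (s z univ).toReal ^ 2) K (Berry.area ρ)) →
    μ = (Berry.area ρ) ⊗ₘ s → ϖ = crossS ρ s

/-- the statistics of order four of quantum ergodic eigenfunctions -/
def StmtQ : Prop :=
  ∀ (Γ : Subgroup SL(2, ℝ)) [Countable Γ] (D : Set ℍ) (ρ : ℍ → ℝ) (φ : ℕ → ℍ → ℝ) (m : ℕ → ℝ),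
    MeasurableSet D → (∀ z : ℍ, ∃! γ : Γ, γ • z ∈ D) →
    (∃ K : Set ℍ, IsCompact K ∧ ∀ z, ∃ γ ∈ Γ, γ • z ∈ K) →
    ContDiffOn ℝ ∞ (fun w : ℂ => ρ (ofComplex w)) {w | 0 < w.im} →
    (∀ γ ∈ Γ, ∀ z, ρ (γ • z) = ρ z) → Berry.REigenSeq Γ ρ φ m →
    (∀ n, ContDiffOn ℝ ∞ (fun w : ℂ => φ n (ofComplex w)) {w | 0 < w.im}) →
    (∀ n, Berry.rAvg ρ D (fun z => φ n z ^ 2) = 1) → QE.QuantumErgodic ρ φ m →
    ∀ w : ℍ → ℝ, ContDiffOn ℝ ∞ (fun z : ℂ => w (ofComplex z)) {z | 0 < z.im} →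
      (∀ γ ∈ Γ, ∀ z, w (γ • z) = w z) →
      -- products of four derivatives
      (∀ (k : Fin 4 → ℕ) (v : ∀ i, Fin (k i) → ℂ),
        Tendsto (fun n => (∫ p, w p.1 * jetProd k v (fun x => Berry.rWave ρ (φ n) (m n) x p)
            ∂(Berry.rFrameProb ρ D))
          - (Berry.rAvg ρ D w * (covar (v 0) (v 1) * covar (v 2) (v 3)
              + covar (v 0) (v 2) * covar (v 1) (v 3) + covar (v 0) (v 3) * covar (v 1) (v 2))
            + (Berry.rAvg ρ D (fun z => w z * φ n z ^ 4) - 3 * Berry.rAvg ρ D w) / 3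
              * crossJ k v 0)) atTop (𝓝 0)) ∧
      -- values at four points
      (∀ x : Fin 4 → ℂ,
        Tendsto (fun n => ((∫ p, w p.1 * (Berry.rWave ρ (φ n) (m n) (x 0) p
            * Berry.rWave ρ (φ n) (m n) (x 1) p * Berry.rWave ρ (φ n) (m n) (x 2) p
            * Berry.rWave ρ (φ n) (m n) (x 3) p) ∂(Berry.rFrameProb ρ D))
          - (Berry.rAvg ρ D w * wickK x
            + (Berry.rAvg ρ D (fun z => w z * φ n z ^ 4) - 3 * Berry.rAvg ρ D w) / 3
              * crossP x 0)) / (1 + Berry.rAvg ρ D (fun z => φ n z ^ 4))) atTop (𝓝 0)) ∧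
      -- the lower bound for the fourth moments
      ((∀ z, 0 ≤ w z) → ENNReal.ofReal (3 * Berry.rAvg ρ D w)
        ≤ liminf (fun n => ENNReal.ofReal (Berry.rAvg ρ D (fun z => w z * φ n z ^ 4))) atTop)

theorem stmtL : StmtL := by
  intro Γ ρ hF μ ϖ hϖ s hs hi hμ
  rw [hμ] at hϖ
  exact t_CRS (t_AVG t_CLB) t_CLB t_DNS Γ ρ hF s ϖ hs hi hϖ

/-- quantum ergodic eigenfunctions -/
theorem q_of (hN : StmtN) : StmtQ := by
  intro Γ _ D ρ φ m hDm hD hK hρ hρi hφ hs h1 hq w hw hwi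
  have hF : QE.NC.Fac Γ ρ := ⟨hρ, hρi, hK⟩
  have hsc := t_QES Γ ρ hF φ m hs hq
  obtain ⟨ϖ, hϖ, -, -, -, hall, -⟩ := (hN Γ D ρ φ m hDm hD hK hρ hρi hφ hs h1).2 _ hsc
  have hρc : Continuous ρ := QE.continuous_of_smooth hρ
  have hwc : Continuous w := QE.continuous_of_smooth hw
  have hcs : ϖ = crossS ρ (ProbabilityTheory.Kernel.const ℍ uniS) := by
    refine stmtL Γ ρ hF _ ϖ hϖ (ProbabilityTheory.Kernel.const ℍ uniS) ?_ ?_ rfl
    · intro z
      rw [ProbabilityTheory.Kernel.const_apply]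
      infer_instance
    · intro K hKc
      simp only [ProbabilityTheory.Kernel.const_apply, measure_univ, ENNReal.toReal_one, one_pow]
      exact integrableOn_const (CRS.area_fin hρc hKc).ne
  have geo : Berry.Geo Γ ρ D :=
    (Berry.surf_of_cocompact (GJT.dom hDm hD) hDm hK hρc hρi hφ).geo
  have hA : Berry.area ρ D < ⊤ := lt_top_iff_ne_top.2 (Berry.area_ne_top geo)
  have hA0 : 0 < (Berry.area ρ D).toReal :=
    ENNReal.toReal_pos (Berry.area_ne_zero geo) (Berry.area_ne_top geo)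
  have hb : ∃ B, ∀ z, |w z| ≤ B := Berry.bdd_of_cocompact hwc hwi hK
  obtain ⟨hj, hp, hl⟩ := hall w hw hwi
  rw [hcs] at hj hp hl
  refine ⟨fun k v => ?_, fun x => ?_, fun hw0 => ?_⟩
  · have h2 := (hj k v).2
    rw [qe_int t_QEI hρc hDm hA hwc hb, ← mul_assoc, ← rAvg_eq] at h2
    have h3 := h2.sub (tendsto_const_nhds (x := Berry.rAvg ρ D w * (covar (v 0) (v 1)
      * covar (v 2) (v 3) + covar (v 0) (v 2) * covar (v 1) (v 3)
      + covar (v 0) (v 3) * covar (v 1) (v 2) - crossJ k v 0)))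
    rw [sub_self] at h3
    refine h3.congr fun n => ?_
    ring
  · have h2 := (hp x).2
    rw [qp_int hρc hDm hA hwc hb, ← mul_assoc, ← rAvg_eq] at h2
    refine h2.congr fun n => ?_
    congr 1
    ring
  · have h2 := hl hw0
    rw [ql_int hDm hwc] at h2
    refine le_trans (le_of_eq ?_) h2
    rw [rAvg_eq, ← ofReal_integral_eq_lintegral_ofReal]
    · rw [← ENNReal.ofReal_mul (by positivity)]
      congr 1
      field_simp
    · obtain ⟨B, hB⟩ := hb
      exact Measure.integrableOn_of_bounded hA.ne hwc.aestronglyMeasurable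
        (Eventually.of_forall hB)
    · exact Eventually.of_forall hw0

end

end CRN
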