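import Pool.Agent.CRN.Stmts

/-!
The crossing sums in terms of the spins.
-/

open MeasureTheory Filter Topology Set MatrixGroups
open UpperHalfPlane hiding I
open scoped ContDiff

namespace CRN

open QE QE.NC QJ U3 CRM NFP

noncomputable section

namespace JID

lemma sum_pi4 (S : Fin 4 → Finset ℕ) (F : ℕ → ℕ → ℕ → ℕ → ℂ) :
    ∑ a ∈ Fintype.piFinset S, F (a 0) (a 1) (a 2) (a 3) =
      ∑ x0 ∈ S 0, ∑ x1 ∈ S 1, ∑ x2 ∈ S 2, ∑ x3 ∈ S 3, F x0 x1 x2 x3 := by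
  have h : ∑ x0 ∈ S 0, ∑ x1 ∈ S 1, ∑ x2 ∈ S 2, ∑ x3 ∈ S 3, F x0 x1 x2 x3 =
      ∑ x ∈ S 0 ×ˢ (S 1 ×ˢ (S 2 ×ˢ S 3)), F x.1 x.2.1 x.2.2.1 x.2.2.2 := by
    simp only [Finset.sum_product]
  rw [h]
  refine Finset.sum_nbij' (fun a => (a 0, a 1, a 2, a 3))
    (fun x => ![x.1, x.2.1, x.2.2.1, x.2.2.2]) ?_ ?_ ?_ ?_ ?_
  · intro a ha
    rw [Fintype.mem_piFinset] at ha
    simp only [Finset.mem_product]
    exact ⟨ha 0, ha 1, ha 2, ha 3⟩
  · intro x hx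
    simp only [Finset.mem_product] at hx
    rw [Fintype.mem_piFinset]
    intro i
    fin_cases i
    · exact hx.1
    · exact hx.2.1
    · exact hx.2.2.1
    · exact hx.2.2.2
  · intro a _
    funext i
    fin_cases i <;> rfl
  · intro x _
    rfl
  · intro a _
    rfl

lemma mul4 (A B C D : Finset ℕ) (f g : ℕ → ℕ → ℂ) :
    (∑ x ∈ A, ∑ y ∈ B, f x y) * (∑ z ∈ C, ∑ w ∈ D, g z w) =
      ∑ x ∈ A, ∑ y ∈ B, ∑ z ∈ C, ∑ w ∈ D, f x y * g z w := by
  rw [Finset.sum_mul]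
  refine Finset.sum_congr rfl fun x _ => ?_
  rw [Finset.sum_mul]
  refine Finset.sum_congr rfl fun y _ => ?_
  rw [Finset.mul_sum]
  refine Finset.sum_congr rfl fun z _ => ?_
  rw [Finset.mul_sum]

lemma pair01 (S : Fin 4 → Finset ℕ) (f g : ℕ → ℕ → ℂ) :
    (∑ x ∈ S 0, ∑ y ∈ S 1, f x y) * (∑ z ∈ S 2, ∑ w ∈ S 3, g z w) =
      ∑ a ∈ Fintype.piFinset S, f (a 0) (a 1) * g (a 2) (a 3) := by
  rw [mul4, sum_pi4 S (fun x0 x1 x2 x3 => f x0 x1 * g x2 x3)]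

lemma pair02 (S : Fin 4 → Finset ℕ) (f g : ℕ → ℕ → ℂ) :
    (∑ x ∈ S 0, ∑ y ∈ S 2, f x y) * (∑ z ∈ S 1, ∑ w ∈ S 3, g z w) =
      ∑ a ∈ Fintype.piFinset S, f (a 0) (a 2) * g (a 1) (a 3) := by
  rw [mul4, sum_pi4 S (fun x0 x1 x2 x3 => f x0 x2 * g x1 x3)]
  refine Finset.sum_congr rfl fun x _ => ?_
  rw [Finset.sum_comm]

lemma pair03 (S : Fin 4 → Finset ℕ) (f g : ℕ → ℕ → ℂ) :
    (∑ x ∈ S 0, ∑ y ∈ S 3, f x y) * (∑ z ∈ S 1, ∑ w ∈ S 2, g z w) =
      ∑ a ∈ Fintype.piFinset S, f (a 0) (a 3) * g (a 1) (a 2) := by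
  rw [mul4, sum_pi4 S (fun x0 x1 x2 x3 => f x0 x3 * g x1 x2)]
  refine Finset.sum_congr rfl fun x _ => ?_
  rw [Finset.sum_comm]
  refine Finset.sum_congr rfl fun z _ => ?_
  rw [Finset.sum_comm]

/-- the phase -/
def pp (s t : ℤ) : ℂ := if (s + t) % 2 = 0 then Complex.I ^ (s - t) else 0

/-- one factor -/
def fac (k : ℕ) (v : Fin k → ℂ) (a : ℕ) : ℂ := QJ.sc v a * cW a (k - a)

/-- the spin -/
def sn (k a : ℕ) : ℤ := (a : ℤ) - (k - a : ℕ)

/-- one term of the covariance -/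
def term (θ : ℝ) (k l : ℕ) (v : Fin k → ℂ) (w : Fin l → ℂ) (a b : ℕ) : ℂ :=
  fac k v a * fac l w b * (pp (sn k a) (sn l b) * uu θ ^ (sn k a + sn l b))

lemma pcov_eq (hPcv : StmtPcv) (θ : ℝ) (k l : ℕ) (v : Fin k → ℂ) (w : Fin l → ℂ) :
    ((pcov θ v w : ℝ) : ℂ) =
      ∑ a ∈ Finset.range (k + 1), ∑ b ∈ Finset.range (l + 1), term θ k l v w a b := by
  rw [hPcv θ k l v w]
  rfl

lemma uu_add (θ α : ℝ) : uu (θ + α) = uu θ * uu α := by
  unfold uu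
  rw [← Complex.exp_add]
  congr 1
  push_cast
  ring

lemma ck_eq (α : ℝ) (m : ℤ) :
    (uu α ^ m + uu (-α) ^ m) / 2 = ((ck m (Complex.exp (α * Complex.I)) : ℝ) : ℂ) := by
  have h1 : Complex.exp (α * Complex.I) ^ m = uu (-α) ^ m := by
    unfold uu
    congr 2
    push_cast
    ring
  have h2 : (starRingEnd ℂ) (uu (-α) ^ m) = uu α ^ m := by
    rw [map_zpow₀]
    congr 1
    unfold uu
    rw [← Complex.exp_conj]
    congr 1
    simp
  unfold CRM.ck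
  rw [h1, Complex.re_eq_add_conj, h2]
  ring

lemma ck_neg (α : ℝ) (m : ℤ) :
    ck (-m) (Complex.exp (α * Complex.I)) = ck m (Complex.exp (α * Complex.I)) := by
  have h1 := ck_eq α m
  have h2 := ck_eq α (-m)
  have h3 : ∀ n : ℤ, uu α ^ (-n) = uu (-α) ^ n := by
    intro n
    rw [zpow_neg, ← inv_zpow]
    congr 1
    unfold uu
    rw [← Complex.exp_neg]
    congr 1
    push_cast
    ring
  have h4 : ∀ n : ℤ, uu (-α) ^ (-n) = uu α ^ n := by
    intro n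
    have := h3 (-n)
    rw [neg_neg] at this
    exact this.symm
  rw [h3, h4, add_comm, h1] at h2
  exact_mod_cast h2.symm

lemma I_pow (n : ℤ) : Complex.I ^ (-2 * n) = (-1) ^ n := by
  rw [zpow_mul]
  congr 1
  rw [zpow_neg]
  norm_num

lemma pp_mul (s t p q : ℤ) (h : s + t + p + q = 0) :
    pp s t * pp p q = if (s + t) % 2 = 0 then (-1) ^ (t + q) else 0 := by
  unfold pp
  by_cases h1 : (s + t) % 2 = 0
  · have h2 : (p + q) % 2 = 0 := by omega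
    rw [if_pos h1, if_pos h2, if_pos h1, ← zpow_add₀ Complex.I_ne_zero, ← I_pow]
    congr 1
    omega
  · rw [if_neg h1, if_neg h1, zero_mul]

/-- the bracket -/
def br (α : ℝ) (a b c d : ℤ) : ℂ :=
  pp a b * pp c d * ((uu α ^ (c + d) + uu (-α) ^ (c + d)) / 2) +
    pp a c * pp b d * ((uu α ^ (b + d) + uu (-α) ^ (b + d)) / 2) +
    pp a d * pp b c * ((uu α ^ (b + c) + uu (-α) ^ (b + c)) / 2)

lemma br_eq (α : ℝ) (a b c d : ℤ) (h : a + b + c + d = 0) :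
    br α a b c d = wt (Complex.exp (α * Complex.I)) a b c d := by
  have e1 : ck (c + d) (Complex.exp (α * Complex.I)) = ck (a + b) (Complex.exp (α * Complex.I)) := by
    rw [show c + d = -(a + b) by omega, ck_neg]
  have e2 : ck (b + d) (Complex.exp (α * Complex.I)) = ck (a + c) (Complex.exp (α * Complex.I)) := by
    rw [show b + d = -(a + c) by omega, ck_neg]
  have e3 : ck (b + c) (Complex.exp (α * Complex.I)) = ck (a + d) (Complex.exp (α * Complex.I)) := by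
    rw [show b + c = -(a + d) by omega, ck_neg]
  unfold br wt
  rw [pp_mul a b c d h, pp_mul a c b d (by omega), pp_mul a d b c (by omega), ck_eq, ck_eq, ck_eq,
    e1, e2, e3, add_comm d c]
  simp only [ite_mul, zero_mul]

/-- the terms of the expansion of the Wick sum -/
def TT (θ θ' : ℝ) (k : Fin 4 → ℕ) (a : Fin 4 → ℕ) : ℂ :=
  pp (sn (k 0) (a 0)) (sn (k 1) (a 1)) * uu θ ^ (sn (k 0) (a 0) + sn (k 1) (a 1)) *
      (pp (sn (k 2) (a 2)) (sn (k 3) (a 3)) * uu θ' ^ (sn (k 2) (a 2) + sn (k 3) (a 3))) +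
    pp (sn (k 0) (a 0)) (sn (k 2) (a 2)) * uu θ ^ (sn (k 0) (a 0) + sn (k 2) (a 2)) *
      (pp (sn (k 1) (a 1)) (sn (k 3) (a 3)) * uu θ' ^ (sn (k 1) (a 1) + sn (k 3) (a 3))) +
    pp (sn (k 0) (a 0)) (sn (k 3) (a 3)) * uu θ ^ (sn (k 0) (a 0) + sn (k 3) (a 3)) *
      (pp (sn (k 1) (a 1)) (sn (k 2) (a 2)) * uu θ' ^ (sn (k 1) (a 1) + sn (k 2) (a 2)))

lemma pwick_eq (hPcv : StmtPcv) (θ θ' : ℝ) (k : Fin 4 → ℕ) (v : ∀ i, Fin (k i) → ℂ) :
    ((pwick θ θ' k v : ℝ) : ℂ) = ∑ a ∈ Fintype.piFinset fun i => Finset.range (k i + 1),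
      (∏ i, fac (k i) (v i) (a i)) * TT θ θ' k a := by
  unfold pwick
  push_cast
  rw [pcov_eq hPcv, pcov_eq hPcv, pcov_eq hPcv, pcov_eq hPcv, pcov_eq hPcv, pcov_eq hPcv]
  rw [pair01 (fun i => Finset.range (k i + 1)) (term θ (k 0) (k 1) (v 0) (v 1))
      (term θ' (k 2) (k 3) (v 2) (v 3)),
    pair02 (fun i => Finset.range (k i + 1)) (term θ (k 0) (k 2) (v 0) (v 2))
      (term θ' (k 1) (k 3) (v 1) (v 3)),
    pair03 (fun i => Finset.range (k i + 1)) (term θ (k 0) (k 3) (v 0) (v 3))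
      (term θ' (k 1) (k 2) (v 1) (v 2)), ← Finset.sum_add_distrib, ← Finset.sum_add_distrib]
  refine Finset.sum_congr rfl fun a _ => ?_
  unfold term TT
  rw [Fin.prod_univ_four]
  ring

lemma TT_mean (θ α : ℝ) (k a : Fin 4 → ℕ) :
    (TT θ (θ + α) k a + TT θ (θ - α) k a) / 2 =
      br α (sn (k 0) (a 0)) (sn (k 1) (a 1)) (sn (k 2) (a 2)) (sn (k 3) (a 3)) *
        uu θ ^ (sn (k 0) (a 0) + sn (k 1) (a 1) + sn (k 2) (a 2) + sn (k 3) (a 3)) := by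
  unfold TT br
  generalize sn (k 0) (a 0) = p
  generalize sn (k 1) (a 1) = q
  generalize sn (k 2) (a 2) = r
  generalize sn (k 3) (a 3) = s
  have h1 : θ - α = θ + (-α) := by ring
  have hu := uu_ne θ
  rw [h1, uu_add θ α, uu_add θ (-α)]
  simp only [mul_zpow, zpow_add₀ hu]
  ring

/-- the crossing sums in terms of the spins -/
theorem main (hPcv : StmtPcv) (k : Fin 4 → ℕ) (v : ∀ i, Fin (k i) → ℂ) (α : ℝ) :
    ((crossJ k v α : ℝ) : ℂ) = sumJ k v (wt (Complex.exp (α * Complex.I))) := by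
  unfold crossJ
  rw [← integral_complex_ofReal]
  have h1 : ∀ θ : ℝ, (((pwick θ (θ + α) k v + pwick θ (θ - α) k v) / 2 : ℝ) : ℂ) =
      ∑ a ∈ Fintype.piFinset fun i => Finset.range (k i + 1),
        (∏ i, fac (k i) (v i) (a i)) *
          (br α (sn (k 0) (a 0)) (sn (k 1) (a 1)) (sn (k 2) (a 2)) (sn (k 3) (a 3)) *
        uu θ ^ (sn (k 0) (a 0) + sn (k 1) (a 1) + sn (k 2) (a 2) + sn (k 3) (a 3))) := by
    intro θ
    push_cast
    rw [pwick_eq hPcv, pwick_eq hPcv, ← Finset.sum_add_distrib, Finset.sum_div]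
    refine Finset.sum_congr rfl fun a _ => ?_
    rw [← TT_mean]
    ring
  simp only [h1]
  rw [integral_finsetSum]
  · unfold sumJ
    refine Finset.sum_congr rfl fun a _ => ?_
    rw [integral_const_mul, integral_const_mul, QJ.PWL.angle_zpow]
    have h2 : ∑ i, sp k a i =
        sn (k 0) (a 0) + sn (k 1) (a 1) + sn (k 2) (a 2) + sn (k 3) (a 3) := by
      rw [Fin.sum_univ_four]
      rfl
    rw [h2]
    by_cases h3 : sn (k 0) (a 0) + sn (k 1) (a 1) + sn (k 2) (a 2) + sn (k 3) (a 3) = 0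
    · rw [if_pos h3, if_pos h3, mul_one, br_eq α _ _ _ _ h3]
      rfl
    · rw [if_neg h3, if_neg h3, mul_zero, mul_zero]
  · intro a _
    refine QJ.PWL.integrable_angle ?_
    exact continuous_const.mul (continuous_const.mul (continuous_uu_zpow _))

end JID

theorem t_JID (hPcv : StmtPcv) : StmtJid := fun k v α => JID.main hPcv k v α

end

end CRN
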