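import Pool.Agent.CRN.LWF

/-!
LGF: the local theorem for four derivatives of the local waves.
-/

open Complex MeasureTheory Filter Topology Set
open UpperHalfPlane hiding I
open scoped ContDiff

namespace CRN

open QE QE.NC QJ U3 CRM NFP

noncomputable section

namespace LGF

/-- continuity of `lk (gk · t)` in `t` -/
lemma cont_gk (j : ℤ) : Continuous (gk j) := by
  unfold gk
  exact (continuous_finsetSum _ fun i _ => continuous_id.pow _).norm.pow 2 |>.const_mul 2 |>.congr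
    fun t => rfl

lemma cont_lk (a b c d : ℤ) : Continuous fun t : ℂ => lk (fun j => (gk j t : ℂ)) a b c d := by
  have h : ∀ j, Continuous fun t : ℂ => (gk j t : ℂ) := fun j =>
    Complex.continuous_ofReal.comp (cont_gk j)
  unfold lk
  split_ifs
  · exact (((h _).add (h _)).add (h _)).neg
  · exact h _
  · exact h _
  · exact h _

/-- functions `ψ(z) G(t)`, with `ψ` continuous of compact support in the upper half plane, are
integrable -/
lemma integrable_fac {ϖ : Measure (ℍ × S1)} (hfin : ∀ K : Set ℍ, IsCompact K → ϖ (K ×ˢ Set.univ) < ⊤)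
    {f : ℍ → ℂ} (hf : Continuous f) (hfc : HasCompactSupport f) {G : ℂ → ℂ} (hG : Continuous G) :
    Integrable (fun p : ℍ × S1 => f p.1 * G p.2) ϖ := by
  have hc : Continuous fun p : ℍ × S1 => f p.1 * G p.2 :=
    (hf.comp continuous_fst).mul (hG.comp (continuous_subtype_val.comp continuous_snd))
  obtain ⟨C, hC⟩ := hfc.exists_bound_of_continuous hf
  obtain ⟨C', hC'⟩ := (isCompact_sphere (0 : ℂ) 1).exists_bound_of_continuousOn hG.continuousOn
  have hK : IsCompact (tsupport f) := hfc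
  have hm : MeasurableSet (tsupport f ×ˢ (Set.univ : Set S1)) :=
    (isClosed_tsupport f).measurableSet.prod MeasurableSet.univ
  have h1 : IntegrableOn (fun p : ℍ × S1 => f p.1 * G p.2) (tsupport f ×ˢ Set.univ) ϖ := by
    refine IntegrableOn.of_bound (hfin _ hK) hc.aestronglyMeasurable (C * C')
      (Eventually.of_forall fun p => ?_)
    rw [norm_mul]
    exact mul_le_mul (hC _) (hC' _ p.2.2) (norm_nonneg _) ((norm_nonneg _).trans (hC p.1))
  refine (integrableOn_iff_integrable_of_support_subset ?_).1 h1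
  intro p hp
  refine ⟨?_, mem_univ _⟩
  by_contra hcon
  apply hp
  simp only [image_eq_zero_of_notMem_tsupport hcon, zero_mul]

lemma hh_compact {ψ : ℂ → ℝ} (hψc : HasCompactSupport ψ) (hψs : tsupport ψ ⊆ {w | 0 < w.im}) :
    IsCompact (UpperHalfPlane.coe ⁻¹' tsupport ψ) := by
  rw [isOpenEmbedding_coe.isInducing.isCompact_preimage_iff]
  · exact hψc
  · rw [range_coe]; exact hψs

lemma cont_gr {ρ : ℍ → ℝ} (hρ : ContDiffOn ℝ ∞ (fun w : ℂ => ρ (ofComplex w)) {w | 0 < w.im}) :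
    Continuous fun z : ℍ => gr ρ z :=
  (LWF.gr_smooth hρ).continuousOn.comp_continuous continuous_coe fun z => z.im_pos

lemma gr_ne (ρ : ℍ → ℝ) (z : ℍ) : gr ρ z ≠ 0 := (LWF.gr_pos' ρ z z.im_pos).ne'

/-- the coefficient function of the test function -/
lemma fac {ρ : ℍ → ℝ} (hρ : ContDiffOn ℝ ∞ (fun w : ℂ => ρ (ofComplex w)) {w | 0 < w.im})
    {ψ : ℂ → ℝ} (hψ : Continuous ψ) (hψc : HasCompactSupport ψ)
    (hψs : tsupport ψ ⊆ {w | 0 < w.im}) :
    Continuous (fun z : ℍ => (ψ z : ℂ) * (((gr ρ z)⁻¹ : ℝ) : ℂ)) ∧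
      HasCompactSupport (fun z : ℍ => (ψ z : ℂ) * (((gr ρ z)⁻¹ : ℝ) : ℂ)) := by
  refine ⟨?_, ?_⟩
  · refine (Complex.continuous_ofReal.comp (hψ.comp continuous_coe)).mul
      (Complex.continuous_ofReal.comp ((cont_gr hρ).inv₀ (gr_ne ρ)))
  · refine HasCompactSupport.intro (hh_compact hψc hψs) fun z hz => ?_
    have : ψ z = 0 := image_eq_zero_of_notMem_tsupport hz
    rw [this, Complex.ofReal_zero, zero_mul]

end LGF

open LGF in
/-- LGF: the local theorem for four derivatives of the local waves -/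
theorem t_LGF (hQuo : StmtQuo) : StmtLgF := by
  classical
  intro ρ φ m ϖ hρ hm hs H hL ψ hψ hψc hψs k v
  have hT := LOCG.test_ofReal hψ hψc hψs
  have h1 := mainU ρ φ m hρ hm hs H 4 k v le_rfl ψ hψ hψc hψs
  obtain ⟨-, hQ⟩ := hQuo
  obtain ⟨-, -, hcl⟩ := hQ k v
  set Fc : ℂ := ∫ p : ℍ × S1, (ψ p.1 : ℂ) * (((gr ρ p.1)⁻¹ : ℝ) : ℂ) * quoJ k v p.2 ∂ϖ with hFc
  set G := (fun z : ℂ => Real.exp (2 * ρ (ofComplex z)) / z.im ^ 2) with hG
  have hgr : G = gr ρ := rfl
  -- the sum of the local theorems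
  have h2 : Tendsto (fun n => ∑ a ∈ Fintype.piFinset fun i => Finset.range (k i + 1),
      if ∑ i, ((a i : ℤ) - (k i - a i : ℕ)) = 0 then (∏ i, QJ.sc (v i) (a i)) *
        ((∫ z, (ψ z : ℂ) * ∏ i, Wg G (fun n => 1 / m n)
            (fun n z => (φ n (ofComplex z) : ℂ)) (a i) (k i - a i) n z)
          - (∏ i, cW (a i) (k i - a i)) * cl4 ((a 0 : ℤ) - (k 0 - a 0 : ℕ))
            ((a 1 : ℤ) - (k 1 - a 1 : ℕ)) ((a 2 : ℤ) - (k 2 - a 2 : ℕ))
            ((a 3 : ℤ) - (k 3 - a 3 : ℕ)) * ∫ z, (ψ z : ℂ) * (φ n (ofComplex z) : ℂ) ^ 4)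
      else 0) atTop (𝓝 (∑ a ∈ Fintype.piFinset fun i => Finset.range (k i + 1),
      if ∑ i, ((a i : ℤ) - (k i - a i : ℕ)) = 0 then (∏ i, QJ.sc (v i) (a i)) *
        ((∏ i, cW (a i) (k i - a i)) * ∫ p : ℍ × S1, (ψ p.1 : ℂ) * (((gr ρ p.1)⁻¹ : ℝ) : ℂ)
        * lk (fun j => (gk j p.2 : ℂ)) ((a 0 : ℤ) - (k 0 - a 0 : ℕ))
            ((a 1 : ℤ) - (k 1 - a 1 : ℕ)) ((a 2 : ℤ) - (k 2 - a 2 : ℕ))
            ((a 3 : ℤ) - (k 3 - a 3 : ℕ)) ∂ϖ) else 0)) := by
    refine tendsto_finsetSum _ fun a _ => ?_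
    by_cases ha : ∑ i, ((a i : ℤ) - (k i - a i : ℕ)) = 0
    · simp only [ha, if_true]
      exact (t_LWF ρ _ _ ϖ hρ H hL _ hT a (fun i => k i - a i) ha).const_mul _
    · simp only [ha, if_false]
      exact tendsto_const_nhds
  -- the limit
  have hint := fac hρ hψ.continuous hψc hψs
  have hlim : (∑ a ∈ Fintype.piFinset fun i => Finset.range (k i + 1),
      if ∑ i, ((a i : ℤ) - (k i - a i : ℕ)) = 0 then (∏ i, QJ.sc (v i) (a i)) *
        ((∏ i, cW (a i) (k i - a i)) * ∫ p : ℍ × S1, (ψ p.1 : ℂ) * (((gr ρ p.1)⁻¹ : ℝ) : ℂ)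
        * lk (fun j => (gk j p.2 : ℂ)) ((a 0 : ℤ) - (k 0 - a 0 : ℕ))
            ((a 1 : ℤ) - (k 1 - a 1 : ℕ)) ((a 2 : ℤ) - (k 2 - a 2 : ℕ))
            ((a 3 : ℤ) - (k 3 - a 3 : ℕ)) ∂ϖ) else 0) = Fc := by
    rw [hFc]
    unfold quoJ sumJ
    simp only [Finset.mul_sum]
    rw [integral_finsetSum]
    · refine Finset.sum_congr rfl fun a _ => ?_
      unfold sp
      by_cases ha : ∑ i, ((a i : ℤ) - (k i - a i : ℕ)) = 0
      · simp only [ha, if_true]
        rw [← mul_assoc, ← Finset.prod_mul_distrib, ← integral_const_mul]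
        refine integral_congr_ae (Eventually.of_forall fun p => ?_)
        beta_reduce
        ring
      · simp only [ha, if_false, mul_zero, integral_zero]
    · intro a _
      refine integrable_fac hL.fin hint.1 hint.2 (G := fun t => if ∑ i, sp k a i = 0 then
        (∏ i, QJ.sc (v i) (a i) * cW (a i) (k i - a i)) * lk (fun j => (gk j t : ℂ))
          (sp k a 0) (sp k a 1) (sp k a 2) (sp k a 3) else 0) ?_
      by_cases ha : ∑ i, sp k a i = 0
      · simp only [ha, if_true]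
        exact continuous_const.mul (cont_lk _ _ _ _)
      · simp only [ha, if_false]
        exact continuous_const
  rw [hlim] at h2
  -- the left side
  have hmass : ∀ n, ∫ z, (ψ z : ℂ) * (φ n (ofComplex z) : ℂ) ^ 4
      = ((∫ z, ψ z * φ n (ofComplex z) ^ 4 : ℝ) : ℂ) := by
    intro n
    refine (integral_congr_ae (Eventually.of_forall fun z => ?_)).trans integral_ofReal
    simp
  have h3 := h1.add h2
  rw [zero_add] at h3
  have h4 : Tendsto (fun n => (((∫ z, ψ z * angJet ρ (φ n) (m n) k v (ofComplex z))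
        - crossJ k v 0 / 3 * ∫ z, ψ z * φ n (ofComplex z) ^ 4 : ℝ) : ℂ)) atTop (𝓝 Fc) := by
    refine h3.congr fun n => ?_
    rw [Complex.ofReal_sub, Complex.ofReal_mul, ← hcl, ← hmass n]
    unfold sumJ sp
    rw [Finset.sum_mul, sub_add, ← Finset.sum_sub_distrib]
    congr 1
    refine Finset.sum_congr rfl fun a _ => ?_
    by_cases ha : ∑ i, ((a i : ℤ) - (k i - a i : ℕ)) = 0
    · simp only [ha, if_true]
      rw [Finset.prod_mul_distrib]
      ring
    · simp only [ha, if_false, sub_zero, zero_mul]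
  have h5 := (Complex.continuous_re.tendsto _).comp h4
  have hre : Fc.re = ∫ p : ℍ × S1, ψ p.1 * (gr ρ p.1)⁻¹ * (quoJ k v p.2).re ∂ϖ := by
    have hcq : Continuous (quoJ k v) := by
      unfold quoJ sumJ
      refine continuous_finsetSum _ fun a _ => ?_
      by_cases ha : ∑ i, sp k a i = 0
      · simp only [ha, if_true]
        exact continuous_const.mul (cont_lk _ _ _ _)
      · simp only [ha, if_false]
        exact continuous_const
    have hi := integrable_fac hL.fin hint.1 hint.2 hcq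
    rw [hFc]
    change RCLike.re (∫ p : ℍ × S1, (ψ p.1 : ℂ) * (((gr ρ p.1)⁻¹ : ℝ) : ℂ) * quoJ k v p.2 ∂ϖ) = _
    rw [← integral_re hi]
    refine integral_congr_ae (Eventually.of_forall fun p => ?_)
    change ((ψ p.1 : ℂ) * (((gr ρ p.1)⁻¹ : ℝ) : ℂ) * quoJ k v p.2).re = _
    rw [← Complex.ofReal_mul, Complex.re_ofReal_mul]
  rw [hre] at h5
  exact h5.congr fun n => rfl

end

end CRN
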