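import Pool.Agent.CRN.Stmts
import Pool.Agent.BWM.C41

/-!
LWF: the local theorem for four mixed derivatives.
-/

open Complex MeasureTheory Filter Topology Set
open UpperHalfPlane hiding I
open scoped ContDiff

namespace CRN

open QE QE.NC QJ U3 CRM NFP

noncomputable section

namespace LWF

lemma gr_smooth {ρ : ℍ → ℝ} (hρ : ContDiffOn ℝ ∞ (fun w : ℂ => ρ (ofComplex w)) {w | 0 < w.im}) :
    ContDiffOn ℝ ∞ (gr ρ) {z | 0 < z.im} := by
  unfold gr
  apply ContDiffOn.div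
  · exact Real.contDiff_exp.comp_contDiffOn (contDiffOn_const.mul hρ)
  · exact (Complex.imCLM.contDiff.pow 2).contDiffOn
  · intro z hz
    have hz' : 0 < z.im := hz
    positivity

lemma gr_pos' (ρ : ℍ → ℝ) : ∀ z ∈ {z : ℂ | 0 < z.im}, 0 < gr ρ z := by
  intro z hz
  have hz' : 0 < z.im := hz
  unfold gr
  positivity

end LWF

open LWF in
/-- LWF: the local theorem for four mixed derivatives -/
theorem t_LWF : StmtLwF := by
  intro ρ h φ ϖ hρ H hL ζ hζ a b hab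
  have hU : IsOpen UH := isOpen_lt continuous_const Complex.continuous_im
  obtain ⟨V, F, σ, ψ, hKV, -, -, -, hA⟩ := stmtLcz UH (gr ρ) h φ hU (gr_smooth hρ) (gr_pos' ρ) H
    (tsupport ζ) hζ.supp hζ.sub
  have L := hA.loc
  have hζV : Test V ζ := ⟨hζ.smooth, hζ.supp, hKV⟩
  have hG := groA V σ h ψ L
  have hS := sml V σ h ψ L
  have hgV : ∀ z ∈ V, gr ρ z = Real.exp (σ z) ^ 2 := by
    intro z hz
    rw [← hA.eg z hz, ← Real.exp_nat_mul]
    norm_num
  have k1 := LWU.main stmtIntA stmtJetC jetW L hG hS hA.eφ hgV hζV (r := 4) le_rfl a b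
  have hs : ((a 0 : ℤ) - b 0) + ((a 1 : ℤ) - b 1) + ((a 2 : ℤ) - b 2) + ((a 3 : ℤ) - b 3) = 0 := by
    rw [← hab, Fin.sum_univ_four]
  have k2 := hL.lim V σ ψ hA ζ hζV _ _ _ _ hs
  have k3 := k1.add (k2.const_mul (∏ i, cW (a i) (b i)))
  rw [zero_add] at k3
  refine k3.congr fun n => ?_
  have e1 : E4 σ h ψ ζ 0 0 0 0 n = ∫ z, ζ z * φ n z ^ 4 := by
    unfold E4
    refine LW.int_congr hζV fun z hz => ?_
    have e3 : E σ h ψ 0 n z = ψ n z := rfl
    rw [e3, hA.eφ n z hz]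
    ring
  have e4 : E4 σ h ψ ζ ((a 0 : ℤ) - b 0) ((a 1 : ℤ) - b 1) ((a 2 : ℤ) - b 2) ((a 3 : ℤ) - b 3) n =
      ∫ z, ζ z * ∏ i, E σ h ψ ((a i : ℤ) - b i) n z := by
    unfold E4
    simp only [Fin.prod_univ_four]
  rw [e1, e4]
  ring

end

end CRN
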