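import Pool.Agent.CRN.GJT
import Pool.Agent.NFP.All

/-!
PTS: the values at four points, for all sequences.
-/

open MeasureTheory Filter Topology Set MatrixGroups
open UpperHalfPlane hiding I
open scoped ContDiff ENNReal ProbabilityTheory

namespace CRN

open QE QE.NC QJ U3 CRM NFP

noncomputable section

/-- CSI: the crossing integral of a measure with a density -/
def StmtCsi : Prop :=
  ∀ (ρ : ℍ → ℝ) (D : Set ℍ) (s : ProbabilityTheory.Kernel ℍ S1) (w : ℍ → ℝ) (B : ℝ)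
    (x : Fin 4 → ℂ), Continuous ρ → (∀ z, IsFiniteMeasure (s z)) → MeasurableSet D →
    IntegrableOn (fun z => (s z univ).toReal ^ 2) D (Berry.area ρ) → Continuous w →
    (∀ z, |w z| ≤ B) →
    ∫ p in D ×ˢ univ, w p.1 * ((crossP x (Complex.arg (p.2 : ℂ)) - resK x) / (p.2 : ℂ).im ^ 2)
        ∂(crossS ρ s)
      = ∫ z in D, w z * dirWick (s z) x ∂(Berry.area ρ)
        - resK x * ∫ z in D, w z * (s z univ).toReal ^ 2 ∂(Berry.area ρ)

namespace PTS

/-- the integrability of the quotient -/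
lemma intg {Γ : Subgroup SL(2, ℝ)} {D : Set ℍ} {ρ : ℍ → ℝ} {φ : ℕ → ℍ → ℝ} {m : ℕ → ℝ}
    {ϖ : Measure (ℍ × S1)} (T : Dta Γ D ρ φ m) (hfin : ϖ (D ×ˢ univ) < ⊤)
    {w : ℍ → ℝ} (hwc : Continuous w) (hwi : ∀ γ ∈ Γ, ∀ z, w (γ • z) = w z) (x : Fin 4 → ℂ) :
    IntegrableOn (fun p : ℍ × S1 => w p.1 * ((crossP x (Complex.arg (p.2 : ℂ))
      - crossP x 0) / (p.2 : ℂ).im ^ 2)) (D ×ˢ univ) ϖ := by
  obtain ⟨B, hB⟩ := Berry.bdd_of_cocompact hwc hwi T.fac.cpt
  obtain ⟨C, hC0, hC⟩ := crossP_bd x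
  have hB0 : 0 ≤ B := (abs_nonneg _).trans (hB UpperHalfPlane.I)
  have : IsFiniteMeasure (ϖ.restrict (D ×ˢ univ)) := ⟨by
    rwa [Measure.restrict_apply_univ]⟩
  have hm : Measurable fun p : ℍ × S1 => w p.1 * ((crossP x (Complex.arg (p.2 : ℂ))
      - crossP x 0) / (p.2 : ℂ).im ^ 2) := by
    have h1 : (fun p : ℍ × S1 => crossP x (Complex.arg (p.2 : ℂ)))
        = fun p : ℍ × S1 => CRP.cP x (p.2 : ℂ) := by
      funext p
      exact CRP.crossP_arg x _
    have h2 : Measurable fun p : ℍ × S1 => crossP x (Complex.arg (p.2 : ℂ)) := by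
      rw [h1]
      exact (CRP.continuous_cP x).measurable.comp (measurable_subtype_coe.comp measurable_snd)
    exact (hwc.measurable.comp measurable_fst).mul ((h2.sub_const _).div
      ((Complex.measurable_im.comp (measurable_subtype_coe.comp measurable_snd)).pow_const 2))
  refine Integrable.of_bound hm.aestronglyMeasurable (B * C) (Eventually.of_forall fun p => ?_)
  rw [Real.norm_eq_abs, abs_mul]
  refine mul_le_mul (hB _) ?_ (abs_nonneg _) hB0
  have h3 : Real.sin (Complex.arg (p.2 : ℂ)) = (p.2 : ℂ).im := by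
    have h4 := congrArg Complex.im (GJT.exp_arg p.2)
    rwa [Complex.exp_ofReal_mul_I_im] at h4
  have h5 := hC (Complex.arg (p.2 : ℂ))
  rw [← CRP.crossP_zero, h3] at h5
  rw [abs_div, abs_of_nonneg (sq_nonneg (p.2 : ℂ).im)]
  rcases eq_or_lt_of_le (sq_nonneg (p.2 : ℂ).im) with h0 | h0
  · rw [← h0, div_zero]
    exact hC0
  · rw [div_le_iff₀ h0]
    exact h5

end PTS

open PTS in
/-- the values at four points -/
theorem pts (hCsi : StmtCsi) {Γ : Subgroup SL(2, ℝ)} [Countable Γ] {D : Set ℍ} {ρ : ℍ → ℝ}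
    {φ : ℕ → ℍ → ℝ} {m : ℕ → ℝ} {μ ϖ : Measure (ℍ × S1)} (T : Dta Γ D ρ φ m)
    (hμ : Semiclassical ρ φ m μ) (hϖ : Crossing ρ μ ϖ)
    {w : ℍ → ℝ} (hwc : Continuous w) (hwi : ∀ γ ∈ Γ, ∀ z, w (γ • z) = w z) (x : Fin 4 → ℂ) :
    Tendsto (fun n => ((∫ p, w p.1 * (Berry.rWave ρ (φ n) (m n) (x 0) p
        * Berry.rWave ρ (φ n) (m n) (x 1) p * Berry.rWave ρ (φ n) (m n) (x 2) p
        * Berry.rWave ρ (φ n) (m n) (x 3) p) ∂(Berry.rFrameProb ρ D))
      - crossP x 0 / 3 * Berry.rAvg ρ D (fun z => w z * φ n z ^ 4)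
      - (Berry.area ρ D).toReal⁻¹ * ∫ p in D ×ˢ univ, w p.1 *
        ((crossP x (Complex.arg (p.2 : ℂ)) - crossP x 0) / (p.2 : ℂ).im ^ 2) ∂ϖ)
      / (1 + Berry.rAvg ρ D (fun z => φ n z ^ 4))) atTop (𝓝 0) := by
  have hD := GJT.dom T.meas T.strict
  have hρc : Continuous ρ := QE.continuous_of_smooth T.fac.smooth
  have hpc : ∀ n, Continuous (φ n) := fun n => QJ.FINP.continuous_of_smooth (T.smooth n)
  obtain ⟨B, hB⟩ := Berry.bdd_of_cocompact hwc hwi T.fac.cpt
  have hgeo : Berry.Geo Γ ρ D := (Berry.surf_of_cocompact hD T.meas T.fac.cpt hρc T.fac.inv T.eig).geo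
  rw [CRP.crossP_zero]
  set k : ℕ → ℝ := fun n => Berry.rAvg ρ D (fun z => φ n z ^ 4) with hk
  set Q : ℝ := (Berry.area ρ D).toReal⁻¹ * ∫ p in D ×ˢ univ, w p.1 *
        ((crossP x (Complex.arg (p.2 : ℂ)) - resK x) / (p.2 : ℂ).im ^ 2) ∂ϖ with hQ
  set e : ℕ → ℝ := fun n => (∫ p, w p.1 * (Berry.rWave ρ (φ n) (m n) (x 0) p
        * Berry.rWave ρ (φ n) (m n) (x 1) p * Berry.rWave ρ (φ n) (m n) (x 2) p
        * Berry.rWave ρ (φ n) (m n) (x 3) p) ∂(Berry.rFrameProb ρ D))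
      - resK x / 3 * Berry.rAvg ρ D (fun z => w z * φ n z ^ 4) with he
  have hk0 : ∀ n, 0 ≤ k n := by
    intro n
    rw [hk]
    unfold Berry.rAvg
    exact integral_nonneg fun z => by positivity
  show Tendsto (fun n => (e n - Q) / (1 + k n)) atTop (𝓝 0)
  refine tendsto_of_subseq_tendsto fun ns hns => ?_
  by_cases hbd : ∃ B : ℝ, ∃ᶠ i in atTop, k (ns i) ≤ B
  · -- a subsequence with bounded fourth moments
    obtain ⟨K, hK⟩ := hbd
    obtain ⟨t, ht, htK⟩ := extraction_of_frequently_atTop hK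
    have hst : Tendsto (fun i => ns (t i)) atTop atTop := hns.comp ht.tendsto_atTop
    refine ⟨t, ?_⟩
    have hμ' : Semiclassical ρ (fun i => φ (ns (t i))) (fun i => m (ns (t i))) μ :=
      ⟨hμ.fin, fun j l ζ a1 a2 a3 => (hμ.lim j l ζ a1 a2 a3).comp hst⟩
    have heig : Berry.REigenSeq Γ ρ (fun i => φ (ns (t i))) (fun i => m (ns (t i))) :=
      ⟨fun n => T.eig.invariant _, fun n => T.eig.smooth _, fun n => T.eig.eigen _,
        T.eig.tendsto.comp hst⟩
    obtain ⟨s, s1, s2, s3, s4, s5, s6⟩ := bdc_closed Γ ρ D (fun i => φ (ns (t i)))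
      (fun i => m (ns (t i))) μ ϖ inferInstance T.fac T.meas hD heig (fun n => T.smooth _)
      (fun n => T.norm _) ⟨K, fun n => htK n⟩ hμ' hϖ
    have h1 := s6 w hwc hwi x
    have h2 := hCsi ρ D s w B x hρc s1 T.meas s4 hwc hB
    rw [← s3] at h2
    have hav : ∀ f : ℍ → ℝ, Berry.rAvg ρ D f = (Berry.area ρ D).toReal⁻¹ * ∫ z in D, f z
        ∂(Berry.area ρ) := by
      intro f
      unfold Berry.rAvg ProbabilityTheory.cond
      rw [integral_smul_measure, ENNReal.toReal_inv, smul_eq_mul]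
    have h3 : Q = Berry.rAvg ρ D (fun z => w z * dirWick (s z) x)
        - resK x * Berry.rAvg ρ D (fun z => w z * (s z univ).toReal ^ 2) := by
      rw [hQ, h2, hav, hav]
      ring
    have h4 : Tendsto (fun i => e (ns (t i)) - Q) atTop (𝓝 0) := by
      refine h1.congr fun i => ?_
      rw [he, h3]
      ring
    refine squeeze_zero_norm (fun i => ?_) (tendsto_zero_iff_norm_tendsto_zero.1 h4)
    rw [norm_div]
    refine div_le_self (norm_nonneg _) ?_
    rw [Real.norm_eq_abs]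
    have := hk0 (ns (t i))
    rw [abs_of_nonneg (by linarith)]
    linarith
  · -- the fourth moments tend to infinity
    have hinf : Tendsto (fun i => k (ns i)) atTop atTop := by
      rw [tendsto_atTop]
      intro B
      have h1 : ¬ ∃ᶠ i in atTop, k (ns i) ≤ B := fun h => hbd ⟨B, h⟩
      rw [not_frequently] at h1
      filter_upwards [h1] with i hi
      exact (not_le.1 hi).le
    have heig : Berry.REigenSeq Γ ρ (fun i => φ (ns i)) (fun i => m (ns i)) :=
      ⟨fun n => T.eig.invariant _, fun n => T.eig.smooth _, fun n => T.eig.eigen _,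
        T.eig.tendsto.comp hns⟩
    refine ⟨id, ?_⟩
    have h1 := infty_closed Γ ρ D (fun i => φ (ns i)) (fun i => m (ns i)) inferInstance T.fac T.meas
      hD heig (fun n => T.smooth _) (fun n => T.norm _) hinf w hwc hwi x
    have h2 : Tendsto (fun i => e (ns i) / k (ns i)) atTop (𝓝 0) := by
      refine h1.congr fun i => ?_
      rw [he, hk]
      ring
    have h3 : Tendsto (fun i => Q / k (ns i)) atTop (𝓝 0) := hinf.const_div_atTop Q
    have h4 := h2.sub h3
    rw [sub_zero] at h4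
    refine squeeze_zero_norm' ?_ (tendsto_zero_iff_norm_tendsto_zero.1 h4)
    filter_upwards [hinf.eventually_gt_atTop 0] with i hi
    have h5 : e (ns i) / k (ns i) - Q / k (ns i) = (e (ns i) - Q) / k (ns i) := by ring
    show ‖(e (ns i) - Q) / (1 + k (ns i))‖ ≤ ‖e (ns i) / k (ns i) - Q / k (ns i)‖
    rw [h5, norm_div, norm_div, Real.norm_eq_abs (k (ns i)), Real.norm_eq_abs (1 + k (ns i)),
      abs_of_pos hi, abs_of_pos (by linarith)]
    exact div_le_div_of_nonneg_left (norm_nonneg _) hi (by linarith)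

end

end CRN
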