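import Pool.Agent.CRN.Final
import Pool.Agent.CRN.PTS
import Pool.Agent.CRN.CSI
import Pool.Agent.CRN.JID
import Pool.Agent.CRN.PCV

/-!
The proof of theorem N.
-/

open MeasureTheory Filter Topology Set MatrixGroups
open UpperHalfPlane hiding I
open scoped ContDiff ENNReal ProbabilityTheory

namespace CRN

open QE QE.NC QJ U3 CRM NFP

noncomputable section

namespace MN

theorem quo : StmtQuo := t_QUO (t_JID (t_PCV QJ.stmtIter))

theorem stmtCsi : StmtCsi := fun ρ D s w B x _ h1 h2 h3 h4 h5 =>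
  csi x ρ s h1 D h2 h3 w h4 B h5

/-- the crossing measure has finite mass over `D` -/
lemma fin_D {Γ : Subgroup SL(2, ℝ)} [Countable Γ] {D : Set ℍ} {ρ : ℍ → ℝ}
    {φ : ℕ → ℍ → ℝ} {m : ℕ → ℝ} {ϖ : Measure (ℍ × S1)} (T : Dta Γ D ρ φ m)
    (hfin : ∀ K : Set ℍ, IsCompact K → ϖ (K ×ˢ univ) < ⊤)
    (hinv : ∀ γ ∈ Γ, Measure.map (fun p : ℍ × S1 => (γ • p.1, p.2)) ϖ = ϖ) :
    ϖ (D ×ˢ univ) < ⊤ := by
  have hD := GJT.dom T.meas T.strict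
  have hρc : Continuous ρ := QE.continuous_of_smooth T.fac.smooth
  have geo : Berry.Geo Γ ρ D :=
    (Berry.surf_of_cocompact hD T.meas T.fac.cpt hρc T.fac.inv T.eig).geo
  obtain ⟨ψ, hψ, hψc, hψs, hψ0, hψ1, hψa⟩ := t_PTN Γ ρ D geo T.fac.smooth T.fac.cpt
  obtain ⟨i1, -⟩ := t_UNF Γ D T.meas T.strict ϖ hfin hinv ψ hψ.continuous hψc hψs hψ0 hψ1
    (fun _ => 1) continuous_const (fun γ hγ p => rfl)
  rcases (integrableOn_const_iff (by simp)).1 i1 with h | h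
  · exact absurd h (by simp)
  · exact h

end MN

open MN in
/-- theorem N -/
theorem stmtN : StmtN := by
  intro Γ _ D ρ φ m hDm hDs hK hρ hρΓ hφ hs hq
  have hF : Fac Γ ρ := ⟨hρ, hρΓ, hK⟩
  have T : Dta Γ D ρ φ m := ⟨hDm, hDs, hF, hφ, hs, hq⟩
  have hD := GJT.dom hDm hDs
  refine ⟨exist_closed Γ ρ D φ m inferInstance hF hDm hD hφ hs hq, fun μ hμ => ?_⟩
  obtain ⟨N, hN, hL⟩ := U3.srf Γ D ρ φ m hDm hD hK hρ hρΓ hφ hs hq
  have hμ' : Semiclassical ρ (fun n => φ (n + N)) (fun n => m (n + N)) μ :=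
    ⟨hμ.fin, fun j k ζ a1 a2 a3 => (hμ.lim j k ζ a1 a2 a3).comp (tendsto_add_atTop_nat N)⟩
  obtain ⟨ϖ, c1, c2, c3, c4⟩ := CRM.main (φ := fun n => φ (n + N)) (m := fun n => m (n + N)) hF hL
    (fun γ hγ n z => hφ.invariant _ γ hγ z) hμ'
  have C : Cmp Γ ρ (fun n => 1 / m (n + N)) (fun n z => (φ (n + N) (ofComplex z) : ℂ)) ϖ :=
    ⟨c4, c2, c3⟩
  have hfin : ϖ (D ×ˢ univ) < ⊤ := fin_D T c1.fin c2
  refine ⟨ϖ, c1, c2, c3, hfin, fun w hw hwi => ⟨fun k v => jets quo T hN C hw hwi k v,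
    fun x => ⟨PTS.intg T hfin (QE.continuous_of_smooth hw) hwi x,
      pts stmtCsi T hμ c1 (QE.continuous_of_smooth hw) hwi x⟩,
    fun hw0 => low T hN C hw hwi hw0⟩, fun hB => ?_⟩
  obtain ⟨s, s1, s2, s3, s4, s5, s6⟩ := bdc_closed Γ ρ D φ m μ ϖ inferInstance hF hDm hD hφ hs hq hB
    hμ c1
  refine ⟨s, s1, s2, s3, s4, fun w hw hwi x => ?_⟩
  rw [CRP.crossP_zero]
  exact s6 w hw hwi x

end

end CRN
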