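import Pool.Agent.CRN.Main
import Pool.Agent.CRN.Final2
import Pool.Agent.CRM.CRS
import Pool.Agent.CRM.CLB
import Pool.Agent.CRM.DNS
import Pool.Agent.CRM.AVG
import Pool.Agent.CRN.FinalQ

/-!
The proof of theorem N, second version.
-/

open MeasureTheory Filter Topology Set MatrixGroups
open UpperHalfPlane hiding I
open scoped ContDiff ENNReal ProbabilityTheory

namespace CRN

open QE QE.NC QJ U3 CRM NFP

noncomputable section

/-- SQD: the total mass is square integrable over `D` -/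
def StmtSqd : Prop :=
  ∀ (Γ : Subgroup SL(2, ℝ)) [Countable Γ] (D : Set ℍ) (ρ : ℍ → ℝ) (φ : ℕ → ℍ → ℝ) (m : ℕ → ℝ),
    Dta Γ D ρ φ m → ∀ s : ProbabilityTheory.Kernel ℍ S1, (∀ z, IsFiniteMeasure (s z)) →
    (∀ K : Set ℍ, IsCompact K → IntegrableOn (fun z => (s z univ).toReal ^ 2) K (Berry.area ρ)) →
    Semiclassical ρ φ m ((Berry.area ρ) ⊗ₘ s) →
    IntegrableOn (fun z => (s z univ).toReal ^ 2) D (Berry.area ρ)

/-- CSJ: the crossing integral for the jets of a measure with a density -/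
def StmtCsj : Prop :=
  ∀ (ρ : ℍ → ℝ) (D : Set ℍ) (s : ProbabilityTheory.Kernel ℍ S1) (w : ℍ → ℝ) (B : ℝ)
    (k : Fin 4 → ℕ) (v : ∀ i, Fin (k i) → ℂ), (∀ z, IsFiniteMeasure (s z)) → MeasurableSet D →
    IntegrableOn (fun z => (s z univ).toReal ^ 2) D (Berry.area ρ) → Continuous w →
    (∀ z, |w z| ≤ B) →
    ∫ p in D ×ˢ univ, w p.1 * ((crossJ k v (Complex.arg (p.2 : ℂ)) - crossJ k v 0)
        / (p.2 : ℂ).im ^ 2) ∂(crossS ρ s)
      = ∫ z in D, w z * (∫ t, ∫ t', crossJ k v (Complex.arg ((t / t' : S1) : ℂ)) ∂(s z) ∂(s z))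
          ∂(Berry.area ρ)
        - crossJ k v 0 * ∫ z in D, w z * (s z univ).toReal ^ 2 ∂(Berry.area ρ)

namespace MN

theorem crs : StmtCrs := t_CRS (t_AVG t_CLB) t_CLB t_DNS

lemma hav (ρ : ℍ → ℝ) (D : Set ℍ) (f : ℍ → ℝ) : Berry.rAvg ρ D f
    = (Berry.area ρ D).toReal⁻¹ * ∫ z in D, f z ∂(Berry.area ρ) := by
  unfold Berry.rAvg ProbabilityTheory.cond
  rw [integral_smul_measure, ENNReal.toReal_inv, smul_eq_mul]

/-- the crossing measure is unique -/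
lemma uniq {ρ : ℍ → ℝ} {μ ϖ ϖ' : Measure (ℍ × S1)} (h : Crossing ρ μ ϖ) (h' : Crossing ρ μ ϖ') :
    ϖ = ϖ' := by
  have fin : ∀ {κ : Measure (ℍ × S1)}, Crossing ρ μ κ → IsFiniteMeasureOnCompacts κ := by
    intro κ hκ
    refine ⟨fun L hL => ?_⟩
    refine lt_of_le_of_lt (measure_mono ?_) (hκ.fin (Prod.fst '' L) (hL.image continuous_fst))
    intro p hp
    exact ⟨mem_image_of_mem _ hp, mem_univ _⟩
  have := fin h
  have := fin h'
  refine Measure.ext_of_integral_eq_on_compactlySupported fun f => ?_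
  exact tendsto_nhds_unique (h.lim f f.continuous f.hasCompactSupport)
    (h'.lim f f.continuous f.hasCompactSupport)

/-- square integrability on compact sets -/
lemma sq_loc {Γ : Subgroup SL(2, ℝ)} [Countable Γ] {D : Set ℍ} {ρ : ℍ → ℝ} {φ : ℕ → ℍ → ℝ}
    {m : ℕ → ℝ} {u : ℤ → ℂ → ℂ} {s : ProbabilityTheory.Kernel ℍ S1}
    (T : BND.Dat Γ ρ D φ m u s) (K : Set ℍ) (hK : IsCompact K) :
    IntegrableOn (fun z => (s z univ).toReal ^ 2) K (Berry.area ρ) := by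
  obtain ⟨R, hR⟩ := T.ws.geo.bdd
  refine BND.int_area hR ?_
  refine (GLOB.integrable_iff (fun z => (s z univ).toReal ^ 2) hK).1 ?_
  refine ((T.loc fourVar_closed 0).1 (UpperHalfPlane.coe '' K)
    (hK.image UpperHalfPlane.continuous_coe) ?_).2
  rintro _ ⟨z, -, rfl⟩
  exact z.im_pos

end MN

open MN in
/-- theorem N, second version -/
theorem stmtN2_of (hSqd : StmtSqd) (hCsj : StmtCsj) : StmtN2 := by
  intro Γ _ D ρ φ m hDm hDs hK hρ hρΓ hφ hs hq
  have hF : Fac Γ ρ := ⟨hρ, hρΓ, hK⟩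
  have T : Dta Γ D ρ φ m := ⟨hDm, hDs, hF, hφ, hs, hq⟩
  have hD := GJT.dom hDm hDs
  have hρc : Continuous ρ := QE.continuous_of_smooth hρ
  obtain ⟨a0, a1⟩ := stmtN Γ D ρ φ m hDm hDs hK hρ hρΓ hφ hs hq
  refine ⟨a0, fun μ hμ => ?_, fun hQE w hw => ?_⟩
  · obtain ⟨ϖ, b1, b2, b3, b4, b5, -⟩ := a1 μ hμ
    refine ⟨ϖ, b1, b2, b3, b4, fun w hw => b5 w hw.smooth hw.inv, fun s hs0 hμs hloc => ?_,
      fun hB => ?_⟩
    · subst hμs
      have hsq := hSqd Γ D ρ φ m T s hs0 hloc hμ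
      have hcs : ϖ = crossS ρ s := crs Γ ρ hF s ϖ hs0 hloc b1
      refine ⟨hsq, hcs, fun w hw => ?_⟩
      have hwc : Continuous w := QE.continuous_of_smooth hw.smooth
      obtain ⟨B, hB⟩ := Berry.bdd_of_cocompact hwc hw.inv hK
      refine ⟨fun k v => ?_, fun x => ?_⟩
      · have h1 := hCsj ρ D s w B k v hs0 hDm hsq hwc hB
        unfold crossInt quot
        rw [hcs, h1, hav, hav]
        ring
      · have h1 := csi x ρ s hs0 D hDm hsq w hwc B hB
        unfold crossInt quot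
        rw [CRP.crossP_zero, hcs, h1, hav, hav]
        ring
    · obtain ⟨N, u, s, -, -, hμe, U⟩ := exists_dat inferInstance hF hDm hD hφ hs hB hμ
      exact ⟨s, U.fin, hμe, fun K hKc => sq_loc U K hKc⟩
  · obtain ⟨c1, c2, c3⟩ := q_of stmtN Γ D ρ φ m hDm hDs hK hρ hρΓ hφ hs hq hQE w hw.smooth hw.inv
    refine ⟨c1, fun x => ?_, c3⟩
    have h1 := c2 x
    rw [CRP.crossP_zero] at h1
    exact h1

end

end CRN
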