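import Pool.Agent.CRN.Main
import Pool.Agent.CRM.Qe

/-!
QEC: the clause for quantum ergodic sequences.
-/

open MeasureTheory Filter Topology Set MatrixGroups
open UpperHalfPlane hiding I
open scoped ContDiff ENNReal ProbabilityTheory

namespace CRN

open QE QE.NC QJ U3 CRM NFP

noncomputable section

namespace QEW

lemma cont_dirS : Continuous dirS := by
  unfold dirS
  exact Continuous.subtype_mk (by fun_prop) _

lemma prob_uniS : IsProbabilityMeasure uniS := by
  have := CRP.angle_prob
  unfold uniS
  exact Measure.isProbabilityMeasure_map cont_dirS.measurable.aemeasurable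

/-- the covariance for the uniform distribution of directions -/
lemma dirK_uniS (y : ℂ) : NFP.dirK uniS y = Berry.waveK y := by
  unfold NFP.dirK uniS
  rw [integral_map cont_dirS.measurable.aemeasurable]
  · rw [← CRP.int_pc]
    rfl
  · refine Continuous.aestronglyMeasurable ?_
    have : Continuous fun w : S1 => (w : ℂ) := continuous_subtype_val
    fun_prop

lemma waveK_rot (θ : ℝ) (y : ℂ) : Berry.waveK (CRP.cis θ * y) = Berry.waveK y := by
  rw [← CRP.int_pc, ← CRP.int_pc]
  have h := CRP.int_rot (fun u => CRP.pc u y) (t := (starRingEnd ℂ) (CRP.cis θ)) (by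
    rw [Complex.norm_conj, CRP.norm_cis])
  rw [← h]
  refine integral_congr_ae (Eventually.of_forall fun θ' => ?_)
  beta_reduce
  unfold CRP.pc
  rw [map_mul, Complex.conj_conj]
  congr 2
  ring

/-- the Gaussian value -/
def wickK (x : Fin 4 → ℂ) : ℝ :=
  Berry.waveK (x 0 - x 1) * Berry.waveK (x 2 - x 3) + Berry.waveK (x 0 - x 2) * Berry.waveK (x 1 - x 3)
    + Berry.waveK (x 0 - x 3) * Berry.waveK (x 1 - x 2)

lemma dirWick_uniS (x : Fin 4 → ℂ) : dirWick uniS x = wickK x := by
  unfold dirWick wickK
  simp only [dirK_uniS]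
  have h : ∀ θ : ℝ, Complex.exp (θ * Complex.I) = CRP.cis θ := fun θ => rfl
  simp only [h, waveK_rot]
  rw [intervalIntegral.integral_const, smul_eq_mul, sub_zero]
  have := Real.pi_pos
  field_simp

end QEW

end

end CRN
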