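import Pool.Agent.CRN.Final2
import Pool.Agent.CRN.FinalQ
import Pool.Agent.CRN.Main

/-!
Clause (6) of theorem N: quantum ergodic sequences.
-/

open MeasureTheory Filter Topology Set MatrixGroups UpperHalfPlane
open scoped ContDiff ENNReal ProbabilityTheory

namespace CRN

open QJ NFP CRM

noncomputable section

/-- clause (6) of theorem N -/
theorem qe_clause {Γ : Subgroup SL(2, ℝ)} [Countable Γ] {D : Set ℍ} {ρ : ℍ → ℝ} {φ : ℕ → ℍ → ℝ}
    {m : ℕ → ℝ} (T : Dta Γ D ρ φ m) (hQE : QE.QuantumErgodic ρ φ m) :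
    ∀ w : ℍ → ℝ, Wgt Γ w →
      (∀ (k : Fin 4 → ℕ) (v : ∀ i, Fin (k i) → ℂ),
        Tendsto (fun n => jetMean ρ D (φ n) (m n) w k v
          - (Berry.rAvg ρ D w * (covar (v 0) (v 1) * covar (v 2) (v 3)
              + covar (v 0) (v 2) * covar (v 1) (v 3) + covar (v 0) (v 3) * covar (v 1) (v 2))
            + (Berry.rAvg ρ D (fun z => w z * φ n z ^ 4) - 3 * Berry.rAvg ρ D w) / 3
              * crossJ k v 0)) atTop (𝓝 0)) ∧
      (∀ x : Fin 4 → ℂ,
        Tendsto (fun n => (ptMean ρ D (φ n) (m n) w x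
          - (Berry.rAvg ρ D w * (Berry.waveK (x 0 - x 1) * Berry.waveK (x 2 - x 3)
              + Berry.waveK (x 0 - x 2) * Berry.waveK (x 1 - x 3)
              + Berry.waveK (x 0 - x 3) * Berry.waveK (x 1 - x 2))
            + (Berry.rAvg ρ D (fun z => w z * φ n z ^ 4) - 3 * Berry.rAvg ρ D w) / 3
              * (Berry.waveK (x 0 + x 1 - x 2 - x 3) + Berry.waveK (x 0 + x 2 - x 1 - x 3)
                + Berry.waveK (x 0 + x 3 - x 1 - x 2))))
          / (1 + Berry.rAvg ρ D (fun z => φ n z ^ 4))) atTop (𝓝 0)) ∧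
      ((∀ z, 0 ≤ w z) → ENNReal.ofReal (3 * Berry.rAvg ρ D w)
        ≤ liminf (fun n => ENNReal.ofReal (Berry.rAvg ρ D (fun z => w z * φ n z ^ 4))) atTop) := by
  intro w hw
  obtain ⟨h1, h2, h3⟩ := q_of stmtN Γ D ρ φ m T.meas T.strict T.fac.cpt T.fac.smooth T.fac.inv T.eig
    T.smooth T.norm hQE w hw.smooth hw.inv
  refine ⟨h1, fun x => ?_, h3⟩
  have h := h2 x
  rw [CRP.crossP_zero] at h
  exact h

end

end CRN
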