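import Pool.Agent.CRN.Defs

/-!
Theorem N: the four-jet statistics of all eigenfunctions on closed surfaces. Statements of the steps
of the transfer from the covariant jets to the local waves. Each step is a `Prop`; a module proves one
of them, possibly from others taken as hypotheses.
-/

open MeasureTheory Filter Topology Set MatrixGroups
open UpperHalfPlane hiding I
open scoped ContDiff

namespace CRN

open QE QE.NC QJ U3 CRM NFP

noncomputable section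

/-- PCV: the covariance of two derivatives of a plane wave with random phase.
Proof. This is the first part of the proof of `QJ.stmtPwt` (C22, the lemma `h1` there), with
`Real.cos ((n - m) * (π / 2)) = I ^ (n - m)` if `n - m` is even, and `0` if it is odd. Hypothesis:
`QJ.StmtIter` (proved as `QJ.stmtIter`). -/
def StmtPcv : Prop :=
  ∀ (θ : ℝ) (k l : ℕ) (v : Fin k → ℂ) (w : Fin l → ℂ), ((pcov θ v w : ℝ) : ℂ)
    = ∑ a ∈ Finset.range (k + 1), ∑ b ∈ Finset.range (l + 1),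
      (QJ.sc v a * cW a (k - a)) * (QJ.sc w b * cW b (l - b))
        * ((if (((a : ℤ) - (k - a : ℕ)) + ((b : ℤ) - (l - b : ℕ))) % 2 = 0 then
            Complex.I ^ (((a : ℤ) - (k - a : ℕ)) - ((b : ℤ) - (l - b : ℕ))) else 0)
          * uu θ ^ (((a : ℤ) - (k - a : ℕ)) + ((b : ℤ) - (l - b : ℕ))))

/-- JID: the crossing sums in terms of the spins.
Proof (from `StmtPcv`). Insert `StmtPcv` in the products; the product of the four factors
`sc (v i) (a i) * cW (a i) (k i - a i)` appears in each pairing, and the sums over `a i` become a sum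
over `Fintype.piFinset` (`Finset.prod_univ_sum` or by hand). With the spins `a, b, c, d` the pairing
`(01)(23)` gives, if `a + b` and `c + d` are even,
`I ^ (a - b + c - d) * uu θ ^ (a + b) * uu θ' ^ (c + d)`, `θ' = θ ± α`, `uu (θ + α) = uu θ * uu α`, so
the mean over `θ` (`QE.ang_zpow`) is zero unless `a + b + c + d = 0`, and then it is
`I ^ (-2 (b + d)) * uu (± α) ^ (-(a + b)) = (-1) ^ (b + d) * e^{± i α (a + b)}`; the mean of the two
signs is `(-1) ^ (b + d) * ck (a + b) (e^{iα})`. In the same way `(02)(13)` gives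
`(-1) ^ (c + d) ck (a + c)` and `(03)(12)` gives `(-1) ^ (c + d) ck (a + d)`. If `a + b + c + d = 0`
then `a + b` is even iff `c + d` is. -/
def StmtJid : Prop :=
  ∀ (k : Fin 4 → ℕ) (v : ∀ i, Fin (k i) → ℂ) (α : ℝ),
    ((crossJ k v α : ℝ) : ℂ) = sumJ k v (wt (Complex.exp (α * Complex.I)))

/-- QUO: the quotient.
Proof. (1) for `‖t‖ = 1` and even `j`: `1 - ck j t = s2 t * gk j t` (`j = 2 i`:
`1 - Re t^{2i} = |t^{2i} - 1|² / 2 = |t² - 1|² |1 + t² + ... + t^{2(|i|-1)}|² / 2`). (2) if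
`a + b + c + d = 0` and `‖t‖ = 1` then `s2 t * lk (gk · t) a b c d = wt t a b c d - wt 1 a b c d` and
`wt 1 a b c d = 3 * cl4 a b c d`: if `a, b, c, d` have the same parity then all three sums are even, all
signs are `+` and `cl4 = 1`; otherwise exactly one of `a + b`, `a + c`, `a + d` is even, its sign is
`-1`, and `cl4 = -1/3`. (3) Sum over the mixed derivatives; with `StmtJid`. (4) continuity:
`gk j` is continuous. -/
def StmtQuo : Prop :=
  (∀ (a b c d : ℤ) (t : ℂ), ‖t‖ = 1 → a + b + c + d = 0 →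
    (s2 t : ℂ) * lk (fun j => (gk j t : ℂ)) a b c d = wt t a b c d - 3 * cl4 a b c d) ∧
  ∀ (k : Fin 4 → ℕ) (v : ∀ i, Fin (k i) → ℂ),
    Continuous (quoJ k v) ∧
    (∀ α : ℝ, (s2 (Complex.exp (α * Complex.I)) : ℂ) * quoJ k v (Complex.exp (α * Complex.I))
      = ((crossJ k v α - crossJ k v 0 : ℝ) : ℂ)) ∧
    sumJ k v cl4 = ((crossJ k v 0 / 3 : ℝ) : ℂ)

/-- LWF: the local theorem for four mixed derivatives.
Proof. As `U3.stmtLwU` (C40): localise with `U3.StmtLcz` for `K = tsupport ζ`, then `U3.LWU.main`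
(`r = 4`), then `LinkG.lim`, and `E4 σ h ψ ζ 0 0 0 0 n = ∫ ζ φ⁴`. -/
def StmtLwF : Prop :=
  ∀ (ρ : ℍ → ℝ) (h : ℕ → ℝ) (φ : ℕ → ℂ → ℂ) (ϖ : Measure (ℍ × S1)),
    ContDiffOn ℝ ∞ (fun w : ℂ => ρ (ofComplex w)) {w | 0 < w.im} →
    LocU UH (gr ρ) h φ → LinkG ρ h φ ϖ → ∀ ζ : ℂ → ℂ, Test UH ζ →
    ∀ a b : Fin 4 → ℕ, ∑ i, ((a i : ℤ) - b i) = 0 →
    Tendsto (fun n => (∫ z, ζ z * ∏ i, Wg (gr ρ) h φ (a i) (b i) n z)
      - (∏ i, cW (a i) (b i)) * cl4 ((a 0 : ℤ) - b 0) ((a 1 : ℤ) - b 1) ((a 2 : ℤ) - b 2)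
          ((a 3 : ℤ) - b 3) * ∫ z, ζ z * φ n z ^ 4) atTop
      (𝓝 ((∏ i, cW (a i) (b i)) * ∫ p : ℍ × S1, ζ p.1 * (((gr ρ p.1)⁻¹ : ℝ) : ℂ)
        * lk (fun j => (gk j p.2 : ℂ)) ((a 0 : ℤ) - b 0) ((a 1 : ℤ) - b 1) ((a 2 : ℤ) - b 2)
          ((a 3 : ℤ) - b 3) ∂ϖ))

/-- LGF: the local theorem for four derivatives of the local waves.
Proof. As in `U3.stmtLogU` (C40): `U3.StmtMainU` for `r = 4` and `StmtLwF` with the test function
`ψ`; sum over `a`; the limit is `∫ ψ gr⁻¹ quoJ` (finite sum of integrals; the integrands are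
continuous with compact support in `ℍ`, bounded in `t`, hence integrable), the main term is
`sumJ k v cl4 * ∫ ψ φ⁴`, computed by `StmtQuo`. The left side is real, so the limit is the real part. -/
def StmtLgF : Prop :=
  ∀ (ρ : ℍ → ℝ) (φ : ℕ → ℍ → ℝ) (m : ℕ → ℝ) (ϖ : Measure (ℍ × S1)),
    ContDiffOn ℝ ∞ (fun w : ℂ => ρ (ofComplex w)) {w | 0 < w.im} → (∀ n, 0 < m n) →
    (∀ n, ContDiffOn ℝ ∞ (fun w : ℂ => φ n (ofComplex w)) {w | 0 < w.im}) →
    LocU UH (gr ρ) (fun n => 1 / m n) (fun n z => (φ n (ofComplex z) : ℂ)) →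
    LinkG ρ (fun n => 1 / m n) (fun n z => (φ n (ofComplex z) : ℂ)) ϖ →
    ∀ ψ : ℂ → ℝ, ContDiff ℝ ∞ ψ → HasCompactSupport ψ → tsupport ψ ⊆ {w | 0 < w.im} →
    ∀ (k : Fin 4 → ℕ) (v : ∀ i, Fin (k i) → ℂ),
      Tendsto (fun n => (∫ z, ψ z * angJet ρ (φ n) (m n) k v (ofComplex z))
        - crossJ k v 0 / 3 * ∫ z, ψ z * φ n (ofComplex z) ^ 4) atTop
        (𝓝 (∫ p : ℍ × S1, ψ p.1 * (gr ρ p.1)⁻¹ * (quoJ k v p.2).re ∂ϖ))

/-- PTN: a partition of unity.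
Proof. As `QJ.TEST.exists_test_smooth` and `QJ.stmtTest` (C22): take the function `c` of
`exists_cut_smooth`, `χ z = c z` on `ℍ`, `ψ w = c w / NN Γ χ (ofComplex w)` (zero off the support of
`c`), which is smooth (`smooth_NN`, `NN > 0`); `∑ γ, ψ (γ z) = 1` by `NN_inv`; and
`ψ w * gr ρ w` is the function `c w * G (ofComplex w)` of that proof, which computes the integrals over
`D` of the continuous invariant functions `f ≥ 0`; the passage to all `f` and to averages is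
`QJ.TEST.rAvg_eq` as in `stmtTest`. -/
def StmtPtn : Prop :=
  ∀ (Γ : Subgroup SL(2, ℝ)) [Countable Γ] (ρ : ℍ → ℝ) (D : Set ℍ), Berry.Geo Γ ρ D →
    ContDiffOn ℝ ∞ (fun w : ℂ => ρ (ofComplex w)) {w | 0 < w.im} →
    (∃ K : Set ℍ, IsCompact K ∧ ∀ z, ∃ γ ∈ Γ, γ • z ∈ K) →
    ∃ ψ : ℂ → ℝ, ContDiff ℝ ∞ ψ ∧ HasCompactSupport ψ ∧ tsupport ψ ⊆ {w | 0 < w.im} ∧
      (∀ w, 0 ≤ ψ w) ∧ (∀ z : ℍ, HasSum (fun γ : Γ => ψ ((γ • z : ℍ) : ℂ)) 1) ∧
      ∀ f : ℍ → ℝ, Continuous f → (∀ γ ∈ Γ, ∀ z, f (γ • z) = f z) →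
        Berry.rAvg ρ D f
          = (Berry.area ρ D).toReal⁻¹ * ∫ w, ψ w * gr ρ w * f (ofComplex w)

/-- FNF: the global theorem for four derivatives of the local waves, with a weight.
Proof. As `U3.stmtFnU` (C24): shift by `N` (`U3.StmtSrf`), `StmtLgF` for the test function
`A⁻¹ ψ gr w` (`U3.FNU.test_mul`), with `A = (area ρ D).toReal`; the left sides are the averages over
frames by `U3.FNU.keyJ` (whose hypothesis on `ζ = A⁻¹ ψ gr` is the last property of `ψ`), and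
`∫ ζ w φ⁴ = rAvg (w φ⁴)`; on the right side `gr * gr⁻¹ = 1`. The hypothesis `LinkG` is needed for the
shifted sequence only. -/
def StmtFnF : Prop :=
  ∀ (Γ : Subgroup SL(2, ℝ)) [Countable Γ] (D : Set ℍ) (ρ : ℍ → ℝ) (φ : ℕ → ℍ → ℝ) (m : ℕ → ℝ)
    (ϖ : Measure (ℍ × S1)), MeasurableSet D → IsFundamentalDomain Γ D (volume : Measure ℍ) →
    (∃ K : Set ℍ, IsCompact K ∧ ∀ z, ∃ γ ∈ Γ, γ • z ∈ K) →
    ContDiffOn ℝ ∞ (fun w : ℂ => ρ (ofComplex w)) {w | 0 < w.im} →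
    (∀ γ ∈ Γ, ∀ z, ρ (γ • z) = ρ z) → Berry.REigenSeq Γ ρ φ m →
    (∀ n, ContDiffOn ℝ ∞ (fun w : ℂ => φ n (ofComplex w)) {w | 0 < w.im}) →
    (∀ n, Berry.rAvg ρ D (fun z => φ n z ^ 2) = 1) → (∀ n, 0 < m n) →
    LinkG ρ (fun n => 1 / m n) (fun n z => (φ n (ofComplex z) : ℂ)) ϖ →
    ∀ ψ : ℂ → ℝ, ContDiff ℝ ∞ ψ → HasCompactSupport ψ → tsupport ψ ⊆ {w | 0 < w.im} →
    (∀ f : ℍ → ℝ, Continuous f → (∀ γ ∈ Γ, ∀ z, f (γ • z) = f z) → Berry.rAvg ρ D f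
      = (Berry.area ρ D).toReal⁻¹ * ∫ w, ψ w * gr ρ w * f (ofComplex w)) →
    ∀ w : ℍ → ℝ, ContDiffOn ℝ ∞ (fun z : ℂ => w (ofComplex z)) {z | 0 < z.im} →
    (∀ γ ∈ Γ, ∀ z, w (γ • z) = w z) → ∀ (k : Fin 4 → ℕ) (v : ∀ i, Fin (k i) → ℂ),
      Tendsto (fun n => (∫ p, w p.1 * jetProd k v (fun x => Berry.rWave ρ (φ n) (m n) x p)
          ∂(Berry.rFrameProb ρ D))
        - crossJ k v 0 / 3 * Berry.rAvg ρ D (fun z => w z * φ n z ^ 4)) atTop
        (𝓝 ((Berry.area ρ D).toReal⁻¹ * ∫ p : ℍ × S1, ψ p.1 * w p.1 * (quoJ k v p.2).re ∂ϖ))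

end

end CRN
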